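import Pool.Agent.W805.LR.Defs

/-!
# Random stirring with long-range rates: statements of the parts

Every `S_*` below is one independent part.
-/

set_option autoImplicit false

namespace Pool.Agent.W805.LR

open Finset Equiv Filter Topology

/-! ## Permutations -/

/-- PA1: multiplying by a transposition of points of two different cycles merges them. -/
def S_merge : Prop := ∀ (V : Type) [Fintype V] [DecidableEq V] (g : Perm V) (u w : V),
  ¬ g.SameCycle u w →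
    (∀ v, (g.SameCycle u v ∨ g.SameCycle w v) → len (swap u w * g) v = len g u + len g w) ∧
    (∀ v, ¬ g.SameCycle u v → ¬ g.SameCycle w v → len (swap u w * g) v = len g v) ∧
    (swap u w * g).SameCycle u w

/-- PA2: multiplying by a transposition of two points of the same cycle splits it. -/
def S_split : Prop := ∀ (V : Type) [Fintype V] [DecidableEq V] (g : Perm V) (u w : V),
  u ≠ w → g.SameCycle u w →
    ¬ (swap u w * g).SameCycle u w ∧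
    (∀ v, ¬ g.SameCycle u v → ∀ z, (swap u w * g).SameCycle v z ↔ g.SameCycle v z) ∧
    len (swap u w * g) u + len (swap u w * g) w = len g u ∧
    (∀ v, g.SameCycle u v → (swap u w * g).SameCycle u v ∨ (swap u w * g).SameCycle w v)

/-- PB1: at most `2 s` points fall from a cycle of length at least `s` into a cycle of length less
than `s`, and this only happens if the two points are near in their cycle. -/
def S_damage : Prop := ∀ (V : Type) [Fintype V] [DecidableEq V] (g : Perm V) (u w : V) (s : ℝ),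
  0 ≤ s →
    (cnt fun v => s ≤ len g v ∧ len (swap u w * g) v < s) ≤ 2 * s ∧
    (∀ v, s ≤ len g v → len (swap u w * g) v < s → near g s u w)

/-- PB2: few points are near a given point. -/
def S_near : Prop := ∀ (V : Type) [Fintype V] [DecidableEq V] (g : Perm V) (s : ℝ) (u : V),
  0 ≤ s → cnt (fun w => near g s u w) ≤ 2 * s

/-- PC1: the number of cycles changes by one. -/
def S_cyc : Prop := ∀ (V : Type) [Fintype V] [DecidableEq V] (g : Perm V) (u w : V),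
  (g.SameCycle u w → u ≠ w → cyc (swap u w * g) = cyc g + 1) ∧
  (¬ g.SameCycle u w → cyc (swap u w * g) + 1 = cyc g)

/-- PC2: the same for the number of cycles inside a union `D` of cycles, written as the sum of
`1 / len`. -/
def S_ncyc : Prop := ∀ (V : Type) [Fintype V] [DecidableEq V] (g : Perm V) (D : V → Prop)
  [DecidablePred D], (∀ v, D (g v) ↔ D v) → ∀ u w : V, (D u ↔ D w) →
  (D u → g.SameCycle u w → u ≠ w →
    (∑ v, if D v then 1 / len (swap u w * g) v else 0) = (∑ v, if D v then 1 / len g v else 0) + 1) ∧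
  (D u → ¬ g.SameCycle u w →
    (∑ v, if D v then 1 / len (swap u w * g) v else 0) = (∑ v, if D v then 1 / len g v else 0) - 1) ∧
  (¬ D u →
    (∑ v, if D v then 1 / len (swap u w * g) v else 0) = (∑ v, if D v then 1 / len g v else 0))

/-! ## Slots -/

/-- SL: the slots of type `j`, added to the slots of smaller type, form a stage. -/
def S_slot : Prop := ∀ (V ι : Type) [Fintype V] [DecidableEq V] (M T : ℕ) (θ h : ℝ)
  (Jt : Fin T → V → V → ℝ) (j : Fin T) (blk : V → ι),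
  0 < θ → 0 ≤ h → (∀ j x y, 0 ≤ Jt j x y) → (∀ j x, Jt j x x = 0) →
  (∀ j' ≤ j, ∀ x y, Jt j' x y ≠ 0 → blk x = blk y) →
  ∃ c : Fin M → (Fin M × Fin T → Option (V × V)) → Perm V,
    IsStage (max θ θ⁻¹) (confW θ h Jt) (fun x y => h * Jt j x y / 2) blk M (fun i => (i, j))
      (fun i ω => prodS (slots M T) (fun a => a.2 < j ∨ (a.2 = j ∧ a.1.val < i)) ω) c

/-- ST: the stage lemma. Points in cycles of length at least `s1` merge with the mass in cycles of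
length at least `s2` into cycles of length at least `s'`, up to small errors. -/
def S_stage : Prop := ∀ (V K ι : Type) [Fintype V] [DecidableEq V] [Fintype K] [DecidableEq K]
  (Θ : ℝ) (W : (K → Option (V × V)) → ℝ) (w : V → V → ℝ) (blk : V → ι) (M : ℕ) (a : Fin M → K)
  (g : ℕ → (K → Option (V × V)) → Perm V) (c : Fin M → (K → Option (V × V)) → Perm V),
  IsStage Θ W w blk M a g c → 1 ≤ Θ →
  ∀ (s1 s2 s' δ κ m f b : ℝ) (w2 : V → V → ℝ),
    0 < s1 → s1 ≤ s' → 0 < s2 → s2 ≤ s' → s' ≤ s1 + s2 → 0 < δ → 0 ≤ κ → 0 ≤ m →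
    (∀ x y, x ≠ y → blk x = blk y → κ ≤ w x y) →
    (∀ x y, 0 ≤ w2 x y) → (∀ x y, w x y ≤ m + w2 x y) →
    (∑ x, ∑ y, w2 x y) ≤ Fintype.card V * f →
    (∀ v, b ≤ cnt fun u => blk u = blk v) → s' ≤ δ * b / 2 →
    (Θ * ∑ x, ∑ y, w x y) ≤ 1 →
    ev W (fun ω => cnt fun v => s1 ≤ len (g 0 ω) v ∧ len (g M ω) v < s') ≤
      ((2 + 1 / δ) * (Θ * M * (2 * s') * (Fintype.card V * (2 * s' * m + f))) +
        Fintype.card V * Real.exp (-(M * κ * s1 * δ * b / (4 * Θ)))) * ev W (fun _ => 1) +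
      ev W (fun ω => cnt fun v => s1 ≤ len (g 0 ω) v ∧
        (cnt fun u => blk u = blk v ∧ s2 ≤ len (g 0 ω) u) < 2 * δ * cnt fun u => blk u = blk v)

/-- SG: the giant lemma. After a mean-field stage of rate `κ` on blocks of size at least `b` most
blocks have a positive fraction of their points in cycles of length at least `s`. -/
def S_giant : Prop := ∀ (V K ι : Type) [Fintype V] [DecidableEq V] [Fintype K] [DecidableEq K]
  [DecidableEq ι]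
  (Θ : ℝ) (W : (K → Option (V × V)) → ℝ) (w : V → V → ℝ) (blk : V → ι) (M : ℕ) (a : Fin M → K)
  (g : ℕ → (K → Option (V × V)) → Perm V) (c : Fin M → (K → Option (V × V)) → Perm V),
  IsStage Θ W w blk M a g c → 1 ≤ Θ → 0 < M →
  ∀ (s δ1 κ b : ℝ), 0 < s → 0 < δ1 → 0 < κ → 0 < b →
    (∀ x y, w x y = if x ≠ y ∧ blk x = blk y then κ else 0) →
    (∀ v, b ≤ cnt fun u => blk u = blk v) → δ1 + s / b ≤ 1 / (4 * Θ ^ 2) →
    (Θ * ∑ x, ∑ y, w x y) ≤ 1 →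
    ev W (fun ω => cnt fun v =>
        (cnt fun u => blk u = blk v ∧ s ≤ len (g M ω) u) < δ1 / 2 * cnt fun u => blk u = blk v) ≤
      (Fintype.card V * (4 * Θ / (M * κ * b)) +
        2 / δ1 * (Θ * M * (2 * s) * (Fintype.card V * (2 * s * κ)))) * ev W (fun _ => 1)

/-! ## From slots to the continuous-time process -/

/-- TR: convergence of the slot model to the stirring process. -/
def S_trotter : Prop := ∀ (V : Type) [Fintype V] [DecidableEq V] (T : ℕ)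
  (Jt : Fin T → V → V → ℝ) (t : ℝ) (F : Perm V → ℝ),
  Tendsto (fun M : ℕ => ∑ ω : Fin M × Fin T → Option (V × V),
      (∏ a, wt (t / M) Jt a (ω a)) * F (prodS (slots M T) (fun _ => True) ω)) atTop
    (𝓝 (∑ g, stirMass (fun x y => ∑ j, Jt j x y) t g * F g))

/-! ## Geometry of the torus -/

/-- GE: blocks. -/
def S_blocks : Prop := ∀ (d L i : ℕ) [NeZero L], 2 * 2 ^ i ≤ L →
  (∀ v : Fin d → ZMod L,
    ((L : ℝ) / 2 ^ i / 2) ^ d ≤ cnt fun u : Fin d → ZMod L => tblk i u = tblk i v) ∧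
  (∀ x y : Fin d → ZMod L, tblk i x = tblk i y → (tdist x y : ℝ) ≤ (L : ℝ) / 2 ^ i) ∧
  (∀ x y : Fin d → ZMod L, tblk (i + 1) x = tblk (i + 1) y → tblk i x = tblk i y) ∧
  (∀ x y : Fin d → ZMod L, tblk 0 x = tblk 0 y) ∧
  (∀ x y : Fin d → ZMod L, x ≠ y → 1 ≤ tdist x y)

/-- GF: the total rate of the short pairs between different blocks. -/
def S_flux : Prop := ∀ (d L i : ℕ) [NeZero L] (σ r : ℝ), 1 ≤ d → 0 < σ → σ < 1 → 1 ≤ r →
  (∑ x : Fin d → ZMod L, ∑ y : Fin d → ZMod L,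
    if tblk (i + 1) x ≠ tblk (i + 1) y ∧ (tdist x y : ℝ) ≤ r
      then (tdist x y : ℝ) ^ (-((d : ℝ) + σ)) else 0) ≤
    (L : ℝ) ^ d * (4 * (d : ℝ) ^ 2 * 3 ^ d * (2 ^ i / L) * r ^ (1 - σ) / (1 - σ))

/-! ## Choice of the parameters -/

/-- Error of one growth level: block side `l * 2 ^ j`. -/
noncomputable def lvlErr (d : ℕ) (σ lam Lam Θ C e t l : ℝ) (δ s : ℕ → ℝ) (j : ℕ) : ℝ :=
  2 * δ j + (2 + 1 / δ j) * Θ * t * s j *
      (2 * s j * (lam / 4 * (l * 2 ^ j) ^ (-((d : ℝ) + σ)) +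
          Lam * ((l * 2 ^ j) ^ (1 - e)) ^ (-((d : ℝ) + σ))) +
        C * (l * 2 ^ j)⁻¹ * ((l * 2 ^ j) ^ (1 - e)) ^ (1 - σ)) +
    Real.exp (-(t * (lam / 4 * (l * 2 ^ j) ^ (-((d : ℝ) + σ))) * s (j - 1) * δ j *
      (l * 2 ^ j / 2) ^ d / (8 * Θ)))

/-- Error of the two base stages. -/
noncomputable def baseErr (d : ℕ) (σ lam Θ t l s0 : ℝ) : ℝ :=
  (2 + 32 * Θ ^ 2) * (2 * Θ) * (t * (lam / 8 * l ^ (-((d : ℝ) + σ)))) * s0 ^ 2 +
    (8 * Θ / (t * (lam / 8 * l ^ (-((d : ℝ) + σ))) * (l / 2) ^ d) +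
      32 * Θ ^ 3 * (t * (lam / 8 * l ^ (-((d : ℝ) + σ)))) * s0 ^ 2) +
    Real.exp (-(t * (lam / 8 * l ^ (-((d : ℝ) + σ))) * (l / 2) ^ d / (256 * Θ ^ 3)))

/-- EL: parameters of the levels. -/
def S_levels : Prop := ∀ (d : ℕ) (σ lam Lam Θ η C : ℝ), 1 ≤ d → 0 < σ → σ < 1 → 0 < lam →
  lam ≤ Lam → 1 ≤ Θ → 0 < η → 0 < C →
  ∃ (a Γ s0 lmin e : ℝ) (δ : ℕ → ℝ), σ < a ∧ a ≤ 1 ∧ 0 < Γ ∧ 1 ≤ s0 ∧ 2 ≤ lmin ∧ 0 < e ∧ e < 1 ∧
    (∀ j, 0 < δ j) ∧
    ∀ t l : ℝ, 0 < t → lmin ≤ l → Γ ≤ t * (lam / 8) * l ^ (-σ) / 2 ^ d →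
      t * (lam / 8) * l ^ (-σ) / 2 ^ d ≤ 2 * Γ →
      s0 ≤ (l / 2) ^ d / (64 * Θ ^ 2) ∧
      (∀ j : ℕ, s0 * 2 ^ (((j : ℝ) + 1) * a) ≤ δ (j + 1) * (l * 2 ^ (j + 1) / 2) ^ d / 2) ∧
      baseErr d σ lam Θ t l s0 ≤ η ∧
      ∀ I : ℕ, ∑ j ∈ range I,
        lvlErr d σ lam Lam Θ C e t l δ (fun j => s0 * 2 ^ ((j : ℝ) * a)) (j + 1) ≤ η

/-- Error of one window: threshold `S`. -/
noncomputable def winErr (n Θ t δ κ S : ℝ) : ℝ :=
  2 * δ + (2 + 1 / δ) * (2 * Θ) * t * κ * S ^ 2 +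
    Real.exp (-(t * κ * (S / 2) * δ * n / (8 * Θ)))

/-- EW: parameters of the windows. -/
def S_windows : Prop := ∀ (d : ℕ) (σ lam Θ η a : ℝ), 1 ≤ d → 0 < σ → σ < a → a ≤ 1 → 0 < lam →
  1 ≤ Θ → 0 < η →
  ∃ ε : ℝ, 0 < ε ∧ ε ≤ 1 ∧ ∀ s0 l0 t : ℝ, 1 ≤ s0 → 1 ≤ l0 → 0 < t →
    ∃ L0 : ℕ, ∀ (L : ℕ), L0 ≤ L → ∀ (l : ℝ) (I : ℕ), 1 ≤ l → l ≤ l0 → l * 2 ^ I = L →
      ∃ (Wn : ℕ) (κ δ : ℕ → ℝ),
        ε * (L : ℝ) ^ d / 2 ^ Wn ≤ s0 * 2 ^ ((I : ℝ) * a) ∧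
        ∑ m ∈ range Wn, κ m ≤ lam / 2 * (L : ℝ) ^ (-((d : ℝ) + σ)) ∧
        (∀ m, 0 ≤ κ m ∧ 0 < δ m ∧ ε * (L : ℝ) ^ d / 2 ^ m ≤ δ m * (L : ℝ) ^ d / 2) ∧
        ∑ m ∈ range Wn, winErr ((L : ℝ) ^ d) Θ t (δ m) (κ m) (ε * (L : ℝ) ^ d / 2 ^ m) ≤ η

/-! ## The main inequality -/

/-- Rates on the torus comparable to `tdist ^ (-(d + σ))`. -/
def IsRate (d L : ℕ) [NeZero L] (σ lam Lam : ℝ) (J : (Fin d → ZMod L) → (Fin d → ZMod L) → ℝ) :
    Prop :=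
  (∀ x y, J x y = J y x) ∧ (∀ x, J x x = 0) ∧
    ∀ x y, x ≠ y → lam * (tdist x y : ℝ) ^ (-((d : ℝ) + σ)) ≤ J x y ∧
      J x y ≤ Lam * (tdist x y : ℝ) ^ (-((d : ℝ) + σ))

/-- MAIN: for large times all but a fraction `η` of the points lie in macroscopic cycles, also with
the weight `θ ^ (number of cycles)`. -/
def S_main : Prop := ∀ (d : ℕ) (σ lam Lam θ η : ℝ), 1 ≤ d → 0 < σ → σ < 1 → 0 < lam →
  lam ≤ Lam → 0 < θ → 0 < η →
  ∃ t1 > 0, ∃ ε > 0, ∀ t ≥ t1, ∃ L0 : ℕ, ∀ (L : ℕ) [NeZero L], L0 ≤ L →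
    ∀ J : (Fin d → ZMod L) → (Fin d → ZMod L) → ℝ, IsRate d L σ lam Lam J →
      ∑ g, stirMass J t g * θ ^ cyc g * (cnt fun v => len g v < ε * (L : ℝ) ^ d) ≤
        η * (L : ℝ) ^ d * ∑ g, stirMass J t g * θ ^ cyc g

end Pool.Agent.W805.LR
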