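import Pool.Agent.W805.LR.Stm

set_option autoImplicit false

namespace Pool.Agent.W805.LR

open Finset Equiv Filter Topology

section cnt

variable {V : Type} [Fintype V]

lemma cnt_nonneg (P : V → Prop) : 0 ≤ cnt P := by
  unfold cnt
  exact Finset.sum_nonneg fun v _ => by split_ifs <;> norm_num

lemma cnt_mono {P Q : V → Prop} (h : ∀ v, P v → Q v) : cnt P ≤ cnt Q := by
  unfold cnt
  refine Finset.sum_le_sum fun v _ => ?_
  by_cases hp : P v
  · simp [hp, h v hp]
  · rw [if_neg hp]; split_ifs <;> norm_num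

lemma cnt_le_add {P Q R : V → Prop} (h : ∀ v, P v → Q v ∨ R v) : cnt P ≤ cnt Q + cnt R := by
  unfold cnt
  rw [← Finset.sum_add_distrib]
  refine Finset.sum_le_sum fun v _ => ?_
  by_cases hp : P v
  · rcases h v hp with hq | hr
    · simp only [hp, hq, if_true]; split_ifs <;> norm_num
    · simp only [hp, hr, if_true]; split_ifs <;> norm_num
  · rw [if_neg hp]; split_ifs <;> norm_num

lemma cnt_true : cnt (fun _ : V => True) = Fintype.card V := by
  unfold cnt; simp

lemma cnt_le_card (P : V → Prop) : cnt P ≤ Fintype.card V := by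
  rw [← cnt_true]; exact cnt_mono fun _ _ => trivial

lemma cnt_congr {P Q : V → Prop} (h : ∀ v, P v ↔ Q v) : cnt P = cnt Q := by
  congr 1; funext v; exact propext (h v)

/-- A point satisfying `P` makes the count at least one. -/
lemma one_le_cnt {P : V → Prop} (v : V) (h : P v) : 1 ≤ cnt P := by
  classical
  unfold cnt
  calc (1 : ℝ) = if P v then (1 : ℝ) else 0 := by simp [h]
    _ ≤ ∑ v, if P v then (1 : ℝ) else 0 :=
        Finset.single_le_sum (f := fun v => if P v then (1 : ℝ) else 0)
          (fun v _ => by split_ifs <;> norm_num) (Finset.mem_univ v)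

lemma cnt_eq (P : V → Prop) [DecidablePred P] : cnt P = ∑ v, if P v then (1 : ℝ) else 0 := by
  unfold cnt
  refine Finset.sum_congr rfl fun v _ => ?_
  congr

/-- In blocks where the points with `Q` are rare there are few such points. -/
lemma nonrich_le {ι : Type} (blk : V → ι) (Q : V → Prop) (δ : ℝ) (hδ : 0 ≤ δ) :
    (cnt fun v => Q v ∧ (cnt fun u => blk u = blk v ∧ Q u) < 2 * δ * cnt fun u => blk u = blk v) ≤
      2 * δ * Fintype.card V := by
  classical
  obtain ⟨b, hb⟩ : ∃ b : V → ℝ, b = fun v => cnt fun u => blk u = blk v := ⟨_, rfl⟩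
  obtain ⟨m, hm⟩ : ∃ m : V → ℝ, m = fun v => cnt fun u => blk u = blk v ∧ Q u := ⟨_, rfl⟩
  have hbv : ∀ v, (cnt fun u => blk u = blk v) = b v := fun v => by rw [hb]
  have hmv : ∀ v, (cnt fun u => blk u = blk v ∧ Q u) = m v := fun v => by rw [hm]
  have hbpos : ∀ v, 0 < b v := fun v => by
    rw [← hbv]; exact lt_of_lt_of_le one_pos (one_le_cnt v rfl)
  have hbeq : ∀ u v, blk u = blk v → b u = b v := by
    intro u v h; rw [← hbv, ← hbv, h]
  have hmeq : ∀ u v, blk u = blk v → m u = m v := by
    intro u v h; rw [← hmv, ← hmv, h]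
  simp only [hbv, hmv]
  have h1 : (cnt fun v => Q v ∧ m v < 2 * δ * b v) =
      ∑ v, ∑ u, (if blk u = blk v then (if Q v ∧ m v < 2 * δ * b v then (1 / b v) else 0) else 0) := by
    rw [cnt_eq]
    apply Finset.sum_congr rfl
    intro v _
    have hcount : ∑ u, (if blk u = blk v then
        (if Q v ∧ m v < 2 * δ * b v then (1 / b v) else 0) else 0) =
        (if Q v ∧ m v < 2 * δ * b v then (1 / b v) else 0) * b v := by
      have hbs : b v = ∑ u, if blk u = blk v then (1 : ℝ) else 0 := by rw [← hbv v, cnt_eq]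
      obtain ⟨q, hq⟩ : ∃ q : ℝ, q = if Q v ∧ m v < 2 * δ * b v then 1 / b v else 0 := ⟨_, rfl⟩
      rw [← hq, hbs, Finset.mul_sum]
      apply Finset.sum_congr rfl
      intro u _
      split_ifs <;> simp
    rw [hcount]
    split_ifs with hq
    · have := (hbpos v).ne'
      field_simp
    · simp
  rw [h1, Finset.sum_comm]
  calc ∑ u, ∑ v, (if blk u = blk v then
        (if Q v ∧ m v < 2 * δ * b v then (1 / b v) else 0) else 0)
      ≤ ∑ u : V, 2 * δ := by
        refine Finset.sum_le_sum fun u _ => ?_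
        have h2 : ∑ v, (if blk u = blk v then
            (if Q v ∧ m v < 2 * δ * b v then (1 / b v) else 0) else 0) =
            (if m u < 2 * δ * b u then 1 / b u else 0) * m u := by
          have hmu : m u = ∑ v, if blk v = blk u ∧ Q v then (1 : ℝ) else 0 := by
            rw [← hmv u, cnt_eq]
          obtain ⟨q, hq⟩ : ∃ q : ℝ, q = if m u < 2 * δ * b u then 1 / b u else 0 := ⟨_, rfl⟩
          rw [← hq, hmu, Finset.mul_sum, hq]
          refine Finset.sum_congr rfl fun v _ => ?_
          by_cases hv : blk u = blk v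
          · have e1 : b v = b u := (hbeq u v hv).symm
            have e2 : m v = m u := (hmeq u v hv).symm
            rw [e1, e2, if_pos hv]
            by_cases hq : Q v
            · have h3 : (blk v = blk u ∧ Q v) := ⟨hv.symm, hq⟩
              rw [if_pos h3, mul_one]
              simp only [hq, true_and]
            · have h3 : ¬ (blk v = blk u ∧ Q v) := fun h => hq h.2
              rw [if_neg h3, mul_zero, if_neg (fun h => hq h.1)]
          · have hv' : ¬ (blk v = blk u ∧ Q v) := fun h => hv h.1.symm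
            rw [if_neg hv, if_neg hv', mul_zero]
        rw [h2]
        by_cases hc : m u < 2 * δ * b u
        · rw [if_pos hc, one_div, inv_mul_le_iff₀ (hbpos u)]
          nlinarith [hc]
        · rw [if_neg hc, zero_mul]; positivity
    _ = 2 * δ * Fintype.card V := by
        rw [Finset.sum_const, Finset.card_univ, nsmul_eq_mul]; ring

end cnt

section ev

variable {V K : Type} [Fintype V] [DecidableEq V] [Fintype K] [DecidableEq K]

lemma ev_mono {W : (K → Option (V × V)) → ℝ} (hW : ∀ ω, 0 ≤ W ω) {F G : (K → Option (V × V)) → ℝ}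
    (h : ∀ ω, F ω ≤ G ω) : ev W F ≤ ev W G :=
  Finset.sum_le_sum fun ω _ => mul_le_mul_of_nonneg_left (h ω) (hW ω)

lemma ev_add (W : (K → Option (V × V)) → ℝ) (F G : (K → Option (V × V)) → ℝ) :
    ev W (fun ω => F ω + G ω) = ev W F + ev W G := by
  unfold ev; rw [← Finset.sum_add_distrib]
  exact Finset.sum_congr rfl fun ω _ => by ring

lemma ev_const (W : (K → Option (V × V)) → ℝ) (C : ℝ) :
    ev W (fun _ => C) = C * ev W (fun _ => 1) := by
  unfold ev; rw [Finset.mul_sum]
  exact Finset.sum_congr rfl fun ω _ => by ring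

lemma ev_nonneg {W : (K → Option (V × V)) → ℝ} (hW : ∀ ω, 0 ≤ W ω) {F : (K → Option (V × V)) → ℝ}
    (h : ∀ ω, 0 ≤ F ω) : 0 ≤ ev W F :=
  Finset.sum_nonneg fun ω _ => mul_nonneg (hW ω) (h ω)

end ev

lemma one_le_len {V : Type} [Fintype V] [DecidableEq V] (g : Perm V) (v : V) : 1 ≤ len g v :=
  one_le_cnt v (Perm.SameCycle.refl g v)

lemma prodS_congr {V K : Type} [Fintype V] [DecidableEq V] (l : List K) {S S' : K → Prop}
    (h : ∀ a, S a ↔ S' a) (ω : K → Option (V × V)) : prodS l S ω = prodS l S' ω := by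
  have : S = S' := funext fun a => propext (h a)
  rw [this]

end Pool.Agent.W805.LR
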