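import Pool.Agent.W805.LR.Stm6

/-!
# Random stirring with long-range rates: local limit and continuity. Statements of the parts
-/

set_option autoImplicit false

namespace Pool.Agent.W805.PD

open Finset Equiv Filter Topology
open Pool.Agent.W805.LR

/-- Summable symmetric jump kernels on `ℤ^d`. -/
structure IsKer (d : ℕ) (φ : (Fin d → ℤ) → ℝ) : Prop where
  nonneg : ∀ z, 0 ≤ φ z
  even : ∀ z, φ (-z) = φ z
  zero : φ 0 = 0
  summable : Summable φ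

/-- The kernel wrapped around the torus. -/
noncomputable def wrap {d L : ℕ} (φ : (Fin d → ℤ) → ℝ) (x y : Fin d → ZMod L) : ℝ :=
  open Classical in if x = y then 0 else
    ∑' z : Fin d → ℤ, if ∀ a, x a + ((z a : ℤ) : ZMod L) = y a then φ z else 0

/-- The kernel on the box `{0, ..., M - 1}^d` with free boundary conditions. -/
def freeJ {d M : ℕ} (φ : (Fin d → ℤ) → ℝ) (u v : Fin d → Fin M) : ℝ :=
  φ fun a => ((v a : ℕ) : ℤ) - ((u a : ℕ) : ℤ)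

/-- The torus cut into boxes of side `M`, without the pairs between different boxes and without the
points left over. -/
noncomputable def cutJ {d L : ℕ} (M : ℕ) (φ : (Fin d → ℤ) → ℝ) (x y : Fin d → ZMod L) : ℝ :=
  open Classical in if ∀ a, (x a).val / M = (y a).val / M ∧ (x a).val / M < L / M then
    φ (fun a => ((y a).val : ℤ) - ((x a).val : ℤ)) else 0

/-- Expectation for stirring with rates `J` at time `t`. -/
noncomputable def EE {V : Type} [Fintype V] [DecidableEq V] (J : V → V → ℝ) (t : ℝ)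
    (F : Perm V → ℝ) : ℝ :=
  (∑ g, stirMass J t g * F g) / ∑ g, stirMass J t g

/-- CM: comparison of rates. -/
def S_cmp : Prop := ∀ (V : Type) [Fintype V] [DecidableEq V] (J w : V → V → ℝ) (t D : ℝ)
  (F : Perm V → ℝ), (∀ x y, 0 ≤ J x y) → (∀ x y, 0 ≤ w x y) → 0 ≤ t →
  (∀ (a b : Perm V) (x y : V), |F (a * swap x y * b) - F (a * b)| ≤ D) →
  |EE (fun x y => J x y + w x y) t F - EE J t F| ≤ t * (∑ x, ∑ y, w x y / 2) * D

/-- SU: the cycle of a point of an isolated part of the space. -/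
def S_sub : Prop := ∀ (U V : Type) [Fintype U] [DecidableEq U] [Fintype V] [DecidableEq V]
  (ι : U ↪ V) (J : V → V → ℝ) (t s : ℝ) (u : U), (∀ x y, 0 ≤ J x y) →
  (∀ u v, v ∉ Set.range ι → J (ι u) v = 0 ∧ J v (ι u) = 0) →
  EE J t (fun g => if len g (ι u) < s then 1 else 0) =
    EE (fun a b => J (ι a) (ι b)) t (fun h => if len h u < s then 1 else 0)

/-- WR: basic facts about wrapped kernels. -/
def S_wrap : Prop := ∀ (d L : ℕ) [NeZero L] (σ lam : ℝ) (φ : (Fin d → ℤ) → ℝ), IsKer d φ →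
  (∀ x y : Fin d → ZMod L, wrap φ x y = wrap φ y x) ∧
  (∀ x y : Fin d → ZMod L, 0 ≤ wrap φ x y) ∧
  (∀ x : Fin d → ZMod L, ∑ y, wrap φ x y ≤ ∑' z, φ z) ∧
  (∀ x y : Fin d → ZMod L, x ≠ y → φ (fun a => ((y a).val : ℤ) - ((x a).val : ℤ)) ≤ wrap φ x y) ∧
  ((∀ z : Fin d → ℤ, z ≠ 0 →
      lam * ((univ.sup fun a => (z a).natAbs : ℕ) : ℝ) ^ (-((d : ℝ) + σ)) ≤ φ z) →
    IsRate2 d L σ lam (wrap φ))

/-- BX: almost all of the rate in a large box. -/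
def S_box : Prop := ∀ (d : ℕ) (φ : (Fin d → ℤ) → ℝ) (ε : ℝ), IsKer d φ → 0 < ε →
  ∃ M0 : ℕ, 1 ≤ M0 ∧ ∀ M ≥ M0, ((∑' z, φ z) - ε) * (M : ℝ) ^ d ≤
    ∑ u : Fin d → Fin M, ∑ v : Fin d → Fin M, freeJ φ u v

/-- CU: the cut torus consists of independent boxes. -/
def S_cut : Prop := ∀ (d L M : ℕ) [NeZero L] (φ : (Fin d → ℤ) → ℝ) (s t : ℝ), IsKer d φ →
  1 ≤ M →
  (∑ x : Fin d → ZMod L, ∑ y : Fin d → ZMod L, cutJ M φ x y) =
    ((L / M : ℕ) : ℝ) ^ d * ∑ u : Fin d → Fin M, ∑ v : Fin d → Fin M, freeJ φ u v ∧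
  |EE (fun x y : Fin d → ZMod L => cutJ M φ x y) t (fun g => cnt fun v => len g v < s) -
    ((L / M : ℕ) : ℝ) ^ d *
      EE (fun u v : Fin d → Fin M => freeJ φ u v) t (fun h => cnt fun u => len h u < s)| ≤
    (L : ℝ) ^ d - ((M * (L / M) : ℕ) : ℝ) ^ d

/-- LO: the fraction of points in short cycles converges. -/
def S_loc : Prop := ∀ (d : ℕ) (φ : (Fin d → ℤ) → ℝ) (s t : ℝ), 1 ≤ d → IsKer d φ → 0 ≤ s →
  0 ≤ t → ∃ x : ℝ, Tendsto (fun N : ℕ =>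
    EE (fun x y : Fin d → ZMod (N + 1) => wrap φ x y) t (fun g => cnt fun v => len g v < s) /
      ((N : ℝ) + 1) ^ d) atTop (𝓝 x)

/-- PP: the Poisson-Dirichlet coordinates are positive. -/
def S_pdpos : Prop := ∀ (i : ℕ) (M : ℝ), 0 < M → ∃ ε0 : ℝ, 0 < ε0 ∧ ∀ ε : ℝ, 0 < ε → ε < ε0 →
  0 < pdInt (i + 1) (fun x => min 1 (max 0 (x (Fin.last i) / ε - 1))) M

/-- P3: Poisson-Dirichlet with the mass of the cycles of length at least `ℓ`; this mass is close to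
the mass of the `K` longest cycles. -/
def S_pd3 : Prop := ∀ (d : ℕ) (σ lam t0 Lam : ℝ) (δ : ℝ), 1 ≤ d →
  0 < σ → σ < d → 0 < lam → 0 < t0 → 0 < δ →
  (∀ (k : ℕ) (f : (Fin k → ℝ) → ℝ), Continuous f → ∃ ℓ0 : ℕ, ∀ ℓ : ℕ, ℓ0 ≤ ℓ → ∃ L0 : ℕ,
    ∀ t ≥ t0, ∀ (L : ℕ) [NeZero L], L0 ≤ L →
    ∀ J : (Fin d → ZMod L) → (Fin d → ZMod L) → ℝ, IsRate2 d L σ lam J →
    t * (∑ x, ∑ y, J x y) ≤ Lam * (L : ℝ) ^ d →
    |EE J t (fun g => f (fun i : Fin k => pOrd g i)) -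
      pdInt k f (1 - EE J t (fun g => cnt fun v => len g v < ℓ) / (L : ℝ) ^ d)| ≤ δ) ∧
  (∃ ℓ0 K0 : ℕ, ∀ ℓ K : ℕ, ℓ0 ≤ ℓ → K0 ≤ K → ∃ L0 : ℕ, ∀ t ≥ t0, ∀ (L : ℕ) [NeZero L], L0 ≤ L →
    ∀ J : (Fin d → ZMod L) → (Fin d → ZMod L) → ℝ, IsRate2 d L σ lam J →
    |EE J t (fun g => ∑ i ∈ range K, pOrd g i) -
      (1 - EE J t (fun g => cnt fun v => len g v < ℓ) / (L : ℝ) ^ d)| ≤ δ)

/-- FU: the full picture for wrapped kernels. -/
def S_fullQ : Prop := ∀ (d : ℕ) (σ lam : ℝ) (φ : (Fin d → ℤ) → ℝ), 1 ≤ d → 0 < σ → σ < d →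
  0 < lam → IsKer d φ → (∀ z : Fin d → ℤ, z ≠ 0 →
      lam * ((univ.sup fun a => (z a).natAbs : ℕ) : ℝ) ^ (-((d : ℝ) + σ)) ≤ φ z) →
  ∃ m : ℝ → ℝ, ContinuousOn m (Set.Ici 0) ∧ (∀ t, 0 ≤ t → 0 ≤ m t ∧ m t ≤ 1) ∧
    (∀ t, 0 ≤ t → t * (∑' z, φ z) < 1 → m t = 0) ∧ Tendsto m atTop (𝓝 1) ∧
    ∀ t, 0 < t →
      (∀ (k : ℕ) (f : (Fin k → ℝ) → ℝ), Continuous f →
        Tendsto (fun N : ℕ => EE (fun x y : Fin d → ZMod (N + 1) => wrap φ x y) t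
          (fun g => f (fun i : Fin k => pOrd g i))) atTop (𝓝 (pdInt k f (m t)))) ∧
      (∃ Lk : ℕ → ℝ, (∀ k, Tendsto (fun N : ℕ => ∑ i ∈ range k,
          EE (fun x y : Fin d → ZMod (N + 1) => wrap φ x y) t (fun g => pOrd g i)) atTop
            (𝓝 (Lk k))) ∧ Tendsto Lk atTop (𝓝 (m t)))

end Pool.Agent.W805.PD
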