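import Pool.Agent.W805.LR.Stm4

/-!
# Poisson-Dirichlet cycle lengths for random stirring: statements of smaller parts
-/

set_option autoImplicit false

namespace Pool.Agent.W805.PD

open Finset Equiv Filter Topology
open Pool.Agent.W805.LR

/-! ## Parts of the statement `S_fix` -/

section parts

variable {V : Type} [Fintype V] [DecidableEq V] {m K : ℕ}

/-- Indices of the sampled points: `m` test points and `K` pairs. -/
abbrev Ix (m K : ℕ) : Type := Fin m ⊕ (Fin K × Bool)

/-- The test points. -/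
def Sy (y : Ix m K ↪ V) : Finset V := univ.image fun i : Fin m => y (Sum.inl i)

/-- The points in the pairs. -/
def Ey (y : Ix m K ↪ V) : Finset V := univ.image fun i : Fin K × Bool => y (Sum.inr i)

/-- The trace on all sampled points. -/
noncomputable def ry (h : Perm V) (y : Ix m K ↪ V) : Perm V := tr h (Sy y ∪ Ey y)

/-- Lonely points in the pairs. -/
noncomputable def Dy (h : Perm V) (y : Ix m K ↪ V) : Finset V := (Ey y).filter fun x => ry h y x = x

/-- Test points that are not lonely. -/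
noncomputable def S1y (h : Perm V) (y : Ix m K ↪ V) : Finset V :=
  (Sy y).filter fun x => ry h y x ≠ x

/-- The points of the pairs that are not lonely and matched with a point that is not lonely. -/
noncomputable def E1y (h : Perm V) (y : Ix m K ↪ V) (α : Perm V) : Finset V :=
  (Ey y \ Dy h y).filter fun x => α x ∉ Dy h y

/-- The trace on these points. -/
noncomputable def r1y (h : Perm V) (y : Ix m K ↪ V) (α : Perm V) : Perm V :=
  tr h (E1y h y α ∪ S1y h y)

/-- The number of cycles of `h` with at least two sampled points. -/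
noncomputable def Zy (h : Perm V) (y : Ix m K ↪ V) : ℕ := Multiset.card (ry h y).cycleType

/-- All lonely sampled points. -/
noncomputable def Ly (h : Perm V) (y : Ix m K ↪ V) : Finset V :=
  (Sy y ∪ Ey y).filter fun x => ry h y x = x

/-- Indices of the test points that are not lonely. -/
noncomputable def Ay (h : Perm V) (y : Ix m K ↪ V) : Finset (Fin m) :=
  univ.filter fun i => ry h y (y (Sum.inl i)) ≠ y (Sum.inl i)

/-- The error bound. -/
noncomputable def bnd (C : ℝ) (h : Perm V) (y : Ix m K ↪ V) (α : Perm V) : ℝ :=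
  if S1y h y = ∅ then 0 else if ∃ x ∈ S1y h y, r1y h y α x ∈ S1y h y then 2 else
    min 2 (C / Real.sqrt (E1y h y α).card +
      C * (1 + Wc (r1y h y α) (E1y h y α) (S1y h y)) / (E1y h y α).card)

end parts

/-- FA: independent uniform points may be replaced by different points; pairs give matchings. -/
def S_FA : Prop := ∀ (V : Type) [Fintype V] [DecidableEq V] [Nonempty V] (m K : ℕ) (h : Perm V)
  (G : (Fin m → Fin m → Prop) → ℝ), (∀ r, |G r| ≤ 1) → m + 2 * K ≤ Fintype.card V →
  |uavg (fun x : Fin K → V × V => uavg fun v : Fin m → V => G (rel (prodSw x * h) v)) -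
    uavg (fun y : Ix m K ↪ V => avgM (Ey y) fun α => G (rel (α * h) fun i => y (Sum.inl i)))| ≤
    2 * (m + 2 * K) ^ 2 / Fintype.card V ∧
  |uavg (fun v : Fin m → V => pavg (big h K v) G) -
    uavg (fun y : Ix m K ↪ V => pavg (big h K fun i => y (Sum.inl i)) G)| ≤
    2 * (m + 2 * K) ^ 2 / Fintype.card V

/-- FB: the core estimate for given sampled points. -/
def S_FB : Prop := ∀ m : ℕ, ∃ C : ℝ, 0 < C ∧ ∀ (V : Type) [Fintype V] [DecidableEq V] (K : ℕ)
  (h : Perm V) (G : (Fin m → Fin m → Prop) → ℝ) (y : Ix m K ↪ V), (∀ r, |G r| ≤ 1) →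
  |avgM (Ey y) (fun α => G (rel (α * h) fun i => y (Sum.inl i))) - pavg (Ay h y) G| ≤
    avgM (Ey y) fun α => bnd C h y α

/-- FC: the number of cycles with at least two sampled points, and the lonely test points. -/
def S_FC : Prop := ∀ m : ℕ, ∃ C : ℝ, 0 < C ∧ ∀ K : ℕ, m ≤ K → 1 ≤ K → ∃ n0 : ℕ,
  ∀ (V : Type) [Fintype V] [DecidableEq V] (h : Perm V), n0 ≤ Fintype.card V →
    uavg (fun y : Ix m K ↪ V => (Zy h y : ℝ)) ≤ C * K * zeta h K ∧
    uavg (fun y : Ix m K ↪ V => if Ay h y = big h K (fun i => y (Sum.inl i)) then (0 : ℝ) else 1) ≤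
      C * zeta h K

/-- FD: if almost all sampled points are lonely, then the test points are lonely. -/
def S_FD : Prop := ∀ (V : Type) [Fintype V] [DecidableEq V] (m K : ℕ) (h : Perm V) (η : ℝ),
  1 ≤ m → 1 ≤ K → 0 < η → η ≤ 1 → m + 2 * K ≤ Fintype.card V →
  uavg (fun y : Ix m K ↪ V =>
    if (1 - η) * (2 * K) < (Ly h y).card ∧ S1y h y ≠ ∅ then (1 : ℝ) else 0) ≤
    m * (η + m / (2 * K))

/-- FE: two test points are rarely neighbours. -/
def S_FE : Prop := ∀ (V : Type) [Fintype V] [DecidableEq V] (m K r : ℕ) (h : Perm V) (η : ℝ),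
  1 ≤ m → 1 ≤ K → 1 ≤ r → 0 < η → η ≤ 1 → (1 + 2 * r) / η ≤ K → m + 2 * K ≤ Fintype.card V →
  uavg (fun y : Ix m K ↪ V => avgM (Ey y) fun α =>
    if ((Dy h y).card : ℝ) ≤ (1 - η) * (2 * K) ∧ ∃ x ∈ S1y h y, r1y h y α x ∈ S1y h y
      then (1 : ℝ) else 0) ≤
    m * (m * r / (2 * K) + r * uavg (fun y : Ix m K ↪ V => (Zy h y : ℝ)) / (2 * K) +
      (1 - η / 2) ^ r)

/-- FF: short cycles of the trace. -/
def S_FF : Prop := ∀ (V : Type) [Fintype V] [DecidableEq V] (m K : ℕ) (h : Perm V)
  (y : Ix m K ↪ V), ∀ α ∈ matchings (Ey y),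
  Wc (r1y h y α) (E1y h y α) (S1y h y) ≤ 2 * Zy h y

/-! ## Parts of the statement `S_unif` -/

/-- The `i`-th largest element of `s`, divided by `m`. -/
noncomputable def ordMS (m : ℕ) (s : Multiset ℕ) (i : ℕ) : ℝ :=
  sSup {x : ℝ | 0 ≤ x ∧ (x = 0 ∨ i + 1 ≤ Multiset.card (s.filter fun c : ℕ => x ≤ (c : ℝ) / m))}

/-- Discrete uniform stick breaking. -/
noncomputable def stick : ℕ → (Multiset ℕ → ℝ) → ℝ
  | 0, Φ => Φ 0
  | a + 1, Φ => (∑ l : Fin (a + 1), stick (a - l.val) fun s => Φ ((l.val + 1) ::ₘ s)) / (a + 1)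
  termination_by a => a
  decreasing_by omega

/-- UA: cycle lengths of uniform permutations by stick breaking. -/
def S_UA : Prop := ∀ (a : ℕ) (Φ : Multiset ℕ → ℝ),
  uavg (fun σ : Perm (Fin a) => Φ σ.partition.parts) = stick a Φ

/-- UB: discrete stick breaking is close to continuous stick breaking. -/
def S_UB : Prop := ∀ (k : ℕ) (f : (Fin k → ℝ) → ℝ) (δ : ℝ), Continuous f → 0 < δ →
  ∃ m0 : ℕ, ∀ m ≥ m0, ∀ a ≤ m,
    |stick a (fun s => f fun i : Fin k => ordMS m s i) - pdInt k f (a / m)| ≤ δ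

/-- UC: permutations of `A`, in terms of permutations of `Fin A.card`. -/
def S_UC : Prop := ∀ (k : ℕ) (f : (Fin k → ℝ) → ℝ) (δ : ℝ), Continuous f → 0 < δ →
  ∃ m0 : ℕ, ∀ m ≥ m0, ∀ A : Finset (Fin m),
    |pavg A (fun r => f fun i : Fin k => rOrd r i) -
      uavg (fun σ : Perm (Fin A.card) => f fun i : Fin k => ordMS m σ.partition.parts i)| ≤ δ

end Pool.Agent.W805.PD
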