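import Pool.Agent.W805.LR.Stm

/-!
# Random stirring with long-range rates, second version: statements of the parts

Now the permutations need not preserve the blocks, the remaining rates are arbitrary, and the
exponent `σ` ranges over `(0, d)`.
-/

set_option autoImplicit false

namespace Pool.Agent.W805.LR

open Finset Equiv Filter Topology

/-- ST2: the stage lemma without block invariance: a mean-field stage of rate `κ` on blocks of size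
at least `b` moves (almost) all points in cycles of length at least `s` to cycles of length at
least `s'`. -/
def S_stage2 : Prop := ∀ (V K ι : Type) [Fintype V] [DecidableEq V] [Fintype K] [DecidableEq K]
  [DecidableEq ι]
  (Θ : ℝ) (W : (K → Option (V × V)) → ℝ) (w : V → V → ℝ) (blk : V → ι) (M : ℕ) (a : Fin M → K)
  (g : ℕ → (K → Option (V × V)) → Perm V) (c : Fin M → (K → Option (V × V)) → Perm V),
  IsStage Θ W w (fun _ : V => ()) M a g c → 1 ≤ Θ →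
  ∀ (s s' δ κ b : ℝ),
    0 < s → s ≤ s' → s' ≤ 2 * s → 0 < δ → 0 ≤ κ →
    (∀ x y, w x y = if x ≠ y ∧ blk x = blk y then κ else 0) →
    (∀ v, b ≤ cnt fun u => blk u = blk v) → s' ≤ δ * b / 2 →
    (Θ * ∑ x, ∑ y, w x y) ≤ 1 →
    ev W (fun ω => cnt fun v => s ≤ len (g 0 ω) v ∧ len (g M ω) v < s') ≤
      Fintype.card V * (2 * δ + Real.exp (-(M * κ * s * δ * b / (8 * Θ))) +
        8 * Θ * M * κ * s' ^ 2) * ev W (fun _ => 1)

/-- SB2: the base lemma: after a mean-field stage with `M κ b` large few points lie in cycles of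
length less than `s`. -/
def S_base2 : Prop := ∀ (V K ι : Type) [Fintype V] [DecidableEq V] [Fintype K] [DecidableEq K]
  [DecidableEq ι]
  (Θ : ℝ) (W : (K → Option (V × V)) → ℝ) (w : V → V → ℝ) (blk : V → ι) (M : ℕ) (a : Fin M → K)
  (g : ℕ → (K → Option (V × V)) → Perm V) (c : Fin M → (K → Option (V × V)) → Perm V),
  IsStage Θ W w (fun _ : V => ()) M a g c → 1 ≤ Θ → 0 < M →
  ∀ (s κ b : ℝ), 0 < s → 0 < κ → 0 < b → 2 * s ≤ b →
    (∀ x y, w x y = if x ≠ y ∧ blk x = blk y then κ else 0) →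
    (∀ v, b ≤ cnt fun u => blk u = blk v) →
    (Θ * ∑ x, ∑ y, w x y) ≤ 1 →
    ev W (fun ω => cnt fun v => len (g M ω) v < s) ≤
      Fintype.card V * (4 * Θ / (M * κ * b) + 20 * Θ ^ 2 * s / b + 4 * Θ * M * κ * s ^ 2) *
        ev W (fun _ => 1)

/-- Error of one growth stage, number `k`; there are `d` stages for every level, the block side of
stage `k` is `l * 2 ^ (k / d + 1)` (natural division) and its rate is a `d`-th of the rate of the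
level. -/
noncomputable def lvlErr2 (d : ℕ) (σ lam Θ t l : ℝ) (δ s : ℕ → ℝ) (k : ℕ) : ℝ :=
  2 * δ k + Real.exp (-(t * (lam / 4 * (l * 2 ^ (k / d + 1)) ^ (-((d : ℝ) + σ)) / d) * s k * δ k *
      (l * 2 ^ (k / d + 1) / 2) ^ d / (16 * Θ))) +
    4 * Θ * (t * (lam / 4 * (l * 2 ^ (k / d + 1)) ^ (-((d : ℝ) + σ)) / d)) * s (k + 1) ^ 2

/-- Error of the base stage. -/
noncomputable def baseErr2 (d : ℕ) (σ lam Θ t l s0 : ℝ) : ℝ :=
  8 * Θ / (t * (lam / 4 * l ^ (-((d : ℝ) + σ))) * (l / 2) ^ d) + 20 * Θ ^ 2 * s0 / (l / 2) ^ d +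
    2 * Θ * (t * (lam / 4 * l ^ (-((d : ℝ) + σ)))) * s0 ^ 2

/-- EL2: parameters of the levels. -/
def S_levels2 : Prop := ∀ (d : ℕ) (σ lam Θ η : ℝ), 1 ≤ d → 0 < σ → σ < d → 0 < lam →
  1 ≤ Θ → 0 < η →
  ∃ (a Γ s0 lmin : ℝ) (δ : ℕ → ℝ), σ < a ∧ a ≤ d ∧ 0 < Γ ∧ 1 ≤ s0 ∧ 2 ≤ lmin ∧
    (∀ k, 0 < δ k) ∧
    ∀ t l : ℝ, 0 < t → lmin ≤ l → Γ ≤ t * (lam / 4) * l ^ (-σ) / 2 ^ d →
      t * (lam / 4) * l ^ (-σ) / 2 ^ d ≤ 2 ^ d * Γ →
      2 * s0 ≤ (l / 2) ^ d ∧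
      (∀ k : ℕ, s0 * 2 ^ (((k : ℝ) + 1) * (a / d)) ≤ δ k * (l * 2 ^ (k / d + 1) / 2) ^ d / 2) ∧
      baseErr2 d σ lam Θ t l s0 ≤ η ∧
      ∀ n : ℕ, ∑ k ∈ range n,
        lvlErr2 d σ lam Θ t l δ (fun k => s0 * 2 ^ ((k : ℝ) * (a / d))) k ≤ η

/-- Error of one window: threshold `S`. -/
noncomputable def winErr2 (n Θ t δ κ S : ℝ) : ℝ :=
  2 * δ + Real.exp (-(t * κ * (S / 2) * δ * n / (16 * Θ))) + 4 * Θ * (t * κ) * S ^ 2

/-- EW2: parameters of the windows. -/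
def S_windows2 : Prop := ∀ (d : ℕ) (σ lam Θ η a : ℝ), 1 ≤ d → 0 < σ → σ < a → a ≤ d → 0 < lam →
  1 ≤ Θ → 0 < η →
  ∃ ε : ℝ, 0 < ε ∧ ε ≤ 1 ∧ ∀ s0 l0 t : ℝ, 1 ≤ s0 → 1 ≤ l0 → 0 < t →
    ∃ L0 : ℕ, ∀ (L : ℕ), L0 ≤ L → ∀ (l : ℝ) (I : ℕ), 1 ≤ l → l ≤ l0 → l * 2 ^ I = L →
      ∃ (Wn : ℕ) (κ δ : ℕ → ℝ),
        ε * (L : ℝ) ^ d / 2 ^ Wn ≤ s0 * 2 ^ ((I : ℝ) * a) ∧
        ∑ m ∈ range Wn, κ m ≤ lam / 2 * (L : ℝ) ^ (-((d : ℝ) + σ)) ∧
        (∀ m, 0 ≤ κ m ∧ 0 < δ m ∧ ε * (L : ℝ) ^ d / 2 ^ m ≤ δ m * (L : ℝ) ^ d / 2) ∧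
        ∑ m ∈ range Wn, winErr2 ((L : ℝ) ^ d) Θ t (δ m) (κ m) (ε * (L : ℝ) ^ d / 2 ^ m) ≤ η

/-- Sup-distance in the box `{0, ..., L - 1}^d`; it is at least the distance `tdist` on the torus. -/
def bdist {d L : ℕ} (x y : Fin d → ZMod L) : ℕ :=
  univ.sup fun a => (((x a).val : ℤ) - (y a).val).natAbs

/-- Rates on the box that dominate `lam * bdist ^ (-(d + σ))`; nothing else is assumed. -/
def IsRate2 (d L : ℕ) (σ lam : ℝ) (J : (Fin d → ZMod L) → (Fin d → ZMod L) → ℝ) : Prop :=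
  (∀ x y, J x y = J y x) ∧ (∀ x, J x x = 0) ∧
    ∀ x y, x ≠ y → lam * (bdist x y : ℝ) ^ (-((d : ℝ) + σ)) ≤ J x y

/-- MAIN2: for large times all but a fraction `η` of the points lie in macroscopic cycles, also with
the weight `θ ^ (number of cycles)`; all `0 < σ < d`, all rates `J ≥ lam * bdist ^ (-(d + σ))`. -/
def S_main2 : Prop := ∀ (d : ℕ) (σ lam θ η : ℝ), 1 ≤ d → 0 < σ → σ < d → 0 < lam →
  0 < θ → 0 < η →
  ∃ t1 > 0, ∃ ε > 0, ∀ t ≥ t1, ∃ L0 : ℕ, ∀ (L : ℕ) [NeZero L], L0 ≤ L →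
    ∀ J : (Fin d → ZMod L) → (Fin d → ZMod L) → ℝ, IsRate2 d L σ lam J →
      ∑ g, stirMass J t g * θ ^ cyc g * (cnt fun v => len g v < ε * (L : ℝ) ^ d) ≤
        η * (L : ℝ) ^ d * ∑ g, stirMass J t g * θ ^ cyc g

end Pool.Agent.W805.LR
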