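import Pool.Agent.W805.LR.Basic

set_option autoImplicit false

namespace Pool.Agent.W805.LR

open Finset Equiv Filter Topology

section types

variable {d L : ℕ} [NeZero L]

/-- Mean-field part of all types. -/
noncomputable def MF (I Wn : ℕ) (κ0 : ℝ) (κl κw : ℕ → ℝ) (x y : Fin d → ZMod L) : ℝ :=
  (if tblk I x = tblk I y then 2 * κ0 else 0) +
    ∑ i ∈ range I, (if tblk i x = tblk i y then κl i else 0) + ∑ m ∈ range Wn, κw m

/-- The remaining rate. -/
noncomputable def RR (J : (Fin d → ZMod L) → (Fin d → ZMod L) → ℝ) (I Wn : ℕ) (κ0 : ℝ)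
    (κl κw : ℕ → ℝ) (x y : Fin d → ZMod L) : ℝ :=
  if x = y then 0 else J x y - MF I Wn κ0 κl κw x y

/-- A level type. -/
noncomputable def JL (J : (Fin d → ZMod L) → (Fin d → ZMod L) → ℝ) (I Wn : ℕ) (κ0 : ℝ)
    (κl κw : ℕ → ℝ) (i : ℕ) (x y : Fin d → ZMod L) : ℝ :=
  if x = y then 0 else
    (if tblk i x = tblk i y then κl i else 0) +
      (if tblk i x = tblk i y ∧ tblk (i + 1) x ≠ tblk (i + 1) y
        then RR J I Wn κ0 κl κw x y else 0)

/-- All types. -/
noncomputable def JT (J : (Fin d → ZMod L) → (Fin d → ZMod L) → ℝ) (I Wn : ℕ) (κ0 : ℝ)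
    (κl κw : ℕ → ℝ) (k : ℕ) (x y : Fin d → ZMod L) : ℝ :=
  if k = 0 then (if tblk I x = tblk I y then RR J I Wn κ0 κl κw x y else 0)
  else if k < 3 then (if x ≠ y ∧ tblk I x = tblk I y then κ0 else 0)
  else if k < 3 + I then JL J I Wn κ0 κl κw (I - 1 - (k - 3)) x y
  else (if x = y then 0 else κw (Wn - 1 - (k - 3 - I)))

variable (J : (Fin d → ZMod L) → (Fin d → ZMod L) → ℝ) (I Wn : ℕ) (κ0 : ℝ) (κl κw : ℕ → ℝ)

lemma JT_zero (x y : Fin d → ZMod L) :
    JT J I Wn κ0 κl κw 0 x y = if tblk I x = tblk I y then RR J I Wn κ0 κl κw x y else 0 := by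
  simp [JT]

lemma JT_one (x y : Fin d → ZMod L) :
    JT J I Wn κ0 κl κw 1 x y = if x ≠ y ∧ tblk I x = tblk I y then κ0 else 0 := by
  simp [JT]

lemma JT_two (x y : Fin d → ZMod L) :
    JT J I Wn κ0 κl κw 2 x y = if x ≠ y ∧ tblk I x = tblk I y then κ0 else 0 := by
  simp [JT]

lemma JT_level (k : ℕ) (hk : k < I) (x y : Fin d → ZMod L) :
    JT J I Wn κ0 κl κw (3 + k) x y = JL J I Wn κ0 κl κw (I - 1 - k) x y := by
  unfold JT
  rw [if_neg (by omega), if_neg (by omega), if_pos (by omega)]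
  congr 1
  omega

lemma JT_win (k : ℕ) (x y : Fin d → ZMod L) :
    JT J I Wn κ0 κl κw (3 + I + k) x y = if x = y then 0 else κw (Wn - 1 - k) := by
  unfold JT
  rw [if_neg (by omega), if_neg (by omega), if_neg (by omega)]
  congr 2
  omega

lemma nest_all (hnest : ∀ i < I, ∀ x y : Fin d → ZMod L,
      tblk (i + 1) x = tblk (i + 1) y → tblk i x = tblk i y)
    {i k : ℕ} (hik : i ≤ k) (hk : k ≤ I) {x y : Fin d → ZMod L} (h : tblk k x = tblk k y) :
    tblk i x = tblk i y := by
  induction k, hik using Nat.le_induction with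
  | base => exact h
  | succ k hik ih => exact ih (by omega) (hnest k (by omega) x y h)

/-- The types sum up to `J`. -/
lemma sum_JT (hJd : ∀ x, J x x = 0)
    (hnest : ∀ i < I, ∀ x y : Fin d → ZMod L,
      tblk (i + 1) x = tblk (i + 1) y → tblk i x = tblk i y)
    (h0 : ∀ x y : Fin d → ZMod L, tblk 0 x = tblk 0 y) (x y : Fin d → ZMod L) :
    ∑ j : Fin (3 + I + Wn), JT J I Wn κ0 κl κw j.val x y = J x y := by
  rw [Fin.sum_univ_eq_sum_range (fun k => JT J I Wn κ0 κl κw k x y) (3 + I + Wn),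
    Finset.sum_range_add, Finset.sum_range_add]
  by_cases hxy : x = y
  · subst hxy
    rw [hJd]
    have e1 : ∀ k, JT J I Wn κ0 κl κw k x x = 0 := by
      intro k
      unfold JT
      split_ifs <;> simp_all [RR, JL]
    simp [e1]
  · have e1 : ∑ k ∈ range 3, JT J I Wn κ0 κl κw k x y =
        if tblk I x = tblk I y then RR J I Wn κ0 κl κw x y + 2 * κ0 else 0 := by
      rw [Finset.sum_range_succ, Finset.sum_range_succ, Finset.sum_range_succ, Finset.sum_range_zero,
        JT_zero, JT_one, JT_two]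
      by_cases h : tblk I x = tblk I y
      · simp only [h, if_true, hxy, ne_eq, not_false_eq_true, and_self]; ring
      · simp [h]
    have e2 : ∑ k ∈ range I, JT J I Wn κ0 κl κw (3 + k) x y =
        ∑ i ∈ range I, JL J I Wn κ0 κl κw i x y := by
      rw [← Finset.sum_range_reflect (fun i => JL J I Wn κ0 κl κw i x y)]
      exact Finset.sum_congr rfl fun k hk => JT_level J I Wn κ0 κl κw k (Finset.mem_range.1 hk) x y
    have e3 : ∑ k ∈ range Wn, JT J I Wn κ0 κl κw (3 + I + k) x y = ∑ m ∈ range Wn, κw m := by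
      rw [← Finset.sum_range_reflect (fun m => κw m)]
      refine Finset.sum_congr rfl fun k _ => ?_
      rw [JT_win, if_neg hxy]
    have e4 : ∀ n ≤ I, ∑ i ∈ range n, (if tblk i x = tblk i y ∧ tblk (i + 1) x ≠ tblk (i + 1) y
        then RR J I Wn κ0 κl κw x y else 0) =
        RR J I Wn κ0 κl κw x y - if tblk n x = tblk n y then RR J I Wn κ0 κl κw x y else 0 := by
      intro n
      induction n with
      | zero => intro _; simp [h0 x y]
      | succ n ih =>
        intro hn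
        rw [Finset.sum_range_succ, ih (by omega)]
        by_cases h1 : tblk (n + 1) x = tblk (n + 1) y
        · have h2 := hnest n (by omega) x y h1
          simp [h1, h2]
        · by_cases h2 : tblk n x = tblk n y
          · simp [h1, h2]
          · simp [h1, h2]
    have e5 : ∑ i ∈ range I, JL J I Wn κ0 κl κw i x y =
        ∑ i ∈ range I, (if tblk i x = tblk i y then κl i else 0) +
        (RR J I Wn κ0 κl κw x y - if tblk I x = tblk I y then RR J I Wn κ0 κl κw x y else 0) := by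
      rw [← e4 I le_rfl, ← Finset.sum_add_distrib]
      refine Finset.sum_congr rfl fun i _ => ?_
      unfold JL
      rw [if_neg hxy]
    rw [e1, e2, e3, e5]
    have e6 : RR J I Wn κ0 κl κw x y = J x y - MF I Wn κ0 κl κw x y := by
      unfold RR; rw [if_neg hxy]
    have e7 : (if tblk I x = tblk I y then RR J I Wn κ0 κl κw x y + 2 * κ0 else 0) =
        (if tblk I x = tblk I y then RR J I Wn κ0 κl κw x y else 0) +
        (if tblk I x = tblk I y then 2 * κ0 else 0) := by split_ifs <;> ring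
    rw [e7]
    have e8 : MF I Wn κ0 κl κw x y = (if tblk I x = tblk I y then 2 * κ0 else 0) +
      ∑ i ∈ range I, (if tblk i x = tblk i y then κl i else 0) + ∑ m ∈ range Wn, κw m := rfl
    linarith [e6, e8]

lemma JT_diag (k : ℕ) (x : Fin d → ZMod L) : JT J I Wn κ0 κl κw k x x = 0 := by
  unfold JT
  split_ifs <;> simp_all [RR, JL]

lemma JT_nonneg (hR : ∀ x y, 0 ≤ RR J I Wn κ0 κl κw x y) (h0 : 0 ≤ κ0) (hl : ∀ i, 0 ≤ κl i)
    (hw : ∀ m, 0 ≤ κw m) (k : ℕ) (x y : Fin d → ZMod L) : 0 ≤ JT J I Wn κ0 κl κw k x y := by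
  unfold JT
  split_ifs with h1 h2 h3 h4 h5 h6
  · exact hR x y
  · exact le_rfl
  · exact h0
  · exact le_rfl
  · unfold JL
    split_ifs
    · exact le_rfl
    · exact add_nonneg (hl _) (hR _ _)
    · exact add_nonneg (hl _) le_rfl
    · exact add_nonneg le_rfl (hR _ _)
    · simp
  · exact le_rfl
  · exact hw _

/-- Support of the types. -/
lemma JT_supp (hnest : ∀ i < I, ∀ x y : Fin d → ZMod L,
      tblk (i + 1) x = tblk (i + 1) y → tblk i x = tblk i y)
    (k : ℕ) (hk : k < I) (k' : ℕ) (hk' : k' ≤ 3 + k) (x y : Fin d → ZMod L)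
    (h : JT J I Wn κ0 κl κw k' x y ≠ 0) : tblk (I - 1 - k) x = tblk (I - 1 - k) y := by
  by_contra hne
  have hI : ¬ tblk I x = tblk I y := fun h' => hne (nest_all I hnest (by omega) le_rfl h')
  apply h
  unfold JT
  split_ifs with h1 h2 h3 h4 h5
  · rfl
  · exact absurd h3.2 hI
  · rfl
  · have hi : ¬ tblk (I - 1 - (k' - 3)) x = tblk (I - 1 - (k' - 3)) y :=
      fun h' => hne (nest_all I hnest (by omega) (by omega) h')
    unfold JL
    simp [hi]
  · rfl
  · omega

lemma JT_supp0 (k' : ℕ) (hk' : k' ≤ 2) (x y : Fin d → ZMod L)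
    (h : JT J I Wn κ0 κl κw k' x y ≠ 0) : tblk I x = tblk I y := by
  by_contra hne
  apply h
  unfold JT
  by_cases h1 : k' = 0
  · rw [if_pos h1, if_neg hne]
  · rw [if_neg h1, if_pos (by omega : k' < 3), if_neg (fun h => hne h.2)]

end types

/-- A power that at least doubles. -/
lemma geom_pow {L : ℝ} (hL : 0 < L) {p : ℝ} (hp : 1 ≤ p) (n : ℕ) :
    ∑ i ∈ range (n + 1), (L / 2 ^ i) ^ (-p) ≤ 2 * (L / 2 ^ n) ^ (-p) := by
  induction n with
  | zero =>
    simp only [zero_add, Finset.sum_range_one, pow_zero, div_one]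
    have : 0 ≤ L ^ (-p) := by positivity
    linarith
  | succ n ih =>
    rw [Finset.sum_range_succ]
    have h1 : 2 * (L / 2 ^ n) ^ (-p) ≤ (L / 2 ^ (n + 1)) ^ (-p) := by
      have e : L / 2 ^ n = 2 * (L / 2 ^ (n + 1)) := by rw [pow_succ]; field_simp
      rw [e, Real.mul_rpow (by norm_num) (by positivity)]
      have h2 : (2 : ℝ) ^ (-p) ≤ 1 / 2 := by
        calc (2 : ℝ) ^ (-p) ≤ 2 ^ (-1 : ℝ) :=
              Real.rpow_le_rpow_of_exponent_le (by norm_num) (by linarith)
          _ = 1 / 2 := by rw [Real.rpow_neg_one]; norm_num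
      have h3 : 0 ≤ (L / 2 ^ (n + 1)) ^ (-p) := by positivity
      nlinarith
    linarith

/-- The mean-field part is dominated by the kernel. -/
lemma MF_le {d L : ℕ} [NeZero L] (I Wn : ℕ) (lam p : ℝ) (κw : ℕ → ℝ) (hlam : 0 < lam)
    (hp : 1 ≤ p)
    (hdist : ∀ i ≤ I, ∀ x y : Fin d → ZMod L, tblk i x = tblk i y →
      (tdist x y : ℝ) ≤ (L : ℝ) / 2 ^ i)
    (h0 : ∀ x y : Fin d → ZMod L, tblk 0 x = tblk 0 y)
    (hw : ∑ m ∈ range Wn, κw m ≤ lam / 2 * (L : ℝ) ^ (-p))
    (x y : Fin d → ZMod L) (hxy : 1 ≤ tdist x y) :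
    MF I Wn (lam / 8 * ((L : ℝ) / 2 ^ I) ^ (-p)) (fun i => lam / 4 * ((L : ℝ) / 2 ^ i) ^ (-p)) κw x y ≤
      lam * (tdist x y : ℝ) ^ (-p) := by
  have hL : (0 : ℝ) < L := by exact_mod_cast Nat.pos_of_ne_zero (NeZero.ne L)
  have hD : (0 : ℝ) < tdist x y := by exact_mod_cast hxy
  have key : ∀ n ≤ I, ∑ i ∈ range (n + 1),
      (if tblk i x = tblk i y then ((L : ℝ) / 2 ^ i) ^ (-p) else 0) ≤
        2 * (tdist x y : ℝ) ^ (-p) := by
    intro n
    induction n with
    | zero =>
      intro _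
      rw [zero_add, Finset.sum_range_one, if_pos (h0 x y), pow_zero, div_one]
      have h1 := hdist 0 (by omega) x y (h0 x y)
      rw [pow_zero, div_one] at h1
      have h2 := Real.rpow_le_rpow_of_nonpos hD h1 (by linarith : -p ≤ 0)
      have : 0 ≤ (tdist x y : ℝ) ^ (-p) := by positivity
      linarith
    | succ n ih =>
      intro hn
      by_cases h : tblk (n + 1) x = tblk (n + 1) y
      · have h1 := hdist (n + 1) hn x y h
        have h2 := Real.rpow_le_rpow_of_nonpos hD h1 (by linarith : -p ≤ 0)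
        calc ∑ i ∈ range (n + 1 + 1),
              (if tblk i x = tblk i y then ((L : ℝ) / 2 ^ i) ^ (-p) else 0)
            ≤ ∑ i ∈ range (n + 1 + 1), ((L : ℝ) / 2 ^ i) ^ (-p) := by
              refine Finset.sum_le_sum fun i _ => ?_
              split_ifs
              · exact le_rfl
              · positivity
          _ ≤ 2 * ((L : ℝ) / 2 ^ (n + 1)) ^ (-p) := geom_pow hL hp (n + 1)
          _ ≤ _ := by linarith
      · rw [Finset.sum_range_succ, if_neg h, add_zero]
        exact ih (by omega)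
  have k1 := key I le_rfl
  rw [Finset.sum_range_succ] at k1
  have k2 : (L : ℝ) ^ (-p) ≤ (tdist x y : ℝ) ^ (-p) := by
    have h1 := hdist 0 (by omega) x y (h0 x y)
    rw [pow_zero, div_one] at h1
    exact Real.rpow_le_rpow_of_nonpos hD h1 (by linarith : -p ≤ 0)
  unfold MF
  have e1 : ∑ i ∈ range I, (if tblk i x = tblk i y then lam / 4 * ((L : ℝ) / 2 ^ i) ^ (-p) else 0) =
      lam / 4 * ∑ i ∈ range I, (if tblk i x = tblk i y then ((L : ℝ) / 2 ^ i) ^ (-p) else 0) := by
    rw [Finset.mul_sum]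
    exact Finset.sum_congr rfl fun i _ => by split_ifs <;> ring
  have e2 : (if tblk I x = tblk I y then 2 * (lam / 8 * ((L : ℝ) / 2 ^ I) ^ (-p)) else 0) =
      lam / 4 * (if tblk I x = tblk I y then ((L : ℝ) / 2 ^ I) ^ (-p) else 0) := by
    split_ifs <;> ring
  rw [e1, e2]
  have k3 := mul_le_mul_of_nonneg_left k1 (by positivity : (0 : ℝ) ≤ lam / 4)
  have k4 := mul_le_mul_of_nonneg_left k2 (by positivity : (0 : ℝ) ≤ lam / 2)
  nlinarith [k3, k4, hw]

end Pool.Agent.W805.LR
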