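import Pool.Agent.W805.LR.Types2

set_option autoImplicit false

namespace Pool.Agent.W805.LR

open Finset Equiv Filter Topology

/-- The whole chain for the slot model with `M` time steps, second version. -/
theorem chain2 (hsl : S_slot) (hst : S_stage2) (hsb : S_base2) (hbl : S_blocks)
    {d L : ℕ} [NeZero L] (σ lam θ t a s0 ε : ℝ) (I Wn : ℕ) (δ κw δw : ℕ → ℝ)
    (hd : 1 ≤ d) (hσ : 0 < σ) (hlam : 0 < lam) (hθ : 0 < θ)
    (ht : 0 < t) (ha : 0 < a) (ha1 : a ≤ d) (hs0 : 1 ≤ s0) (hε : 0 < ε)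
    (hδ : ∀ j, 0 < δ j)
    (hIL : 2 * 2 ^ I ≤ L)
    (hb0 : 2 * s0 ≤ ((L : ℝ) / 2 ^ I / 2) ^ d)
    (hbj : ∀ k : ℕ, s0 * 2 ^ (((k : ℝ) + 1) * (a / d)) ≤
      δ k * ((L : ℝ) / 2 ^ I * 2 ^ (k / d + 1) / 2) ^ d / 2)
    (hw1 : ε * (L : ℝ) ^ d / 2 ^ Wn ≤ s0 * 2 ^ ((I : ℝ) * a))
    (hw2 : ∑ m ∈ range Wn, κw m ≤ lam / 2 * (L : ℝ) ^ (-((d : ℝ) + σ)))
    (hw3 : ∀ m, 0 ≤ κw m ∧ 0 < δw m ∧ ε * (L : ℝ) ^ d / 2 ^ m ≤ δw m * (L : ℝ) ^ d / 2)
    (J : (Fin d → ZMod L) → (Fin d → ZMod L) → ℝ) (hJ : IsRate2 d L σ lam J) :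
    ∃ Jt : Fin (2 + d * I + Wn) → (Fin d → ZMod L) → (Fin d → ZMod L) → ℝ,
      (∀ x y, ∑ j, Jt j x y = J x y) ∧ (∀ j x y, 0 ≤ Jt j x y) ∧
      ∃ M0 : ℕ, ∀ M : ℕ, M0 ≤ M →
        ev (confW (M := M) θ (t / M) Jt)
            (fun ω => cnt fun v => len (GG M (2 + d * I + Wn) (2 + d * I + Wn) ω) v <
              ε * (L : ℝ) ^ d) ≤
          (L : ℝ) ^ d * (baseErr2 d σ lam (max θ θ⁻¹) t ((L : ℝ) / 2 ^ I) s0 +
            ∑ j ∈ range (d * I), lvlErr2 d σ lam (max θ θ⁻¹) t ((L : ℝ) / 2 ^ I) δ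
              (fun j => s0 * 2 ^ ((j : ℝ) * (a / d))) j +
            ∑ m ∈ range Wn, winErr2 ((L : ℝ) ^ d) (max θ θ⁻¹) t (δw m) (κw m)
              (ε * (L : ℝ) ^ d / 2 ^ m)) *
            ev (confW (M := M) θ (t / M) Jt) (fun _ => 1) := by
  classical
  obtain ⟨Θ, hΘ⟩ : ∃ Θ, Θ = max θ θ⁻¹ := ⟨_, rfl⟩
  have hΘ1 : 1 ≤ Θ := by rw [hΘ]; exact one_le_max_inv hθ
  have hLpos : (0 : ℝ) < L := by exact_mod_cast Nat.pos_of_ne_zero (NeZero.ne L)
  have hd0 : (0 : ℝ) < d := by exact_mod_cast hd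
  obtain ⟨p, hp⟩ : ∃ p : ℝ, p = (d : ℝ) + σ := ⟨_, rfl⟩
  have hp1 : 1 ≤ p := by
    rw [hp]; have : (1 : ℝ) ≤ d := by exact_mod_cast hd
    linarith
  have h2i : ∀ i ≤ I, 2 * 2 ^ i ≤ L := fun i hi =>
    (Nat.mul_le_mul_left 2 (Nat.pow_le_pow_right (by norm_num) hi)).trans hIL
  have h00 : ∀ x y : Fin d → ZMod L, tblk 0 x = tblk 0 y := (hbl d L 0 (h2i 0 (by omega))).2.2.2.1
  -- rates
  set κ0 : ℝ := lam / 8 * ((L : ℝ) / 2 ^ I) ^ (-p) with hκ0
  set κl : ℕ → ℝ := fun i => lam / 4 * ((L : ℝ) / 2 ^ i) ^ (-p) with hκl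
  have hκ0pos : 0 < κ0 := by rw [hκ0]; positivity
  have hκlpos : ∀ i, 0 ≤ κl i := fun i => by rw [hκl]; positivity
  have hMF : ∀ x y : Fin d → ZMod L, x ≠ y → MF I Wn κ0 κl κw x y ≤ lam * (bdist x y : ℝ) ^ (-p) :=
    fun x y hxy => MF_le2 I Wn lam p κw hlam hp1 h00 (by rw [hp]; exact hw2) x y (bdist_pos hxy)
  have hRR : ∀ x y : Fin d → ZMod L, 0 ≤ RR J I Wn κ0 κl κw x y := by
    intro x y
    unfold RR
    split_ifs with h
    · exact le_rfl
    · have h1 := hJ.2.2 x y h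
      rw [← hp] at h1
      have := hMF x y h
      linarith
  refine ⟨fun j => JT2 J I Wn κ0 κl κw j.val, fun x y => sum_JT2 J I Wn κ0 κl κw hd hJ.2.1 x y,
    fun j x y => JT2_nonneg J I Wn κ0 κl κw hRR hκ0pos.le hκlpos (fun m => (hw3 m).1) j.val x y, ?_⟩
  set Jt : Fin (2 + d * I + Wn) → (Fin d → ZMod L) → (Fin d → ZMod L) → ℝ :=
    fun j => JT2 J I Wn κ0 κl κw j.val with hJt
  have hJt0 : ∀ j x y, 0 ≤ Jt j x y := fun j x y =>
    JT2_nonneg J I Wn κ0 κl κw hRR hκ0pos.le hκlpos (fun m => (hw3 m).1) j.val x y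
  have hJtd : ∀ j x, Jt j x x = 0 := fun j x => JT2_diag J I Wn κ0 κl κw j.val x
  have hsumJ : ∀ x y, ∑ j, Jt j x y = J x y := fun x y =>
    sum_JT2 J I Wn κ0 κl κw hd hJ.2.1 x y
  have hJtJ : ∀ j x y, Jt j x y ≤ J x y := fun j x y => by
    rw [← hsumJ]
    exact Finset.single_le_sum (f := fun j => Jt j x y) (fun j _ => hJt0 j x y) (Finset.mem_univ j)
  obtain ⟨S, hS⟩ : ∃ S : ℝ, S = ∑ x, ∑ y, J x y / 2 := ⟨_, rfl⟩
  have hJ0 : ∀ x y, 0 ≤ J x y := fun x y => by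
    rw [← hsumJ]; exact Finset.sum_nonneg fun j _ => hJt0 j x y
  have hS0 : 0 ≤ S := by
    rw [hS]; exact Finset.sum_nonneg fun x _ => Finset.sum_nonneg fun y _ => by
      have := hJ0 x y; positivity
  obtain ⟨M0, hM0⟩ := exists_nat_ge (Θ * t * S + 1)
  refine ⟨M0, fun M hM => ?_⟩
  have hMr : Θ * t * S + 1 ≤ M := hM0.trans (by exact_mod_cast hM)
  have hMpos : (0 : ℝ) < M := by
    have : 0 ≤ Θ * t * S := by positivity
    linarith
  have hMn : 0 < M := by exact_mod_cast hMpos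
  set h : ℝ := t / M with hh
  have hhpos : 0 < h := by rw [hh]; positivity
  have hMh : (M : ℝ) * h = t := by rw [hh]; field_simp
  have hsmall : ∀ j, (Θ * ∑ x, ∑ y, h * Jt j x y / 2) ≤ 1 := by
    intro j
    have e1 : ∑ x, ∑ y, h * Jt j x y / 2 ≤ h * S := by
      rw [hS, Finset.mul_sum]
      refine Finset.sum_le_sum fun x _ => ?_
      rw [Finset.mul_sum]
      refine Finset.sum_le_sum fun y _ => ?_
      have := mul_le_mul_of_nonneg_left (hJtJ j x y) hhpos.le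
      linarith
    calc Θ * ∑ x, ∑ y, h * Jt j x y / 2 ≤ Θ * (h * S) := by gcongr
      _ = Θ * t * S / M := by rw [hh]; ring
      _ ≤ 1 := by rw [div_le_one hMpos]; linarith
  have hcard : (Fintype.card (Fin d → ZMod L) : ℝ) = (L : ℝ) ^ d := by
    rw [Fintype.card_fun, ZMod.card, Fintype.card_fin]; push_cast; rfl
  obtain ⟨Z, hZ⟩ : ∃ Z, Z = ev (confW (M := M) θ h Jt) (fun _ => 1) := ⟨_, rfl⟩
  obtain ⟨E, hE⟩ : ∃ E : ℕ → ℝ → ℝ, E = fun k s => ev (confW (M := M) θ h Jt)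
    (fun ω => cnt fun v => len (GG M (2 + d * I + Wn) k ω) v < s) := ⟨_, rfl⟩
  have hW : ∀ ω : Fin M × Fin (2 + d * I + Wn) → Option ((Fin d → ZMod L) × (Fin d → ZMod L)),
      0 ≤ confW (M := M) θ h Jt ω := by
    intro ω
    unfold confW
    refine mul_nonneg (Finset.prod_nonneg fun a _ => ?_) (by positivity)
    cases hω : ω a with
    | none => simp [wt]
    | some e => simp only [wt]; have := hJt0 a.2 e.1 e.2; positivity
  have hZ0 : 0 ≤ Z := by rw [hZ]; exact ev_nonneg hW fun _ => zero_le_one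
  have hs00 : 0 < s0 := by linarith
  -- base
  have hEbase : E 2 s0 ≤ (L : ℝ) ^ d * baseErr2 d σ lam Θ t ((L : ℝ) / 2 ^ I) s0 * Z := by
    have key := base2 hsl hsb θ h t Jt ⟨1, by omega⟩ (tblk I) hθ hhpos hMn hMh
      hJt0 hJtd s0 (2 * κ0) (((L : ℝ) / 2 ^ I / 2) ^ d) hs00 (by positivity) (by positivity) hb0
      (fun x y => JT2_one J I Wn κ0 κl κw x y)
      (fun v => (hbl d L I (h2i I le_rfl)).1 v)
      (by rw [← hΘ]; exact hsmall _)
    rw [← hΘ, hcard, ← hZ] at key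
    rw [hE]
    refine key.trans (le_of_eq ?_)
    have e2 : 2 * κ0 = lam / 4 * ((L : ℝ) / 2 ^ I) ^ (-p) := by rw [hκ0]; ring
    unfold baseErr2
    rw [e2, ← hp]
  -- levels
  have hside : ∀ k < I, (L : ℝ) / 2 ^ (I - 1 - k) = (L : ℝ) / 2 ^ I * 2 ^ (k + 1) := by
    intro k hk
    have e1 : (2 : ℝ) ^ I = 2 ^ (I - 1 - k) * 2 ^ (k + 1) := by
      rw [← pow_add]; congr 1; omega
    rw [e1]
    field_simp
  have had : 0 < a / d := by positivity
  have had1 : a / d ≤ 1 := by rw [div_le_one hd0]; exact ha1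
  have hElev : ∀ k ≤ d * I, E (2 + k) (s0 * 2 ^ ((k : ℝ) * (a / d))) ≤
      (L : ℝ) ^ d * (baseErr2 d σ lam Θ t ((L : ℝ) / 2 ^ I) s0 +
        ∑ j ∈ range k, lvlErr2 d σ lam Θ t ((L : ℝ) / 2 ^ I) δ
          (fun j => s0 * 2 ^ ((j : ℝ) * (a / d))) j) * Z := by
    intro k
    induction k with
    | zero =>
      intro _
      simpa using hEbase
    | succ k ih =>
      intro hk
      have ih' := ih (by omega)
      have hkI : k < d * I := by omega
      have hkd : k / d < I := Nat.div_lt_of_lt_mul hkI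
      obtain ⟨ℓ, hℓ⟩ : ∃ ℓ : ℝ, ℓ = (L : ℝ) / 2 ^ I * 2 ^ (k / d + 1) := ⟨_, rfl⟩
      have hℓi : (L : ℝ) / 2 ^ (I - 1 - k / d) = ℓ := by rw [hℓ]; exact hside (k / d) hkd
      have hT : 2 + k < 2 + d * I + Wn := by omega
      have hs2 : (2 : ℝ) ^ ((k : ℝ) * (a / d)) ≤ 2 ^ (((k : ℝ) + 1) * (a / d)) :=
        Real.rpow_le_rpow_of_exponent_le (by norm_num)
          (mul_le_mul_of_nonneg_right (by linarith only) had.le)
      have hs3 : (2 : ℝ) ^ (((k : ℝ) + 1) * (a / d)) ≤ 2 * 2 ^ ((k : ℝ) * (a / d)) := by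
        have : ((k : ℝ) + 1) * (a / d) = a / d + k * (a / d) := by ring
        rw [this, Real.rpow_add (by norm_num)]
        have : (2 : ℝ) ^ (a / d) ≤ 2 ^ (1 : ℝ) :=
          Real.rpow_le_rpow_of_exponent_le (by norm_num) had1
        rw [Real.rpow_one] at this
        have h0 : (0 : ℝ) ≤ 2 ^ ((k : ℝ) * (a / d)) := by positivity
        exact mul_le_mul_of_nonneg_right this h0
      have key := growth2 hsl hst θ h t Jt ⟨2 + k, hT⟩ (tblk (I - 1 - k / d)) hθ hhpos.le hMh hJt0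
        hJtd (s0 * 2 ^ ((k : ℝ) * (a / d))) (s0 * 2 ^ (((k : ℝ) + 1) * (a / d))) (δ k)
        (κl (I - 1 - k / d) / d) ((ℓ / 2) ^ d)
        (by positivity) (mul_le_mul_of_nonneg_left hs2 hs00.le)
        (by
          have h9 := mul_le_mul_of_nonneg_left hs3 hs00.le
          linarith only [h9]) (hδ _) (div_nonneg (hκlpos _) hd0.le)
        (fun x y => JT2_level J I Wn κ0 κl κw k hkI x y)
        (fun v => by
          have := (hbl d L (I - 1 - k / d)
            (h2i _ ((Nat.sub_le _ _).trans (Nat.sub_le _ _)))).1 v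
          rw [hℓi] at this
          exact this)
        (by have := hbj k; rw [← hℓ] at this; exact this)
        (by rw [← hΘ]; exact hsmall _)
      rw [← hΘ, hcard, ← hZ] at key
      have key2 : E (2 + (k + 1)) (s0 * 2 ^ ((((k + 1 : ℕ)) : ℝ) * (a / d))) ≤
          E (2 + k) (s0 * 2 ^ ((k : ℝ) * (a / d))) + (L : ℝ) ^ d *
            lvlErr2 d σ lam Θ t ((L : ℝ) / 2 ^ I) δ (fun j => s0 * 2 ^ ((j : ℝ) * (a / d))) k *
              Z := by
        rw [hE]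
        have e0 : (((k + 1 : ℕ)) : ℝ) = (k : ℝ) + 1 := by push_cast; ring
        simp only [e0]
        refine key.trans (le_of_eq ?_)
        congr 3
        unfold lvlErr2
        simp only [e0, ← hp, ← hℓ]
        have e3 : κl (I - 1 - k / d) = lam / 4 * ℓ ^ (-p) := by
          simp only [hκl, hℓi]
        rw [e3]
      refine key2.trans ?_
      rw [Finset.sum_range_succ]
      refine (add_le_add_left ih' _).trans (le_of_eq ?_)
      ring
  -- windows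
  obtain ⟨n, hn⟩ : ∃ n : ℝ, n = (L : ℝ) ^ d := ⟨_, rfl⟩
  have hn0 : 0 < n := by rw [hn]; positivity
  rw [← hn] at hw1
  have hEwin : ∀ k ≤ Wn, E (2 + d * I + k) (ε * n / 2 ^ (Wn - k)) ≤
      n * (baseErr2 d σ lam Θ t ((L : ℝ) / 2 ^ I) s0 +
        ∑ j ∈ range (d * I), lvlErr2 d σ lam Θ t ((L : ℝ) / 2 ^ I) δ
          (fun j => s0 * 2 ^ ((j : ℝ) * (a / d))) j +
        ∑ m ∈ range k, winErr2 n Θ t (δw (Wn - 1 - m)) (κw (Wn - 1 - m))
          (ε * n / 2 ^ (Wn - 1 - m))) * Z := by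
    intro k
    induction k with
    | zero =>
      intro _
      have e1 : ((d * I : ℕ) : ℝ) * (a / d) = I * a := by
        push_cast; field_simp
      have h2 := hElev (d * I) le_rfl
      rw [e1] at h2
      have h1 : E (2 + d * I + 0) (ε * n / 2 ^ (Wn - 0)) ≤
          E (2 + d * I) (s0 * 2 ^ ((I : ℝ) * a)) := by
        rw [hE]
        refine ev_mono hW fun ω => cnt_mono fun v hv => ?_
        exact lt_of_lt_of_le hv (by simpa using hw1)
      refine h1.trans ?_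
      rw [Finset.sum_range_zero, add_zero, hn]
      exact h2
    | succ k ih =>
      intro hk
      have ih' := ih (by omega)
      have hT : 2 + d * I + k < 2 + d * I + Wn := by omega
      obtain ⟨m, hm⟩ : ∃ m, m = Wn - 1 - k := ⟨_, rfl⟩
      have hm1 : Wn - (k + 1) = m := by omega
      have hm2 : Wn - k = m + 1 := by omega
      rw [hm2] at ih'
      have hSm : ε * n / 2 ^ (m + 1) = ε * n / 2 ^ m / 2 := by rw [pow_succ]; field_simp
      rw [hSm] at ih'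
      obtain ⟨S', hS'⟩ : ∃ S', S' = ε * n / 2 ^ m := ⟨_, rfl⟩
      have hS'0 : 0 < S' := by rw [hS']; positivity
      rw [← hS'] at ih'
      have key := growth2 hsl hst θ h t Jt ⟨2 + d * I + k, hT⟩ (fun _ => ()) hθ hhpos.le hMh hJt0
        hJtd (S' / 2) S' (δw m) (κw m) n
        (by positivity) (by linarith) (by linarith) (hw3 m).2.1 (hw3 m).1
        (fun x y => by
          change JT2 J I Wn κ0 κl κw (2 + d * I + k) x y = _
          rw [JT2_win, ← hm])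
        (fun v => by
          rw [hn, ← hcard, ← cnt_true]
          exact cnt_mono fun _ _ => rfl)
        (by have := (hw3 m).2.2; rw [← hn, ← hS'] at this; exact this)
        (by rw [← hΘ]; exact hsmall _)
      rw [← hΘ, hcard, ← hn, ← hZ] at key
      rw [hm1, ← hS', Finset.sum_range_succ, ← hm, ← hS']
      have key2 : E (2 + d * I + (k + 1)) S' ≤ E (2 + d * I + k) (S' / 2) +
          n * winErr2 n Θ t (δw m) (κw m) S' * Z := by
        rw [hE]
        exact key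
      refine key2.trans ?_
      refine (add_le_add_left ih' _).trans (le_of_eq ?_)
      ring
  have hfin := hEwin Wn le_rfl
  rw [Nat.sub_self, pow_zero, div_one] at hfin
  have hrefl : ∑ m ∈ range Wn, winErr2 n Θ t (δw (Wn - 1 - m)) (κw (Wn - 1 - m))
          (ε * n / 2 ^ (Wn - 1 - m)) = ∑ m ∈ range Wn, winErr2 n Θ t (δw m) (κw m)
          (ε * n / 2 ^ m) :=
    Finset.sum_range_reflect (fun m => winErr2 n Θ t (δw m) (κw m) (ε * n / 2 ^ m)) Wn
  rw [hrefl, hn, hE] at hfin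
  rw [← hΘ, ← hZ]
  exact hfin

end Pool.Agent.W805.LR
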