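import Pool.Agent.W805.LR.Keep2

set_option autoImplicit false

namespace Pool.Agent.W805.PD

open Finset Equiv Filter Topology
open Pool.Agent.W805.LR

/-- Bound of the total rate per site of the mean-field types. -/
noncomputable def Crho (d : ℕ) (σ : ℝ) : ℝ := 2 ^ d / (1 - 2 ^ (-(σ / d))) + 1

lemma JT2_symm {d L : ℕ} [NeZero L] (J : (Fin d → ZMod L) → (Fin d → ZMod L) → ℝ) (I Wn : ℕ)
    (κ0 : ℝ) (κl κw : ℕ → ℝ) (k : ℕ) (x y : Fin d → ZMod L) :
    JT2 J I Wn κ0 κl κw (2 + k) x y = JT2 J I Wn κ0 κl κw (2 + k) y x := by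
  by_cases h : k < d * I
  · rw [JT2_level J I Wn κ0 κl κw k h x y, JT2_level J I Wn κ0 κl κw k h y x]
    exact if_congr ⟨fun h => ⟨h.1.symm, h.2.symm⟩, fun h => ⟨h.1.symm, h.2.symm⟩⟩ rfl rfl
  · obtain ⟨m, rfl⟩ : ∃ m, k = d * I + m := ⟨k - d * I, by omega⟩
    rw [← add_assoc, JT2_win, JT2_win]
    exact if_congr ⟨fun h => ⟨h.1.symm, h.2⟩, fun h => ⟨h.1.symm, h.2⟩⟩ rfl rfl

lemma row_le {V : Type} [Fintype V] [DecidableEq V] (κ B : ℝ) (hκ : 0 ≤ κ) (P : V → V → Prop)
    [∀ x y, Decidable (P x y)] (x : V) (hB : cnt (fun y => P y x) ≤ B)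
    (hs : ∀ y, P x y → P y x) :
    ∑ y, (if x ≠ y ∧ P x y then κ else 0) ≤ κ * B := by
  calc ∑ y, (if x ≠ y ∧ P x y then κ else 0) ≤ ∑ y, κ * (if P y x then 1 else 0) := by
        refine Finset.sum_le_sum fun y _ => ?_
        by_cases h : P x y
        · rw [if_pos (hs y h)]
          split_ifs <;> linarith
        · rw [if_neg (fun h' => h h'.2)]
          split_ifs <;> linarith
    _ = κ * cnt (fun y => P y x) := by
        rw [← Finset.mul_sum, cnt_eq]
    _ ≤ κ * B := mul_le_mul_of_nonneg_left hB hκ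

/-- The chain without base stage: mass in cycles shorter than `ε n` is bounded by the mass in
cycles shorter than `s1` and a multiple of the mass in cycles of length in `[s1, s0)`. -/
theorem chain3 (hsl : S_slot) (hst : S_stage2) (hkp : S_keep) (hbl : S_blocks) (hbu : S_blkup)
    {d L : ℕ} [NeZero L] (σ lam a s0 s1 ε : ℝ) (I Wn : ℕ) (δ κw δw : ℕ → ℝ)
    (hd : 1 ≤ d) (hσ : 0 < σ) (hlam : 0 < lam) (ha : 0 < a) (ha1 : a ≤ d) (hs0 : 0 < s0)
    (hs1 : 0 ≤ s1) (hs10 : s1 ≤ s0) (hε : 0 < ε)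
    (hδ : ∀ j, 0 < δ j)
    (hIL : 2 * 2 ^ I ≤ L)
    (hbj : ∀ k : ℕ, s0 * 2 ^ (((k : ℝ) + 1) * (a / d)) ≤
      δ k * ((L : ℝ) / 2 ^ I * 2 ^ (k / d + 1) / 2) ^ d / 2)
    (hw1 : ε * (L : ℝ) ^ d / 2 ^ Wn ≤ s0 * 2 ^ ((I : ℝ) * a))
    (hw2 : ∑ m ∈ range Wn, κw m ≤ lam / 2 * (L : ℝ) ^ (-((d : ℝ) + σ)))
    (hw3 : ∀ m, 0 ≤ κw m ∧ 0 < δw m ∧ ε * (L : ℝ) ^ d / 2 ^ m ≤ δw m * (L : ℝ) ^ d / 2)
    (J : (Fin d → ZMod L) → (Fin d → ZMod L) → ℝ) (hJ : IsRate2 d L σ lam J) :
    ∃ Jt : Fin (2 + d * I + Wn) → (Fin d → ZMod L) → (Fin d → ZMod L) → ℝ,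
      (∀ x y, ∑ j, Jt j x y = J x y) ∧ (∀ j x y, 0 ≤ Jt j x y) ∧
      ∃ M0 : ℕ, ∀ M : ℕ, M0 ≤ M →
        ev (confW (M := M) 1 (1 / M) Jt)
            (fun ω => cnt fun v => len (GG M (2 + d * I + Wn) (2 + d * I + Wn) ω) v <
              ε * (L : ℝ) ^ d) ≤
          ev (confW (M := M) 1 (1 / M) Jt)
            (fun ω => cnt fun v => len (GG M (2 + d * I + Wn) (2 + d * I + Wn) ω) v < s1) +
          Real.exp (2 * s0 * (lam * ((L : ℝ) / 2 ^ I) ^ (-σ) * Crho d σ)) *
            ev (confW (M := M) 1 (1 / M) Jt) (fun ω => cnt fun v =>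
              s1 ≤ len (GG M (2 + d * I + Wn) (2 + d * I + Wn) ω) v ∧
              len (GG M (2 + d * I + Wn) (2 + d * I + Wn) ω) v < s0) +
          (L : ℝ) ^ d * (s1 * (lam * ((L : ℝ) / 2 ^ I) ^ (-σ) * Crho d σ) +
            ∑ j ∈ range (d * I), lvlErr2 d σ lam 1 1 ((L : ℝ) / 2 ^ I) δ
              (fun j => s0 * 2 ^ ((j : ℝ) * (a / d))) j +
            ∑ m ∈ range Wn, winErr2 ((L : ℝ) ^ d) 1 1 (δw m) (κw m)
              (ε * (L : ℝ) ^ d / 2 ^ m)) *
            ev (confW (M := M) 1 (1 / M) Jt) (fun _ => 1) := by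
  classical
  have hLpos : (0 : ℝ) < L := by exact_mod_cast Nat.pos_of_ne_zero (NeZero.ne L)
  have hd0 : (0 : ℝ) < d := by exact_mod_cast hd
  have hm1 : max (1 : ℝ) 1⁻¹ = 1 := by norm_num
  obtain ⟨p, hp⟩ : ∃ p : ℝ, p = (d : ℝ) + σ := ⟨_, rfl⟩
  have hp1 : 1 ≤ p := by
    rw [hp]; have : (1 : ℝ) ≤ d := by exact_mod_cast hd
    linarith
  have h2i : ∀ i ≤ I, 2 * 2 ^ i ≤ L := fun i hi =>
    (Nat.mul_le_mul_left 2 (Nat.pow_le_pow_right (by norm_num) hi)).trans hIL
  have h00 : ∀ x y : Fin d → ZMod L, tblk 0 x = tblk 0 y := (hbl d L 0 (h2i 0 (by omega))).2.2.2.1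
  -- rates
  set κ0 : ℝ := lam / 8 * ((L : ℝ) / 2 ^ I) ^ (-p) with hκ0
  set κl : ℕ → ℝ := fun i => lam / 4 * ((L : ℝ) / 2 ^ i) ^ (-p) with hκl
  have hκ0pos : 0 < κ0 := by rw [hκ0]; positivity
  have hκlpos : ∀ i, 0 ≤ κl i := fun i => by rw [hκl]; positivity
  have hMF : ∀ x y : Fin d → ZMod L, x ≠ y → MF I Wn κ0 κl κw x y ≤ lam * (bdist x y : ℝ) ^ (-p) :=
    fun x y hxy => MF_le2 I Wn lam p κw hlam hp1 h00 (by rw [hp]; exact hw2) x y (bdist_pos hxy)
  have hRR : ∀ x y : Fin d → ZMod L, 0 ≤ RR J I Wn κ0 κl κw x y := by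
    intro x y
    unfold RR
    split_ifs with h
    · exact le_rfl
    · have h1 := hJ.2.2 x y h
      rw [← hp] at h1
      have := hMF x y h
      linarith
  refine ⟨fun j => JT2 J I Wn κ0 κl κw j.val, fun x y => sum_JT2 J I Wn κ0 κl κw hd hJ.2.1 x y,
    fun j x y => JT2_nonneg J I Wn κ0 κl κw hRR hκ0pos.le hκlpos (fun m => (hw3 m).1) j.val x y, ?_⟩
  set Jt : Fin (2 + d * I + Wn) → (Fin d → ZMod L) → (Fin d → ZMod L) → ℝ :=
    fun j => JT2 J I Wn κ0 κl κw j.val with hJt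
  have hJt0 : ∀ j x y, 0 ≤ Jt j x y := fun j x y =>
    JT2_nonneg J I Wn κ0 κl κw hRR hκ0pos.le hκlpos (fun m => (hw3 m).1) j.val x y
  have hJtd : ∀ j x, Jt j x x = 0 := fun j x => JT2_diag J I Wn κ0 κl κw j.val x
  have hsumJ : ∀ x y, ∑ j, Jt j x y = J x y := fun x y =>
    sum_JT2 J I Wn κ0 κl κw hd hJ.2.1 x y
  have hJtJ : ∀ j x y, Jt j x y ≤ J x y := fun j x y => by
    rw [← hsumJ]
    exact Finset.single_le_sum (f := fun j => Jt j x y) (fun j _ => hJt0 j x y) (Finset.mem_univ j)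
  obtain ⟨S, hS⟩ : ∃ S : ℝ, S = ∑ x, ∑ y, J x y / 2 := ⟨_, rfl⟩
  have hJ0 : ∀ x y, 0 ≤ J x y := fun x y => by
    rw [← hsumJ]; exact Finset.sum_nonneg fun j _ => hJt0 j x y
  have hS0 : 0 ≤ S := by
    rw [hS]; exact Finset.sum_nonneg fun x _ => Finset.sum_nonneg fun y _ => by
      have := hJ0 x y; positivity
  -- total rates per site
  obtain ⟨l, hl⟩ : ∃ l : ℝ, l = (L : ℝ) / 2 ^ I := ⟨_, rfl⟩
  have hl2 : 2 ≤ l := by
    rw [hl, le_div_iff₀ (by positivity)]
    exact_mod_cast hIL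
  have hl0 : 0 < l := by linarith
  obtain ⟨q, hq⟩ : ∃ q : ℝ, q = 2 ^ (-(σ / d)) := ⟨_, rfl⟩
  have hq0 : 0 < q := by rw [hq]; positivity
  have hq1 : q < 1 := by
    rw [hq]
    exact Real.rpow_lt_one_of_one_lt_of_neg (by norm_num) (by have : 0 < σ / d := by positivity
                                                              linarith)
  obtain ⟨rr, hrr⟩ : ∃ rr : ℕ → ℝ, rr = fun k =>
    if k < d * I then lam * 2 ^ d * l ^ (-σ) * q ^ k else κw (Wn - 1 - (k - d * I)) * (L : ℝ) ^ d :=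
    ⟨_, rfl⟩
  have hrr0 : ∀ k, 0 ≤ rr k := by
    intro k
    rw [hrr]
    change 0 ≤ (if k < d * I then lam * 2 ^ d * l ^ (-σ) * q ^ k else
      κw (Wn - 1 - (k - d * I)) * (L : ℝ) ^ d)
    split_ifs
    · positivity
    · have := (hw3 (Wn - 1 - (k - d * I))).1
      positivity
  have hside : ∀ k < I, (L : ℝ) / 2 ^ (I - 1 - k) = (L : ℝ) / 2 ^ I * 2 ^ (k + 1) := by
    intro k hk
    have e1 : (2 : ℝ) ^ I = 2 ^ (I - 1 - k) * 2 ^ (k + 1) := by
      rw [← pow_add]; congr 1; omega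
    rw [e1]
    field_simp
  have hcard : (Fintype.card (Fin d → ZMod L) : ℝ) = (L : ℝ) ^ d := by
    rw [Fintype.card_fun, ZMod.card, Fintype.card_fin]; push_cast; rfl
  have hrow : ∀ k (hk : 2 + k < 2 + d * I + Wn), ∀ x, ∑ y, Jt ⟨2 + k, hk⟩ x y ≤ rr k := by
    intro k hk x
    change ∑ y, JT2 J I Wn κ0 κl κw (2 + k) x y ≤ rr k
    by_cases hkI : k < d * I
    · have hkd : k / d < I := Nat.div_lt_of_lt_mul hkI
      rw [hrr]
      change _ ≤ (if k < d * I then lam * 2 ^ d * l ^ (-σ) * q ^ k else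
        κw (Wn - 1 - (k - d * I)) * (L : ℝ) ^ d)
      rw [if_pos hkI]
      have e1 : ∀ y, JT2 J I Wn κ0 κl κw (2 + k) x y =
          if x ≠ y ∧ tblk (I - 1 - k / d) x = tblk (I - 1 - k / d) y
          then κl (I - 1 - k / d) / d else 0 := fun y => JT2_level J I Wn κ0 κl κw k hkI x y
      rw [Finset.sum_congr rfl fun y _ => e1 y]
      obtain ⟨ℓ, hℓ⟩ : ∃ ℓ : ℝ, ℓ = l * 2 ^ (k / d + 1) := ⟨_, rfl⟩
      have hℓi : (L : ℝ) / 2 ^ (I - 1 - k / d) = ℓ := by rw [hℓ, hl]; exact hside (k / d) hkd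
      have hℓ0 : 0 < ℓ := by rw [hℓ]; positivity
      refine (row_le (κl (I - 1 - k / d) / d) ((2 * ℓ) ^ d) (div_nonneg (hκlpos _) hd0.le)
        (fun x y => tblk (I - 1 - k / d) x = tblk (I - 1 - k / d) y) x ?_
        (fun y hy => hy.symm)).trans ?_
      · have := hbu d L (I - 1 - k / d) (h2i _ ((Nat.sub_le _ _).trans (Nat.sub_le _ _))) x
        rw [hℓi] at this
        exact this
      · rw [hκl]
        change lam / 4 * ((L : ℝ) / 2 ^ (I - 1 - k / d)) ^ (-p) / d * (2 * ℓ) ^ d ≤ _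
        rw [hℓi]
        have e2 : ℓ ^ (-p) * ℓ ^ d = ℓ ^ (-σ) := by
          rw [← Real.rpow_natCast ℓ d, ← Real.rpow_add hℓ0, hp]
          congr 1; ring
        have e3 : lam / 4 * ℓ ^ (-p) / d * (2 * ℓ) ^ d = lam / (4 * d) * 2 ^ d * ℓ ^ (-σ) := by
          rw [← e2, mul_pow]; field_simp
        rw [e3]
        have e4 : ℓ ^ (-σ) ≤ l ^ (-σ) * q ^ k := by
          have h1 : q ^ k = (2 : ℝ) ^ (-(σ * (k / d))) := by
            rw [hq, ← Real.rpow_natCast, ← Real.rpow_mul (by norm_num)]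
            congr 1; field_simp
          have h2 : ℓ ^ (-σ) = l ^ (-σ) * (2 : ℝ) ^ (-(σ * ((k / d : ℕ) + 1))) := by
            rw [hℓ, Real.mul_rpow hl0.le (by positivity)]
            congr 1
            rw [← Real.rpow_natCast, ← Real.rpow_mul (by norm_num)]
            congr 1; push_cast; ring
          rw [h1, h2]
          refine mul_le_mul_of_nonneg_left ?_ (by positivity)
          refine Real.rpow_le_rpow_of_exponent_le (by norm_num) ?_
          have h3 : (k : ℝ) / d ≤ ((k / d : ℕ) : ℝ) + 1 := by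
            rw [div_le_iff₀ hd0]
            have := Nat.lt_div_mul_add (a := k) (b := d) (by omega)
            have h4 : k ≤ (k / d + 1) * d := by rw [add_mul, one_mul]; omega
            exact_mod_cast h4
          have h5 := mul_le_mul_of_nonneg_left h3 hσ.le
          linarith only [h5]
        have e5 : lam / (4 * d) ≤ lam := by
          have : (1 : ℝ) ≤ 4 * d := by
            have : (1 : ℝ) ≤ d := by exact_mod_cast hd
            linarith only [this]
          exact div_le_self hlam.le this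
        calc lam / (4 * d) * 2 ^ d * ℓ ^ (-σ) ≤ lam * 2 ^ d * (l ^ (-σ) * q ^ k) := by gcongr
          _ = _ := by ring
    · obtain ⟨m, rfl⟩ : ∃ m, k = d * I + m := ⟨k - d * I, by omega⟩
      rw [hrr]
      change _ ≤ (if d * I + m < d * I then lam * 2 ^ d * l ^ (-σ) * q ^ (d * I + m) else
        κw (Wn - 1 - (d * I + m - d * I)) * (L : ℝ) ^ d)
      rw [if_neg hkI, Nat.add_sub_cancel_left]
      have e1 : ∀ y, JT2 J I Wn κ0 κl κw (2 + (d * I + m)) x y =
          if x ≠ y ∧ () = () then κw (Wn - 1 - m) else 0 := fun y => by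
        rw [← add_assoc]; exact JT2_win J I Wn κ0 κl κw m x y
      rw [Finset.sum_congr rfl fun y _ => e1 y]
      refine row_le (κw (Wn - 1 - m)) ((L : ℝ) ^ d) (hw3 _).1 (fun _ _ => () = ()) x ?_
        (fun y hy => rfl)
      rw [← hcard]
      exact cnt_le_card _
  have hrrsum : ∑ k ∈ range (d * I + Wn), rr k ≤ lam * l ^ (-σ) * Crho d σ := by
    rw [Finset.sum_range_add]
    have e1 : ∑ k ∈ range (d * I), rr k ≤ lam * l ^ (-σ) * (2 ^ d / (1 - q)) := by
      calc ∑ k ∈ range (d * I), rr k = ∑ k ∈ range (d * I), lam * 2 ^ d * l ^ (-σ) * q ^ k := by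
            refine Finset.sum_congr rfl fun k hk => ?_
            rw [hrr]
            change (if k < d * I then lam * 2 ^ d * l ^ (-σ) * q ^ k else
              κw (Wn - 1 - (k - d * I)) * (L : ℝ) ^ d) = _
            rw [if_pos (Finset.mem_range.1 hk)]
        _ = lam * 2 ^ d * l ^ (-σ) * ∑ k ∈ range (d * I), q ^ k := by rw [Finset.mul_sum]
        _ ≤ lam * 2 ^ d * l ^ (-σ) * (1 - q)⁻¹ := by
            refine mul_le_mul_of_nonneg_left ?_ (by positivity)
            rw [← tsum_geometric_of_lt_one hq0.le hq1]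
            exact (summable_geometric_of_lt_one hq0.le hq1).sum_le_tsum _
              (fun i _ => by positivity)
        _ = _ := by ring
    have e2 : ∑ m ∈ range Wn, rr (d * I + m) ≤ lam * l ^ (-σ) * 1 := by
      calc ∑ m ∈ range Wn, rr (d * I + m) = ∑ m ∈ range Wn, κw (Wn - 1 - m) * (L : ℝ) ^ d := by
            refine Finset.sum_congr rfl fun m hm => ?_
            rw [hrr]
            change (if d * I + m < d * I then lam * 2 ^ d * l ^ (-σ) * q ^ (d * I + m) else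
              κw (Wn - 1 - (d * I + m - d * I)) * (L : ℝ) ^ d) = _
            rw [if_neg (by omega), Nat.add_sub_cancel_left]
        _ = (∑ m ∈ range Wn, κw m) * (L : ℝ) ^ d := by
            rw [Finset.sum_range_reflect (fun m => κw m * (L : ℝ) ^ d) Wn, Finset.sum_mul]
        _ ≤ lam / 2 * (L : ℝ) ^ (-p) * (L : ℝ) ^ d := by
            rw [hp]; exact mul_le_mul_of_nonneg_right hw2 (by positivity)
        _ = lam / 2 * (L : ℝ) ^ (-σ) := by
            rw [mul_assoc, ← Real.rpow_natCast (L : ℝ) d, ← Real.rpow_add hLpos, hp]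
            congr 2; ring
        _ ≤ lam * l ^ (-σ) * 1 := by
            have h1 : (L : ℝ) ^ (-σ) ≤ l ^ (-σ) := by
              refine Real.rpow_le_rpow_of_nonpos hl0 ?_ (by linarith)
              rw [hl]
              exact div_le_self hLpos.le (one_le_pow₀ (by norm_num))
            have h2 : 0 < (L : ℝ) ^ (-σ) := by positivity
            have h3 := mul_le_mul_of_nonneg_left h1 hlam.le
            have h4 : 0 < lam * (L : ℝ) ^ (-σ) := by positivity
            linarith only [h3, h4]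
    unfold Crho
    rw [← hq]
    linarith
  obtain ⟨P, hP⟩ : ∃ P : ℝ, P = lam * l ^ (-σ) * Crho d σ := ⟨_, rfl⟩
  rw [← hP] at hrrsum
  have hP0 : 0 ≤ P := (Finset.sum_nonneg fun k _ => hrr0 k).trans hrrsum
  have hrrP : ∀ k < d * I + Wn, rr k ≤ P := fun k hk =>
    (Finset.single_le_sum (f := rr) (fun k _ => hrr0 k) (Finset.mem_range.2 hk)).trans hrrsum
  obtain ⟨M0, hM0⟩ := exists_nat_ge (S + 2 * s0 * P + 1)
  refine ⟨M0, fun M hM => ?_⟩
  have hMr : S + 2 * s0 * P + 1 ≤ M := hM0.trans (by exact_mod_cast hM)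
  have hsP : 0 ≤ s0 * P := by positivity
  have hMpos : (0 : ℝ) < M := by linarith
  have hMn : 0 < M := by exact_mod_cast hMpos
  set h : ℝ := 1 / M with hh
  have hhpos : 0 < h := by rw [hh]; positivity
  have hMh : (M : ℝ) * h = 1 := by rw [hh]; field_simp
  have hsmall : ∀ j, (max (1 : ℝ) 1⁻¹ * ∑ x, ∑ y, h * Jt j x y / 2) ≤ 1 := by
    intro j
    rw [hm1, one_mul]
    have e1 : ∑ x, ∑ y, h * Jt j x y / 2 ≤ h * S := by
      rw [hS, Finset.mul_sum]
      refine Finset.sum_le_sum fun x _ => ?_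
      rw [Finset.mul_sum]
      refine Finset.sum_le_sum fun y _ => ?_
      have := mul_le_mul_of_nonneg_left (hJtJ j x y) hhpos.le
      linarith
    refine e1.trans ?_
    rw [hh, one_div, ← div_eq_inv_mul, div_le_one hMpos]
    linarith
  obtain ⟨Z, hZ⟩ : ∃ Z, Z = ev (confW (M := M) 1 h Jt) (fun _ => 1) := ⟨_, rfl⟩
  obtain ⟨E, hE⟩ : ∃ E : ℕ → ℝ → ℝ, E = fun k s => ev (confW (M := M) 1 h Jt)
    (fun ω => cnt fun v => len (GG M (2 + d * I + Wn) k ω) v < s) := ⟨_, rfl⟩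
  obtain ⟨EB, hEB⟩ : ∃ EB : ℕ → ℝ, EB = fun k => ev (confW (M := M) 1 h Jt)
    (fun ω => cnt fun v => s1 ≤ len (GG M (2 + d * I + Wn) k ω) v ∧
      len (GG M (2 + d * I + Wn) k ω) v < s0) := ⟨_, rfl⟩
  have hW : ∀ ω : Fin M × Fin (2 + d * I + Wn) → Option ((Fin d → ZMod L) × (Fin d → ZMod L)),
      0 ≤ confW (M := M) 1 h Jt ω := by
    intro ω
    unfold confW
    refine mul_nonneg (Finset.prod_nonneg fun a _ => ?_) (by positivity)
    cases hω : ω a with
    | none => simp [wt]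
    | some e => simp only [wt]; have := hJt0 a.2 e.1 e.2; positivity
  have hZ0 : 0 ≤ Z := by rw [hZ]; exact ev_nonneg hW fun _ => zero_le_one
  obtain ⟨n, hn⟩ : ∃ n : ℝ, n = (L : ℝ) ^ d := ⟨_, rfl⟩
  have hn0 : 0 < n := by rw [hn]; positivity
  -- keeping the short cycles
  have hkeep : ∀ k ≤ d * I + Wn,
      E 2 s1 ≤ E (2 + k) s1 + n * (s1 * ∑ j ∈ range k, rr j) * Z ∧
      EB 2 ≤ Real.exp (2 * s0 * ∑ j ∈ range k, rr j) * EB (2 + k) := by
    intro k
    induction k with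
    | zero => intro _; simp
    | succ k ih =>
      intro hk
      obtain ⟨i1, i2⟩ := ih (by omega)
      have hT : 2 + k < 2 + d * I + Wn := by omega
      have hkk : k < d * I + Wn := by omega
      have hsm0 : s0 * h * rr k ≤ 1 / 2 := by
        have h1 : s0 * h * rr k ≤ s0 * h * P := by
          have := hrrP k hkk
          gcongr
        refine h1.trans ?_
        have h2 : s0 * h * P = s0 * P / M := by rw [hh]; ring
        rw [h2, div_le_iff₀ hMpos]
        linarith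
      have hsm1 : s1 * h * rr k ≤ 1 / 2 := by
        refine le_trans ?_ hsm0
        have := hrr0 k
        gcongr
      have key1 := (keep2 hsl hkp h 1 Jt ⟨2 + k, hT⟩ hhpos.le hMh hJt0 hJtd
        (fun x y => JT2_symm J I Wn κ0 κl κw k x y) s1 s1 (rr k) hs1 (hrr0 k) (hrow k hT) hsm1).1
      have key2 := (keep2 hsl hkp h 1 Jt ⟨2 + k, hT⟩ hhpos.le hMh hJt0 hJtd
        (fun x y => JT2_symm J I Wn κ0 κl κw k x y) s1 s0 (rr k) hs0.le (hrr0 k) (hrow k hT)
        hsm0).2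
      rw [hcard, ← hZ, ← hn] at key1
      have k1 : E (2 + k) s1 ≤ E (2 + (k + 1)) s1 + n * (1 * s1 * rr k) * Z := by
        rw [hE]; exact key1
      have k2 : EB (2 + k) ≤ Real.exp (2 * 1 * s0 * rr k) * EB (2 + (k + 1)) := by
        rw [hEB]; exact key2
      rw [Finset.sum_range_succ]
      constructor
      · have : n * (s1 * (∑ j ∈ range k, rr j + rr k)) * Z =
          n * (s1 * ∑ j ∈ range k, rr j) * Z + n * (1 * s1 * rr k) * Z := by ring
        linarith
      · refine i2.trans ((mul_le_mul_of_nonneg_left k2 (Real.exp_nonneg _)).trans (le_of_eq ?_))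
        rw [← mul_assoc, ← Real.exp_add]
        congr 2
        ring
  have hkeepT := hkeep (d * I + Wn) le_rfl
  have hT' : 2 + (d * I + Wn) = 2 + d * I + Wn := by ring
  rw [hT'] at hkeepT
  have hEBT0 : 0 ≤ EB (2 + d * I + Wn) := by
    rw [hEB]; exact ev_nonneg hW fun _ => cnt_nonneg _
  have hstart : E 2 s0 ≤ E (2 + d * I + Wn) s1 +
      Real.exp (2 * s0 * P) * EB (2 + d * I + Wn) + n * (s1 * P) * Z := by
    have e1 : E 2 s0 ≤ E 2 s1 + EB 2 := by
      rw [hE, hEB]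
      change ev _ _ ≤ ev _ _ + ev _ _
      rw [← ev_add]
      refine ev_mono hW fun ω => cnt_le_add fun v hv => ?_
      rcases lt_or_ge (len (GG M (2 + d * I + Wn) 2 ω) v) s1 with h | h
      · exact Or.inl h
      · exact Or.inr ⟨h, hv⟩
    have e2 : n * (s1 * ∑ j ∈ range (d * I + Wn), rr j) * Z ≤ n * (s1 * P) * Z := by gcongr
    have e3 : Real.exp (2 * s0 * ∑ j ∈ range (d * I + Wn), rr j) * EB (2 + d * I + Wn) ≤
        Real.exp (2 * s0 * P) * EB (2 + d * I + Wn) := by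
      refine mul_le_mul_of_nonneg_right (Real.exp_le_exp.2 ?_) hEBT0
      have := mul_le_mul_of_nonneg_left hrrsum (by positivity : 0 ≤ 2 * s0)
      exact this
    linarith [hkeepT.1, hkeepT.2]
  obtain ⟨X, hX⟩ : ∃ X : ℝ, X = E (2 + d * I + Wn) s1 +
      Real.exp (2 * s0 * P) * EB (2 + d * I + Wn) := ⟨_, rfl⟩
  rw [← hX] at hstart
  -- levels
  have had : 0 < a / d := by positivity
  have had1 : a / d ≤ 1 := by rw [div_le_one hd0]; exact ha1
  have hElev : ∀ k ≤ d * I, E (2 + k) (s0 * 2 ^ ((k : ℝ) * (a / d))) ≤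
      X + n * (s1 * P +
        ∑ j ∈ range k, lvlErr2 d σ lam 1 1 ((L : ℝ) / 2 ^ I) δ
          (fun j => s0 * 2 ^ ((j : ℝ) * (a / d))) j) * Z := by
    intro k
    induction k with
    | zero =>
      intro _
      simpa using hstart
    | succ k ih =>
      intro hk
      have ih' := ih (by omega)
      have hkI : k < d * I := by omega
      have hkd : k / d < I := Nat.div_lt_of_lt_mul hkI
      obtain ⟨ℓ, hℓ⟩ : ∃ ℓ : ℝ, ℓ = (L : ℝ) / 2 ^ I * 2 ^ (k / d + 1) := ⟨_, rfl⟩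
      have hℓi : (L : ℝ) / 2 ^ (I - 1 - k / d) = ℓ := by rw [hℓ]; exact hside (k / d) hkd
      have hT : 2 + k < 2 + d * I + Wn := by omega
      have hs2 : (2 : ℝ) ^ ((k : ℝ) * (a / d)) ≤ 2 ^ (((k : ℝ) + 1) * (a / d)) :=
        Real.rpow_le_rpow_of_exponent_le (by norm_num)
          (mul_le_mul_of_nonneg_right (by linarith only) had.le)
      have hs3 : (2 : ℝ) ^ (((k : ℝ) + 1) * (a / d)) ≤ 2 * 2 ^ ((k : ℝ) * (a / d)) := by
        have : ((k : ℝ) + 1) * (a / d) = a / d + k * (a / d) := by ring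
        rw [this, Real.rpow_add (by norm_num)]
        have : (2 : ℝ) ^ (a / d) ≤ 2 ^ (1 : ℝ) :=
          Real.rpow_le_rpow_of_exponent_le (by norm_num) had1
        rw [Real.rpow_one] at this
        have h0 : (0 : ℝ) ≤ 2 ^ ((k : ℝ) * (a / d)) := by positivity
        exact mul_le_mul_of_nonneg_right this h0
      have key := growth2 hsl hst 1 h 1 Jt ⟨2 + k, hT⟩ (tblk (I - 1 - k / d)) one_pos hhpos.le hMh
        hJt0 hJtd (s0 * 2 ^ ((k : ℝ) * (a / d))) (s0 * 2 ^ (((k : ℝ) + 1) * (a / d))) (δ k)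
        (κl (I - 1 - k / d) / d) ((ℓ / 2) ^ d)
        (by positivity) (mul_le_mul_of_nonneg_left hs2 hs0.le)
        (by
          have h9 := mul_le_mul_of_nonneg_left hs3 hs0.le
          linarith only [h9]) (hδ _) (div_nonneg (hκlpos _) hd0.le)
        (fun x y => JT2_level J I Wn κ0 κl κw k hkI x y)
        (fun v => by
          have := (hbl d L (I - 1 - k / d)
            (h2i _ ((Nat.sub_le _ _).trans (Nat.sub_le _ _)))).1 v
          rw [hℓi] at this
          exact this)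
        (by have := hbj k; rw [← hℓ] at this; exact this)
        (hsmall _)
      rw [hm1, hcard, ← hZ, ← hn] at key
      have key2 : E (2 + (k + 1)) (s0 * 2 ^ ((((k + 1 : ℕ)) : ℝ) * (a / d))) ≤
          E (2 + k) (s0 * 2 ^ ((k : ℝ) * (a / d))) + n *
            lvlErr2 d σ lam 1 1 ((L : ℝ) / 2 ^ I) δ (fun j => s0 * 2 ^ ((j : ℝ) * (a / d))) k *
              Z := by
        rw [hE]
        have e0 : (((k + 1 : ℕ)) : ℝ) = (k : ℝ) + 1 := by push_cast; ring
        simp only [e0]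
        refine key.trans (le_of_eq ?_)
        congr 3
        unfold lvlErr2
        simp only [e0, ← hp, ← hℓ]
        have e3 : κl (I - 1 - k / d) = lam / 4 * ℓ ^ (-p) := by
          simp only [hκl, hℓi]
        rw [e3]
      refine key2.trans ?_
      rw [Finset.sum_range_succ]
      refine (add_le_add_left ih' _).trans (le_of_eq ?_)
      ring
  -- windows
  rw [← hn] at hw1
  have hEwin : ∀ k ≤ Wn, E (2 + d * I + k) (ε * n / 2 ^ (Wn - k)) ≤
      X + n * (s1 * P +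
        ∑ j ∈ range (d * I), lvlErr2 d σ lam 1 1 ((L : ℝ) / 2 ^ I) δ
          (fun j => s0 * 2 ^ ((j : ℝ) * (a / d))) j +
        ∑ m ∈ range k, winErr2 n 1 1 (δw (Wn - 1 - m)) (κw (Wn - 1 - m))
          (ε * n / 2 ^ (Wn - 1 - m))) * Z := by
    intro k
    induction k with
    | zero =>
      intro _
      have e1 : ((d * I : ℕ) : ℝ) * (a / d) = I * a := by
        push_cast; field_simp
      have h2 := hElev (d * I) le_rfl
      rw [e1] at h2
      have h1 : E (2 + d * I + 0) (ε * n / 2 ^ (Wn - 0)) ≤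
          E (2 + d * I) (s0 * 2 ^ ((I : ℝ) * a)) := by
        rw [hE]
        refine ev_mono hW fun ω => cnt_mono fun v hv => ?_
        exact lt_of_lt_of_le hv (by simpa using hw1)
      refine h1.trans ?_
      rw [Finset.sum_range_zero, add_zero]
      exact h2
    | succ k ih =>
      intro hk
      have ih' := ih (by omega)
      have hT : 2 + d * I + k < 2 + d * I + Wn := by omega
      obtain ⟨m, hm⟩ : ∃ m, m = Wn - 1 - k := ⟨_, rfl⟩
      have hm1' : Wn - (k + 1) = m := by omega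
      have hm2 : Wn - k = m + 1 := by omega
      rw [hm2] at ih'
      have hSm : ε * n / 2 ^ (m + 1) = ε * n / 2 ^ m / 2 := by rw [pow_succ]; field_simp
      rw [hSm] at ih'
      obtain ⟨S', hS'⟩ : ∃ S', S' = ε * n / 2 ^ m := ⟨_, rfl⟩
      have hS'0 : 0 < S' := by rw [hS']; positivity
      rw [← hS'] at ih'
      have key := growth2 hsl hst 1 h 1 Jt ⟨2 + d * I + k, hT⟩ (fun _ => ()) one_pos hhpos.le hMh
        hJt0 hJtd (S' / 2) S' (δw m) (κw m) n
        (by positivity) (by linarith) (by linarith) (hw3 m).2.1 (hw3 m).1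
        (fun x y => by
          change JT2 J I Wn κ0 κl κw (2 + d * I + k) x y = _
          rw [JT2_win, ← hm])
        (fun v => by
          rw [hn, ← hcard, ← cnt_true]
          exact cnt_mono fun _ _ => rfl)
        (by have := (hw3 m).2.2; rw [← hn, ← hS'] at this; exact this)
        (hsmall _)
      rw [hm1, hcard, ← hn, ← hZ] at key
      rw [hm1', ← hS', Finset.sum_range_succ, ← hm, ← hS']
      have key2 : E (2 + d * I + (k + 1)) S' ≤ E (2 + d * I + k) (S' / 2) +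
          n * winErr2 n 1 1 (δw m) (κw m) S' * Z := by
        rw [hE]
        exact key
      refine key2.trans ?_
      refine (add_le_add_left ih' _).trans (le_of_eq ?_)
      ring
  have hfin := hEwin Wn le_rfl
  rw [Nat.sub_self, pow_zero, div_one] at hfin
  have hrefl : ∑ m ∈ range Wn, winErr2 n 1 1 (δw (Wn - 1 - m)) (κw (Wn - 1 - m))
          (ε * n / 2 ^ (Wn - 1 - m)) = ∑ m ∈ range Wn, winErr2 n 1 1 (δw m) (κw m)
          (ε * n / 2 ^ m) :=
    Finset.sum_range_reflect (fun m => winErr2 n 1 1 (δw m) (κw m) (ε * n / 2 ^ m)) Wn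
  rw [hrefl, hX, hE, hEB] at hfin
  rw [← hl, ← hP, ← hZ, ← hn, hl]
  exact hfin

end Pool.Agent.W805.PD
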