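import Pool.Agent.W805.LR.Main2
import Pool.Agent.W29.LR.CV
import Pool.Agent.W174.LR.MC
import Pool.Agent.W174.LR.TI
import Pool.Agent.W762.LR.QS

set_option autoImplicit false

namespace Pool.Agent.W805.LR

open Finset Equiv Filter Topology

section law

variable {V : Type} [Fintype V] [DecidableEq V]

/-- `ringSum` as a sum over words. -/
lemma sum_words (J : V → V → ℝ) (n : ℕ) : ∀ g : Perm V, ringSum J n g =
    ∑ w : Fin n → V × V, (∏ i, J (w i).1 (w i).2 / 2) *
      (if (List.ofFn fun i => swap (w i).1 (w i).2).prod = g then 1 else 0) := by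
  induction n with
  | zero =>
    intro g
    simp only [ringSum, Fintype.sum_unique, Finset.univ_eq_empty, Finset.prod_empty, one_mul,
      List.ofFn_zero, List.prod_nil]
    by_cases h : g = 1
    · rw [if_pos h, if_pos h.symm]
    · rw [if_neg h, if_neg (Ne.symm h)]
  | succ n ih =>
    intro g
    rw [← (Fin.consEquiv (fun _ : Fin (n + 1) => V × V)).sum_comp, Fintype.sum_prod_type,
      Fintype.sum_prod_type]
    simp only [ringSum]
    refine Finset.sum_congr rfl fun x _ => Finset.sum_congr rfl fun y _ => ?_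
    rw [ih, Finset.mul_sum]
    refine Finset.sum_congr rfl fun w _ => ?_
    have e1 : (Fin.consEquiv (fun _ : Fin (n + 1) => V × V)) ((x, y), w) =
        Fin.cons (x, y) w := rfl
    rw [e1, Fin.prod_univ_succ, List.ofFn_succ, List.prod_cons]
    simp only [Fin.cons_zero, Fin.cons_succ]
    have e2 : (List.ofFn fun i => swap (w i).1 (w i).2).prod = swap x y * g ↔
        swap x y * (List.ofFn fun i => swap (w i).1 (w i).2).prod = g := by
      constructor
      · intro h; rw [h, ← mul_assoc, swap_mul_self, one_mul]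
      · intro h; rw [← h, ← mul_assoc, swap_mul_self, one_mul]
    simp only [e2]
    ring

lemma sum_ringSum (J : V → V → ℝ) (m : ℕ) :
    ∑ g, ringSum J m g = (∑ x, ∑ y, J x y / 2) ^ m := by
  induction m with
  | zero => simp [ringSum]
  | succ m ih =>
    simp only [ringSum]
    rw [Finset.sum_comm, pow_succ', Finset.sum_mul]
    refine Finset.sum_congr rfl fun x _ => ?_
    rw [Finset.sum_comm, Finset.sum_mul]
    refine Finset.sum_congr rfl fun y _ => ?_
    rw [← Finset.mul_sum, ← ih]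
    congr 1
    exact Equiv.sum_comp (Equiv.mulLeft (swap x y)) (fun g => ringSum J m g)

lemma sum_mass (J : V → V → ℝ) (t : ℝ) :
    ∑ g, stirMass J t g = Real.exp (t * ∑ x, ∑ y, J x y / 2) := by
  unfold stirMass
  rw [← Summable.tsum_finsetSum fun g _ => Pool.Agent.W762.LR.QS.summ J t g]
  have h1 : ∀ m : ℕ, ∑ g, t ^ m / (m.factorial : ℝ) * ringSum J m g =
      (t * ∑ x, ∑ y, J x y / 2) ^ m / (m.factorial : ℝ) := by
    intro m
    rw [← Finset.mul_sum, sum_ringSum, mul_pow]
    ring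
  simp only [h1]
  rw [Real.exp_eq_exp_ℝ, NormedSpace.exp_eq_tsum_div]

lemma series_eq (J : V → V → ℝ) (t : ℝ) (g : Perm V) :
    ∑' n : ℕ, Real.exp (-(t * ∑ x, ∑ y, J x y / 2)) * t ^ n / (n.factorial : ℝ) *
      ∑ w : Fin n → V × V, (∏ i, J (w i).1 (w i).2 / 2) *
        (if (List.ofFn fun i => swap (w i).1 (w i).2).prod = g then 1 else 0) =
      Real.exp (-(t * ∑ x, ∑ y, J x y / 2)) * stirMass J t g := by
  unfold stirMass
  rw [← tsum_mul_left]
  refine tsum_congr fun n => ?_
  rw [sum_words]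
  ring

end law

section dist

variable {d L : ℕ} [NeZero L]

lemma valMinAbs_sub_le (x y : ZMod L) :
    (x - y).valMinAbs.natAbs ≤ ((x.val : ℤ) - y.val).natAbs := by
  rw [ZMod.valMinAbs_natAbs_eq_min]
  have hx := ZMod.val_lt x
  have hy := ZMod.val_lt y
  rcases le_total y.val x.val with h | h
  · have h1 : (x - y).val = x.val - y.val := ZMod.val_sub h
    rw [h1]
    omega
  · have h1 : (y - x).val = y.val - x.val := ZMod.val_sub h
    rcases eq_or_ne x y with rfl | hne
    · simp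
    · have hne' : y - x ≠ 0 := sub_ne_zero.2 hne.symm
      have : NeZero (y - x) := ⟨hne'⟩
      have h2 : (x - y).val = L - (y - x).val := by
        rw [← neg_sub y x, ZMod.val_neg_of_ne_zero]
      rw [h2, h1]
      omega

lemma tdist_le_bdist (x y : Fin d → ZMod L) : tdist x y ≤ bdist x y :=
  Finset.sup_mono_fun fun a _ => valMinAbs_sub_le (x a) (y a)

lemma tdist_pos {x y : Fin d → ZMod L} (h : x ≠ y) : 1 ≤ tdist x y := by
  obtain ⟨a, ha⟩ := Function.ne_iff.1 h
  have h1 : 1 ≤ (x a - y a).valMinAbs.natAbs := by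
    rw [Nat.one_le_iff_ne_zero, Int.natAbs_ne_zero]
    intro h2
    rw [ZMod.valMinAbs_eq_zero] at h2
    exact ha (sub_eq_zero.1 h2)
  exact h1.trans (Finset.le_sup (f := fun a => (x a - y a).valMinAbs.natAbs) (Finset.mem_univ a))

/-- Rates bounded below in terms of the distance on the torus. -/
lemma isRate2_of_tdist {σ lam : ℝ} (hσ : 0 < σ) (hlam : 0 < lam)
    {J : (Fin d → ZMod L) → (Fin d → ZMod L) → ℝ} (h1 : ∀ x y, J x y = J y x)
    (h2 : ∀ x, J x x = 0)
    (h3 : ∀ x y, x ≠ y → lam * (tdist x y : ℝ) ^ (-((d : ℝ) + σ)) ≤ J x y) :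
    IsRate2 d L σ lam J := by
  refine ⟨h1, h2, fun x y hxy => le_trans ?_ (h3 x y hxy)⟩
  have h4 : (0 : ℝ) < tdist x y := by exact_mod_cast tdist_pos hxy
  have h5 : (tdist x y : ℝ) ≤ bdist x y := by exact_mod_cast tdist_le_bdist x y
  exact mul_le_mul_of_nonneg_left
    (Real.rpow_le_rpow_of_nonpos h4 h5 (by have : (0 : ℝ) ≤ d := by positivity
                                           linarith)) hlam.le

lemma bdist_lt (x y : Fin d → ZMod L) : bdist x y ≤ L := by
  unfold bdist
  refine Finset.sup_le fun a _ => ?_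
  have h1 := ZMod.val_lt (x a)
  have h2 := ZMod.val_lt (y a)
  omega

end dist

section many

variable {V : Type} [Fintype V] [DecidableEq V]

/-- One more cycle. -/
lemma many_step (J : V → V → ℝ) (t κ θ s : ℝ) (k : ℕ) (hJ : ∀ x y, 0 ≤ J x y) (ht : 0 ≤ t)
    (hκ : 0 ≤ κ) (hθ : 0 < θ) (hs : 8 ≤ s) (hk : 1 ≤ k) :
    t * κ * s ^ 2 / (8 * max θ θ⁻¹) * ∑ g, stirMass J t g * θ ^ cyc g *
        (open Classical in if manyCyc g k s then 1 else 0) ≤
      ∑ g, stirMass (fun x y => J x y + if x ≠ y then κ else 0) t g * θ ^ cyc g *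
        (open Classical in if manyCyc g (k + 1) (s / 4) then 1 else 0) := by
  classical
  obtain ⟨h1, -⟩ := Pool.Agent.W29.LR.CV.main V J t κ θ hJ ht hκ hθ
  have hΘ : 0 < max θ θ⁻¹ := lt_of_lt_of_le hθ (le_max_left _ _)
  have hm : ∀ g, 0 ≤ stirMass J t g := Pool.Agent.W29.LR.CV.stirMass_nonneg J hJ t ht
  have hθc : ∀ (h : Perm V) (x y : V), x ≠ y → θ ^ cyc h ≤ max θ θ⁻¹ * θ ^ cyc (swap x y * h) := by
    intro h x y hxy
    have hxy' : h⁻¹ x ≠ h⁻¹ y := fun e => hxy (h⁻¹.injective e)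
    have h3 := Pool.Agent.W29.LR.CV.cyc_bound θ hθ (swap x y * h) (h⁻¹ x) (h⁻¹ y) hxy'
    have h4 : swap x y * h * swap (h⁻¹ x) (h⁻¹ y) = h := by
      have e0 : ∀ z, h (h⁻¹ z) = z := fun z => h.apply_symm_apply z
      rw [Equiv.mul_swap_eq_swap_mul]
      simp only [Perm.mul_apply, e0, swap_apply_left, swap_apply_right]
      rw [← mul_assoc, swap_comm y x, swap_mul_self, one_mul]
    rw [h4] at h3
    exact h3
  -- lower bound by one additional transposition
  have step1 : ∑ g, (∑ x, ∑ y, (if x ≠ y then t * κ / 2 * stirMass J t (swap x y * g) else 0)) *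
      θ ^ cyc g * (if manyCyc g (k + 1) (s / 4) then 1 else 0) ≤
      ∑ g, stirMass (fun x y => J x y + if x ≠ y then κ else 0) t g * θ ^ cyc g *
        (if manyCyc g (k + 1) (s / 4) then 1 else 0) := by
    refine Finset.sum_le_sum fun g _ => ?_
    have h5 := h1 g
    have h6 := hm g
    refine mul_le_mul_of_nonneg_right (mul_le_mul_of_nonneg_right (by linarith) (by positivity)) ?_
    split_ifs <;> norm_num
  refine le_trans ?_ step1
  have e1 : ∑ g, (∑ x, ∑ y, (if x ≠ y then t * κ / 2 * stirMass J t (swap x y * g) else 0)) *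
      θ ^ cyc g * (if manyCyc g (k + 1) (s / 4) then 1 else 0) =
      ∑ h, ∑ x, ∑ y, (if x ≠ y then t * κ / 2 * stirMass J t h * θ ^ cyc (swap x y * h) *
        (if manyCyc (swap x y * h) (k + 1) (s / 4) then 1 else 0) else 0) := by
    simp only [Finset.sum_mul]
    rw [Finset.sum_comm]
    conv_rhs => rw [Finset.sum_comm]
    refine Finset.sum_congr rfl fun x _ => ?_
    rw [Finset.sum_comm]
    conv_rhs => rw [Finset.sum_comm]
    refine Finset.sum_congr rfl fun y _ => ?_
    rw [← Equiv.sum_comp (Equiv.mulLeft (swap x y)) (fun h => (if x ≠ y then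
      t * κ / 2 * stirMass J t h * θ ^ cyc (swap x y * h) *
        (if manyCyc (swap x y * h) (k + 1) (s / 4) then (1 : ℝ) else 0) else 0))]
    refine Finset.sum_congr rfl fun g _ => ?_
    have e2 : swap x y * (swap x y * g) = g := by rw [← mul_assoc, swap_mul_self, one_mul]
    simp only [Equiv.coe_mulLeft, e2]
    split_ifs <;> ring
  rw [e1, Finset.mul_sum]
  refine Finset.sum_le_sum fun h _ => ?_
  by_cases hmc : manyCyc h k s
  · rw [if_pos hmc, mul_one]
    have h7 := Pool.Agent.W174.LR.MC.main V h k s hs hk hmc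
    have h8 : ∑ x, (cnt fun y => x ≠ y ∧ manyCyc (swap x y * h) (k + 1) (s / 4)) *
        (t * κ / 2 * stirMass J t h * (θ ^ cyc h / max θ θ⁻¹)) ≤
        ∑ x, ∑ y, (if x ≠ y then t * κ / 2 * stirMass J t h * θ ^ cyc (swap x y * h) *
        (if manyCyc (swap x y * h) (k + 1) (s / 4) then 1 else 0) else 0) := by
      refine Finset.sum_le_sum fun x _ => ?_
      unfold cnt
      rw [Finset.sum_mul]
      refine Finset.sum_le_sum fun y _ => ?_
      by_cases hxy : x ≠ y
      · by_cases hc : manyCyc (swap x y * h) (k + 1) (s / 4)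
        · rw [if_pos ⟨hxy, hc⟩, if_pos hxy, if_pos hc, one_mul, mul_one]
          refine mul_le_mul_of_nonneg_left ?_ (mul_nonneg (by positivity) (hm h))
          rw [div_le_iff₀ hΘ, mul_comm]
          exact hθc h x y hxy
        · rw [if_neg (fun e => hc e.2), if_pos hxy, if_neg hc, zero_mul, mul_zero]
      · rw [if_neg (fun e => hxy e.1), if_neg hxy, zero_mul]
    refine le_trans ?_ h8
    rw [← Finset.sum_mul]
    have h9 : 0 ≤ t * κ / 2 * stirMass J t h * (θ ^ cyc h / max θ θ⁻¹) :=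
      mul_nonneg (mul_nonneg (by positivity) (hm h)) (by positivity)
    refine le_trans (le_of_eq ?_) (mul_le_mul_of_nonneg_right h7 h9)
    field_simp
    ring
  · rw [if_neg hmc, mul_zero, mul_zero]
    refine Finset.sum_nonneg fun x _ => Finset.sum_nonneg fun y _ => ?_
    split_ifs
    · have := hm h
      positivity
    · have := hm h
      positivity
    · exact le_rfl

lemma cnt_short_ge (g : Perm V) (s : ℝ) (h : ¬ manyCyc g 1 s) :
    (Fintype.card V : ℝ) ≤ cnt fun v => len g v < s := by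
  rw [← cnt_true]
  refine cnt_mono fun v _ => ?_
  by_contra hv
  exact h ⟨fun _ => v, fun a b hab => absurd (Subsingleton.elim a b) hab, fun _ => not_lt.1 hv⟩

end many

lemma card_torus (d L : ℕ) [NeZero L] : (Fintype.card (Fin d → ZMod L) : ℝ) = (L : ℝ) ^ d := by
  rw [Fintype.card_fun, ZMod.card, Fintype.card_fin]; push_cast; rfl

/-- Weaker lower bounds. -/
lemma IsRate2.mono {d L : ℕ} [NeZero L] {σ lam mu : ℝ}
    {J : (Fin d → ZMod L) → (Fin d → ZMod L) → ℝ} (h : IsRate2 d L σ mu J) (hm : lam ≤ mu) :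
    IsRate2 d L σ lam J := by
  refine ⟨h.1, h.2.1, fun x y hxy => le_trans ?_ (h.2.2 x y hxy)⟩
  exact mul_le_mul_of_nonneg_right hm (by positivity)

lemma IsRate2.nonneg {d L : ℕ} [NeZero L] {σ lam : ℝ} (hlam : 0 < lam)
    {J : (Fin d → ZMod L) → (Fin d → ZMod L) → ℝ} (h : IsRate2 d L σ lam J) (x y) :
    0 ≤ J x y := by
  rcases eq_or_ne x y with rfl | hxy
  · rw [h.2.1]
  · exact le_trans (by positivity) (h.2.2 x y hxy)

/-- Many macroscopic cycles. -/
theorem many_main (d : ℕ) (σ lam θ : ℝ) (hd : 1 ≤ d) (hσ : 0 < σ) (hσd : σ < d) (hlam : 0 < lam)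
    (hθ : 0 < θ) :
    ∃ t1 > 0, ∀ k : ℕ, ∃ ε > 0, ∃ c > 0, ∀ t ≥ t1, ∃ L0 : ℕ, ∀ (L : ℕ) [NeZero L], L0 ≤ L →
      ∀ J : (Fin d → ZMod L) → (Fin d → ZMod L) → ℝ, IsRate2 d L σ lam J →
        c * ∑ g, stirMass J t g * θ ^ cyc g ≤
          ∑ g, stirMass J t g * θ ^ cyc g *
            (open Classical in if manyCyc g (k + 1) (ε * (L : ℝ) ^ d) then 1 else 0) := by
  classical
  obtain ⟨t1, ht1, ε1, hε1, hmain⟩ := main2_thm d σ (lam / 2) θ (1 / 2) hd hσ hσd (by positivity) hθ
    (by norm_num)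
  have hΘ : 0 < max θ θ⁻¹ := lt_of_lt_of_le hθ (le_max_left _ _)
  refine ⟨t1, ht1, ?_⟩
  have key : ∀ k : ℕ, ∃ ε > 0, ∃ c > 0, ∀ t ≥ t1, ∀ mu > lam / 2, ∃ L0 : ℕ,
      ∀ (L : ℕ) [NeZero L], L0 ≤ L →
      ∀ J : (Fin d → ZMod L) → (Fin d → ZMod L) → ℝ, IsRate2 d L σ mu J →
        c * ∑ g, stirMass J t g * θ ^ cyc g ≤
          ∑ g, stirMass J t g * θ ^ cyc g *
            (if manyCyc g (k + 1) (ε * (L : ℝ) ^ d) then 1 else 0) := by
    intro k
    induction k with
    | zero =>
      refine ⟨ε1, hε1, 1 / 2, by norm_num, fun t ht mu hmu => ?_⟩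
      obtain ⟨L0, hL0⟩ := hmain t ht
      refine ⟨L0, fun L _ hL J hJ => ?_⟩
      have h1 := hL0 L hL J (hJ.mono hmu.le)
      have hmu0 : 0 < mu := by linarith
      have ht0 : 0 < t := lt_of_lt_of_le ht1 ht
      have hm : ∀ g, 0 ≤ stirMass J t g :=
        Pool.Agent.W29.LR.CV.stirMass_nonneg J (hJ.nonneg hmu0) t ht0.le
      have hLpos : (0 : ℝ) < L := by exact_mod_cast Nat.pos_of_ne_zero (NeZero.ne L)
      have hN : (0 : ℝ) < (L : ℝ) ^ d := by positivity
      have h2 : ∑ g, stirMass J t g * θ ^ cyc g *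
          ((1 - if manyCyc g (0 + 1) (ε1 * (L : ℝ) ^ d) then 1 else 0) * (L : ℝ) ^ d) ≤
          ∑ g, stirMass J t g * θ ^ cyc g * (cnt fun v => len g v < ε1 * (L : ℝ) ^ d) := by
        refine Finset.sum_le_sum fun g _ => ?_
        refine mul_le_mul_of_nonneg_left ?_ (mul_nonneg (hm g) (by positivity))
        split_ifs with hc
        · rw [sub_self, zero_mul]; exact cnt_nonneg _
        · rw [sub_zero, one_mul]
          have := cnt_short_ge g _ hc
          rw [card_torus d L] at this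
          exact this
      have h3 : ∑ g, stirMass J t g * θ ^ cyc g *
          ((1 - if manyCyc g (0 + 1) (ε1 * (L : ℝ) ^ d) then 1 else 0) * (L : ℝ) ^ d) =
          (L : ℝ) ^ d * (∑ g, stirMass J t g * θ ^ cyc g - ∑ g, stirMass J t g * θ ^ cyc g *
            (if manyCyc g (0 + 1) (ε1 * (L : ℝ) ^ d) then 1 else 0)) := by
        rw [← Finset.sum_sub_distrib, Finset.mul_sum]
        refine Finset.sum_congr rfl fun g _ => ?_
        ring
      rw [h3] at h2
      have h4 := h2.trans h1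
      have h5 : (L : ℝ) ^ d * (∑ g, stirMass J t g * θ ^ cyc g - ∑ g, stirMass J t g * θ ^ cyc g *
            (if manyCyc g (0 + 1) (ε1 * (L : ℝ) ^ d) then 1 else 0)) ≤
          (L : ℝ) ^ d * (1 / 2 * ∑ g, stirMass J t g * θ ^ cyc g) := by
        refine h4.trans (le_of_eq ?_)
        ring
      have h6 := le_of_mul_le_mul_left h5 hN
      linarith
    | succ k ih =>
      obtain ⟨ε, hε, c, hc, hih⟩ := ih
      refine ⟨ε / 4, by positivity, ε ^ 2 * c * Real.exp (-(max θ θ⁻¹ / 2)) / (8 * max θ θ⁻¹),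
        by positivity, fun t ht mu hmu => ?_⟩
      have ht0 : 0 < t := lt_of_lt_of_le ht1 ht
      obtain ⟨mu', hmu'⟩ : ∃ mu', mu' = (mu + lam / 2) / 2 := ⟨_, rfl⟩
      have hmu1 : lam / 2 < mu' := by rw [hmu']; linarith
      have hmu2 : mu' < mu := by rw [hmu']; linarith
      obtain ⟨L0, hL0⟩ := hih t ht mu' hmu1
      -- large sizes
      have hlim : Tendsto (fun L : ℕ => ε * (L : ℝ) ^ d) atTop atTop := by
        refine Tendsto.const_mul_atTop hε ?_
        exact (tendsto_pow_atTop (by omega)).comp tendsto_natCast_atTop_atTop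
      have hlim2 : Tendsto (fun L : ℕ => (mu - mu') * t * (L : ℝ) ^ ((d : ℝ) - σ)) atTop atTop := by
        refine Tendsto.const_mul_atTop (mul_pos (by linarith) ht0) ?_
        exact (tendsto_rpow_atTop (by linarith)).comp tendsto_natCast_atTop_atTop
      obtain ⟨L1, hL1⟩ := Filter.eventually_atTop.1
        ((hlim.eventually_ge_atTop 8).and (hlim2.eventually_ge_atTop 1))
      refine ⟨max L0 L1, fun L _ hL J hJ => ?_⟩
      have hLpos : (0 : ℝ) < L := by exact_mod_cast Nat.pos_of_ne_zero (NeZero.ne L)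
      have hN : (0 : ℝ) < (L : ℝ) ^ d := by positivity
      obtain ⟨h8, h1'⟩ := hL1 L ((le_max_right _ _).trans hL)
      obtain ⟨κ, hκ⟩ : ∃ κ : ℝ, κ = 1 / (t * ((L : ℝ) ^ d) ^ 2) := ⟨_, rfl⟩
      have hκ0 : 0 < κ := by rw [hκ]; positivity
      have hmu'0 : 0 < mu' := by linarith
      -- the smaller rates
      have hJ' : IsRate2 d L σ mu' (fun x y => J x y - if x ≠ y then κ else 0) := by
        refine ⟨fun x y => ?_, fun x => ?_, fun x y hxy => ?_⟩
        · simp only [hJ.1 x y, ne_comm (a := x) (b := y)]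
        · simp only [hJ.2.1, ne_eq, not_true_eq_false, if_false, sub_self]
        · beta_reduce
          rw [if_pos hxy]
          have h2 := hJ.2.2 x y hxy
          have h3 : (0 : ℝ) < bdist x y := by exact_mod_cast bdist_pos hxy
          have h4 : (bdist x y : ℝ) ≤ L := by exact_mod_cast bdist_lt x y
          have h5 := Real.rpow_le_rpow_of_nonpos h3 h4
            (by have : (0 : ℝ) ≤ d := by positivity
                linarith : -((d : ℝ) + σ) ≤ 0)
          have h6 : κ ≤ (mu - mu') * (L : ℝ) ^ (-((d : ℝ) + σ)) := by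
            rw [hκ, div_le_iff₀ (by positivity)]
            have e1 : (L : ℝ) ^ (-((d : ℝ) + σ)) * ((L : ℝ) ^ d) ^ 2 =
                (L : ℝ) ^ ((d : ℝ) - σ) := by
              rw [← Real.rpow_natCast (L : ℝ) d, ← Real.rpow_natCast ((L : ℝ) ^ (d : ℝ)) 2,
                ← Real.rpow_mul hLpos.le, ← Real.rpow_add hLpos]
              congr 1; push_cast; ring
            calc (1 : ℝ) ≤ (mu - mu') * t * (L : ℝ) ^ ((d : ℝ) - σ) := h1'
              _ = _ := by rw [← e1]; ring
          have h7 : (mu - mu') * (L : ℝ) ^ (-((d : ℝ) + σ)) ≤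
              (mu - mu') * (bdist x y : ℝ) ^ (-((d : ℝ) + σ)) :=
            mul_le_mul_of_nonneg_left h5 (by linarith)
          nlinarith
      have hJ'0 := hJ'.nonneg hmu'0
      have hJeq : (fun x y => (J x y - if x ≠ y then κ else 0) + if x ≠ y then κ else 0) = J := by
        funext x y; ring
      have hind := hL0 L ((le_max_left _ _).trans hL) _ hJ'
      have hstep := many_step (fun x y => J x y - if x ≠ y then κ else 0) t κ θ
        (ε * (L : ℝ) ^ d) (k + 1) hJ'0 ht0.le hκ0.le hθ h8 (by omega)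
      have hconv := (Pool.Agent.W29.LR.CV.main (Fin d → ZMod L)
        (fun x y => J x y - if x ≠ y then κ else 0) t κ θ hJ'0 ht0.le hκ0.le hθ).2
      simp only [hJeq] at hstep hconv
      rw [card_torus] at hconv
      have e2 : max θ θ⁻¹ * t * κ * ((L : ℝ) ^ d) ^ 2 / 2 = max θ θ⁻¹ / 2 := by
        rw [hκ]; field_simp
      have e3 : t * κ * (ε * (L : ℝ) ^ d) ^ 2 / (8 * max θ θ⁻¹) = ε ^ 2 / (8 * max θ θ⁻¹) := by
        rw [hκ]; field_simp
      rw [e2] at hconv
      rw [e3] at hstep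
      have e4 : ε / 4 * (L : ℝ) ^ d = ε * (L : ℝ) ^ d / 4 := by ring
      rw [e4]
      refine le_trans ?_ hstep
      have h10 : ε ^ 2 / (8 * max θ θ⁻¹) * (c * ∑ g, stirMass (fun x y => J x y - if x ≠ y then κ else 0) t g * θ ^ cyc g) ≤ ε ^ 2 / (8 * max θ θ⁻¹) * ∑ g, stirMass (fun x y => J x y - if x ≠ y then κ else 0) t g * θ ^ cyc g * (if manyCyc g (k + 1) (ε * (L : ℝ) ^ d) then 1 else 0) :=
        mul_le_mul_of_nonneg_left hind (by positivity)
      refine le_trans ?_ h10
      have h11 : Real.exp (-(max θ θ⁻¹ / 2)) * ∑ g, stirMass J t g * θ ^ cyc g ≤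
          ∑ g, stirMass (fun x y => J x y - if x ≠ y then κ else 0) t g * θ ^ cyc g := by
        have h12 := mul_le_mul_of_nonneg_left hconv (Real.exp_pos (-(max θ θ⁻¹ / 2))).le
        rw [← mul_assoc, ← Real.exp_add, neg_add_cancel, Real.exp_zero, one_mul] at h12
        exact h12
      have h13 : 0 ≤ ε ^ 2 / (8 * max θ θ⁻¹) * c := by positivity
      have h14 := mul_le_mul_of_nonneg_left h11 h13
      refine le_trans (le_of_eq ?_) (h14.trans (le_of_eq ?_))
      · ring
      · ring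
  intro k
  obtain ⟨ε, hε, c, hc, h⟩ := key k
  refine ⟨ε, hε, c, hc, fun t ht => ?_⟩
  exact h t ht lam (by linarith)

end Pool.Agent.W805.LR
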