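import Mathlib

/-!
# Random stirring with long-range rates: definitions

`len g v` is the length of the cycle of `g` through `v`, `cyc g` the number of cycles of `g`,
`stirMass J t g` is `exp (t * total rate)` times the probability that the stirring process with
rates `J x y` (one Poisson clock of rate `J x y` for every unordered pair) is at `g` at time `t`.
-/

set_option autoImplicit false

namespace Pool.Agent.W805.LR

open Finset Equiv

section basic

variable {V : Type} [Fintype V] [DecidableEq V]

/-- The number of elements with property `P`, as a real number. -/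
noncomputable def cnt {V : Type} [Fintype V] (P : V → Prop) : ℝ :=
  open Classical in ∑ v, if P v then (1 : ℝ) else 0

/-- Length of the cycle of `g` through `v`. -/
noncomputable def len (g : Perm V) (v : V) : ℝ := cnt fun w => g.SameCycle v w

/-- The number of cycles of `g` (fixed points included). -/
noncomputable def cyc (g : Perm V) : ℕ := Nat.card (Quotient (Perm.SameCycle.setoid g))

/-- `u` and `w` lie at distance less than `s` along the same cycle of `g`. -/
def near (g : Perm V) (s : ℝ) (u w : V) : Prop :=
  ∃ k : ℕ, 0 < k ∧ (k : ℝ) < s ∧ ((g ^ k) u = w ∨ (g ^ k) w = u)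

/-- The permutation of one slot: nothing or a transposition. -/
def tau : Option (V × V) → Perm V
  | none => 1
  | some e => swap e.1 e.2

/-- Sum over all sequences of `m` ordered pairs, with weights `J / 2`, whose transpositions have
product `g`. -/
noncomputable def ringSum (J : V → V → ℝ) : ℕ → Perm V → ℝ
  | 0 => fun g => open Classical in if g = 1 then 1 else 0
  | m + 1 => fun g => ∑ x, ∑ y, J x y / 2 * ringSum J m (swap x y * g)

/-- `exp (t * R)` times the probability that stirring with rates `J` is at `g` at time `t`, where
`R` is the total rate. -/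
noncomputable def stirMass (J : V → V → ℝ) (t : ℝ) (g : Perm V) : ℝ :=
  ∑' m : ℕ, t ^ m / (m.factorial : ℝ) * ringSum J m g

end basic

section slots

variable {V K : Type} [Fintype V] [DecidableEq V]

/-- Ordered product of the slots of the list `l` that belong to `S`. -/
noncomputable def prodS (l : List K) (S : K → Prop) (ω : K → Option (V × V)) : Perm V :=
  open Classical in (l.map fun a => if S a then tau (ω a) else 1).prod

/-- Unnormalised expectation. -/
noncomputable def ev [Fintype K] [DecidableEq K] (W : (K → Option (V × V)) → ℝ)
    (F : (K → Option (V × V)) → ℝ) : ℝ := ∑ ω, W ω * F ω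

/-- A stage: `M` slots `a i` are switched on one after the other; `g i` is the permutation after
`i` of them, `w` the weight of a pair in one slot, `W` the weight of a configuration.  Changing
one slot from nothing to a pair `(x, y)` changes `W` by a factor in `[w x y / Θ, Θ * w x y]`. -/
structure IsStage {ι : Type} [DecidableEq K] (Θ : ℝ) (W : (K → Option (V × V)) → ℝ)
    (w : V → V → ℝ) (blk : V → ι) (M : ℕ) (a : Fin M → K)
    (g : ℕ → (K → Option (V × V)) → Perm V) (c : Fin M → (K → Option (V × V)) → Perm V) :
    Prop where
  W_nonneg : ∀ ω, 0 ≤ W ω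
  w_nonneg : ∀ x y, 0 ≤ w x y
  w_diag : ∀ x, w x x = 0
  step : ∀ (i : Fin M) (ω : K → Option (V × V)),
    g (i.val + 1) ω = c i ω * tau (ω (a i)) * (c i ω)⁻¹ * g i.val ω
  g_indep : ∀ (i : Fin M) (k : ℕ), k ≤ i.val → ∀ (ω : K → Option (V × V)) (o : Option (V × V)),
    g k (Function.update ω (a i) o) = g k ω
  c_indep : ∀ (i : Fin M) (ω : K → Option (V × V)) (o : Option (V × V)),
    c i (Function.update ω (a i) o) = c i ω
  up : ∀ (i : Fin M) (ω : K → Option (V × V)) (x y : V),
    W (Function.update ω (a i) (some (x, y))) ≤ Θ * w x y * W (Function.update ω (a i) none)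
  low : ∀ (i : Fin M) (ω : K → Option (V × V)) (x y : V),
    w x y * W (Function.update ω (a i) none) ≤ Θ * W (Function.update ω (a i) (some (x, y)))
  g_blk : ∀ ω, W ω ≠ 0 → ∀ i : ℕ, i ≤ M → ∀ v, blk (g i ω v) = blk v
  c_blk : ∀ ω, W ω ≠ 0 → ∀ (i : Fin M) (v : V), blk (c i ω v) = blk v

/-- The weight of the content of one slot. -/
noncomputable def wt {M T : ℕ} (h : ℝ) (Jt : Fin T → V → V → ℝ) (a : Fin M × Fin T) :
    Option (V × V) → ℝ
  | none => 1
  | some e => h * Jt a.2 e.1 e.2 / 2

/-- The slots in time order: `M` time steps, in each of them one slot for each of the `T` types. -/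
def slots (M T : ℕ) : List (Fin M × Fin T) :=
  (List.finRange M).flatMap fun i => (List.finRange T).map fun j => (i, j)

/-- The weight of a configuration. -/
noncomputable def confW {M T : ℕ} (θ h : ℝ) (Jt : Fin T → V → V → ℝ)
    (ω : Fin M × Fin T → Option (V × V)) : ℝ :=
  (∏ a, wt h Jt a (ω a)) * θ ^ cyc (prodS (slots M T) (fun _ => True) ω)

end slots

section torus

variable {d L : ℕ} [NeZero L]

/-- Sup-distance on the discrete torus `(ℤ / L)^d`. -/
def tdist (x y : Fin d → ZMod L) : ℕ := univ.sup fun a => (x a - y a).valMinAbs.natAbs

/-- Index of the block of level `i` (there are `2^i` intervals in every direction). -/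
def tblk (i : ℕ) (x : Fin d → ZMod L) : Fin d → ℕ := fun a => (x a).val * 2 ^ i / L

end torus

end Pool.Agent.W805.LR
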