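import Pool.Agent.W805.LR.Stm7
import Pool.Agent.W805.LR.Cons
import Pool.Agent.W29.LR.CV

/-!
# Expectations for stirring
-/

set_option autoImplicit false

namespace Pool.Agent.W805.PD

open Finset Equiv Filter Topology
open Pool.Agent.W805.LR

section ee

variable {V : Type} [Fintype V] [DecidableEq V] (J : V → V → ℝ) (t : ℝ)

lemma mass_pos : 0 < ∑ g, stirMass J t g := by rw [sum_mass]; exact Real.exp_pos _

lemma EE_add (F G : Perm V → ℝ) : EE J t (fun g => F g + G g) = EE J t F + EE J t G := by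
  unfold EE
  rw [← add_div, ← Finset.sum_add_distrib]
  congr 1
  exact Finset.sum_congr rfl fun g _ => by ring

lemma EE_sub (F G : Perm V → ℝ) : EE J t (fun g => F g - G g) = EE J t F - EE J t G := by
  unfold EE
  rw [← sub_div, ← Finset.sum_sub_distrib]
  congr 1
  exact Finset.sum_congr rfl fun g _ => by ring

lemma EE_mul (c : ℝ) (F : Perm V → ℝ) : EE J t (fun g => c * F g) = c * EE J t F := by
  unfold EE
  rw [mul_div_assoc', Finset.mul_sum]
  congr 1
  exact Finset.sum_congr rfl fun g _ => by ring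

lemma EE_const (c : ℝ) : EE J t (fun _ => c) = c := by
  unfold EE
  rw [← Finset.sum_mul, mul_div_cancel_left₀ _ (mass_pos J t).ne']

lemma EE_sum {ι : Type} (s : Finset ι) (F : ι → Perm V → ℝ) :
    EE J t (fun g => ∑ i ∈ s, F i g) = ∑ i ∈ s, EE J t (F i) := by
  unfold EE
  rw [← Finset.sum_div]
  congr 1
  rw [Finset.sum_comm]
  exact Finset.sum_congr rfl fun g _ => by rw [Finset.mul_sum]

variable {J t}

lemma EE_mono (hJ : ∀ x y, 0 ≤ J x y) (ht : 0 ≤ t) {F G : Perm V → ℝ} (h : ∀ g, F g ≤ G g) :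
    EE J t F ≤ EE J t G := by
  unfold EE
  refine div_le_div_of_nonneg_right ?_ (mass_pos J t).le
  exact Finset.sum_le_sum fun g _ => mul_le_mul_of_nonneg_left (h g)
    (Pool.Agent.W29.LR.CV.stirMass_nonneg J hJ t ht g)

lemma EE_nonneg (hJ : ∀ x y, 0 ≤ J x y) (ht : 0 ≤ t) {F : Perm V → ℝ} (h : ∀ g, 0 ≤ F g) :
    0 ≤ EE J t F := by
  have := EE_mono hJ ht (F := fun _ => 0) (G := F) h
  rwa [EE_const] at this

lemma EE_le (hJ : ∀ x y, 0 ≤ J x y) (ht : 0 ≤ t) {F : Perm V → ℝ} (c : ℝ) (h : ∀ g, F g ≤ c) :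
    EE J t F ≤ c := by
  have := EE_mono hJ ht (F := F) (G := fun _ => c) h
  rwa [EE_const] at this

lemma abs_EE_le (hJ : ∀ x y, 0 ≤ J x y) (ht : 0 ≤ t) (F : Perm V → ℝ) :
    |EE J t F| ≤ EE J t (fun g => |F g|) := by
  rw [abs_le]
  constructor
  · have h := EE_mono hJ ht (F := fun g => (-1) * |F g|) (G := F) (fun g => by
      have := neg_abs_le (F g); linarith)
    rw [EE_mul] at h
    linarith
  · exact EE_mono hJ ht fun g => le_abs_self _

lemma EE_scale (J : V → V → ℝ) (t : ℝ) (F : Perm V → ℝ)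
    (h : ∀ g, stirMass (fun x y => t * J x y) 1 g = stirMass J t g) :
    EE (fun x y => t * J x y) 1 F = EE J t F := by
  unfold EE
  simp only [h]

end ee

end Pool.Agent.W805.PD
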