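import Pool.Agent.W805.LR.Stm5
import Pool.Agent.W29.LR.CV

/-!
# Poisson-Dirichlet cycle lengths for random stirring: assembly
-/

set_option autoImplicit false

namespace Pool.Agent.W805.PD

open Finset Equiv Filter Topology
open Pool.Agent.W805.LR

/-- PD: cycle lengths at any time: given the mass in cycles of length at least `n / K` they are
close to Poisson-Dirichlet. -/
def S_pd : Prop := ∀ (d : ℕ) (σ lam t0 : ℝ) (k : ℕ) (f : (Fin k → ℝ) → ℝ) (δ : ℝ), 1 ≤ d →
  0 < σ → σ < d → 0 < lam → 0 < t0 → Continuous f → 0 < δ → ∃ K1 L0 : ℕ, ∀ t ≥ t0,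
  ∀ (L : ℕ) [NeZero L], L0 ≤ L →
  ∀ J : (Fin d → ZMod L) → (Fin d → ZMod L) → ℝ, IsRate2 d L σ lam J →
    ∃ K : ℕ, 1 / δ ≤ K ∧ K ≤ K1 ∧
      |∑ g, stirMass J t g * f (fun i : Fin k => pOrd g i) -
        ∑ g, stirMass J t g * pdInt k f (uavg fun v => if 1 ≤ K * pc g v then 1 else 0)| ≤
      δ * ∑ g, stirMass J t g

namespace PDAS

theorem rOrd_nonneg {m : ℕ} (r : Fin m → Fin m → Prop) (i : ℕ) : 0 ≤ rOrd r i := by
  unfold rOrd
  apply Real.sSup_nonneg
  intro x hx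
  exact hx.1

theorem cnt_le {A : Type} [Fintype A] (p : A → Prop) : cnt p ≤ Fintype.card A := by
  classical
  unfold cnt
  calc _ ≤ ∑ _ : A, (1 : ℝ) := Finset.sum_le_sum fun x _ => by
        split_ifs <;> norm_num
    _ = _ := by simp

theorem rOrd_le_one {m : ℕ} (r : Fin m → Fin m → Prop) (i : ℕ) : rOrd r i ≤ 1 := by
  unfold rOrd
  apply Real.sSup_le _ (by norm_num)
  rintro x ⟨hx, hx' | ⟨f, -, hf⟩⟩
  · rw [hx']; norm_num
  · refine (hf 0).trans ?_
    have h := cnt_le (fun j => r (f 0) j)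
    rw [Fintype.card_fin] at h
    rcases Nat.eq_zero_or_pos m with rfl | hm
    · simp
    · rw [div_le_one (by positivity)]
      exact h

theorem bound (k : ℕ) (f : (Fin k → ℝ) → ℝ) (hf : Continuous f) :
    ∃ B : ℝ, 1 ≤ B ∧ ∀ x : Fin k → ℝ, (∀ i, 0 ≤ x i ∧ x i ≤ 1) → |f x| ≤ B := by
  have hc : IsCompact (Set.Icc (0 : Fin k → ℝ) 1) := isCompact_Icc
  obtain ⟨B, hB⟩ := hc.exists_bound_of_continuousOn hf.continuousOn
  refine ⟨max B 1, le_max_right _ _, fun x hx => ?_⟩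
  refine le_trans ?_ (le_max_left _ _)
  have := hB x ⟨fun i => (hx i).1, fun i => (hx i).2⟩
  rwa [Real.norm_eq_abs] at this

theorem uavg_sub {A : Type} [Fintype A] (F G : A → ℝ) :
    uavg (fun a => F a - G a) = uavg F - uavg G := by
  unfold uavg
  rw [Finset.sum_sub_distrib, sub_div]

theorem uavg_div {A : Type} [Fintype A] (F : A → ℝ) (B : ℝ) :
    uavg (fun a => F a / B) = uavg F / B := by
  unfold uavg
  rw [← Finset.sum_div, div_right_comm]

theorem pavg_div {m : ℕ} (A : Finset (Fin m)) (G : (Fin m → Fin m → Prop) → ℝ) (B : ℝ) :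
    pavg A (fun r => G r / B) = pavg A G / B := by
  unfold pavg
  rw [← Finset.sum_div, div_right_comm]

theorem abs_uavg_le {A : Type} [Fintype A] (F : A → ℝ) (c : ℝ) (hc : 0 ≤ c) (h : ∀ a, |F a| ≤ c) :
    |uavg F| ≤ c := by
  unfold uavg
  rw [abs_div, Nat.abs_cast]
  rcases Nat.eq_zero_or_pos (Fintype.card A) with h0 | h0
  · rw [h0]; simpa using hc
  · rw [div_le_iff₀ (by exact_mod_cast h0)]
    calc |∑ a, F a| ≤ ∑ a, |F a| := Finset.abs_sum_le_sum_abs _ _
      _ ≤ ∑ _ : A, c := Finset.sum_le_sum fun a _ => h a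
      _ = c * Fintype.card A := by simp [mul_comm]

theorem abs_wsum_le {A : Type} [Fintype A] (P F G : A → ℝ) (c : ℝ) (hP : ∀ a, 0 ≤ P a)
    (h : ∀ a, |F a - G a| ≤ c) :
    |∑ a, P a * F a - ∑ a, P a * G a| ≤ c * ∑ a, P a := by
  rw [← Finset.sum_sub_distrib]
  calc |∑ a, (P a * F a - P a * G a)| ≤ ∑ a, |P a * F a - P a * G a| :=
        Finset.abs_sum_le_sum_abs _ _
    _ ≤ ∑ a, c * P a := Finset.sum_le_sum fun a _ => by
        rw [← mul_sub, abs_mul, abs_of_nonneg (hP a), mul_comm c]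
        exact mul_le_mul_of_nonneg_left (h a) (hP a)
    _ = _ := by rw [Finset.mul_sum]

theorem stirMass_nonneg {V : Type} [Fintype V] [DecidableEq V] (J : V → V → ℝ) (t : ℝ)
    (hJ : ∀ x y, 0 ≤ J x y) (ht : 0 ≤ t) (g : Perm V) : 0 ≤ stirMass J t g :=
  Pool.Agent.W29.LR.CV.stirMass_nonneg J hJ t ht g

theorem rate_nonneg {d L : ℕ} {σ lam : ℝ} {J : (Fin d → ZMod L) → (Fin d → ZMod L) → ℝ}
    (hlam : 0 < lam) (h : IsRate2 d L σ lam J) (x y) : 0 ≤ J x y := by
  by_cases hxy : x = y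
  · subst hxy
    rw [h.2.1]
  · exact le_trans (by positivity) (h.2.2 x y hxy)

theorem main : S_samp → S_trace → S_unif → S_mass → S_pd := by
  intro hS hT hU hM d σ lam t0 k f δ hd hσ hσd hlam ht0 hf hδ
  obtain ⟨B, hB1, hB⟩ := bound k f hf
  have hB0 : 0 < B := by linarith
  obtain ⟨m1, h1⟩ := hS k f (δ / 4) hf (by positivity)
  obtain ⟨m2, h2⟩ := hU k f (δ / 4) hf (by positivity)
  obtain ⟨m3, h3⟩ := hM k f (δ / 4) hf (by positivity)
  set m := max m1 (max m2 m3) with hm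
  have hm1 : m1 ≤ m := le_max_left _ _
  have hm2 : m2 ≤ m := le_trans (le_max_left _ _) (le_max_right _ _)
  have hm3 : m3 ≤ m := le_trans (le_max_right _ _) (le_max_right _ _)
  have hδ' : 0 < δ / (4 * B) := by positivity
  have hδ'' : δ / (4 * B) ≤ δ := by
    rw [div_le_iff₀ (by positivity)]
    nlinarith
  obtain ⟨K1, L0, hT⟩ := hT d σ lam t0 m (δ / (4 * B)) hd hσ hσd hlam ht0 hδ'
  refine ⟨K1, L0, fun t ht L _ hL J hJ => ?_⟩
  obtain ⟨K, hK1, hK2, hK⟩ := hT t ht L hL J hJ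
  refine ⟨K, le_trans (one_div_le_one_div_of_le hδ' hδ'') hK1, hK2, ?_⟩
  have hJ0 := rate_nonneg hlam hJ
  have ht' : 0 ≤ t := by linarith
  have hP := fun g => stirMass_nonneg J t hJ0 ht' g
  set P := stirMass J t with hPdef
  -- the four steps
  have e1 : |∑ g, P g * f (fun i : Fin k => pOrd g i) -
      ∑ g, P g * uavg (fun v : Fin m → (Fin d → ZMod L) => f fun i : Fin k => rOrd (rel g v) i)| ≤
      δ / 4 * ∑ g, P g := by
    apply abs_wsum_le _ _ _ _ hP
    intro g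
    exact h1 m hm1 _ g
  have e2 : |∑ g, P g * uavg (fun v : Fin m → (Fin d → ZMod L) =>
        f fun i : Fin k => rOrd (rel g v) i) -
      ∑ g, P g * uavg (fun v : Fin m → (Fin d → ZMod L) =>
        pavg (big g K v) fun r => f fun i : Fin k => rOrd r i)| ≤ δ / 4 * ∑ g, P g := by
    have h := hK (fun r => (f fun i : Fin k => rOrd r i) / B) (fun r => by
      rw [abs_div, abs_of_pos hB0, div_le_one hB0]
      exact hB _ fun i => ⟨rOrd_nonneg _ _, rOrd_le_one _ _⟩)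
    simp only [pavg_div, uavg_div, ← mul_div_assoc] at h
    rw [← Finset.sum_div, ← Finset.sum_div, ← sub_div, abs_div, abs_of_pos hB0,
      div_le_iff₀ hB0] at h
    refine h.trans (le_of_eq ?_)
    field_simp
  have e3 : |∑ g, P g * uavg (fun v : Fin m → (Fin d → ZMod L) =>
        pavg (big g K v) fun r => f fun i : Fin k => rOrd r i) -
      ∑ g, P g * uavg (fun v : Fin m → (Fin d → ZMod L) =>
        pdInt k f ((big g K v).card / m))| ≤ δ / 4 * ∑ g, P g := by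
    apply abs_wsum_le _ _ _ _ hP
    intro g
    rw [← uavg_sub]
    exact abs_uavg_le _ _ (by positivity) fun v => h2 m hm2 _
  have e4 : |∑ g, P g * uavg (fun v : Fin m → (Fin d → ZMod L) =>
        pdInt k f ((big g K v).card / m)) -
      ∑ g, P g * pdInt k f (uavg fun v => if 1 ≤ K * pc g v then 1 else 0)| ≤
      δ / 4 * ∑ g, P g := by
    apply abs_wsum_le _ _ _ _ hP
    intro g
    exact h3 m hm3 _ g K
  rw [abs_le] at e1 e2 e3 e4 ⊢
  constructor
  · linarith [e1.1, e2.1, e3.1, e4.1]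
  · linarith [e1.2, e2.2, e3.2, e4.2]

end PDAS

end Pool.Agent.W805.PD
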