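import Pool.Agent.W805.LR.Stm6
import Pool.Agent.W805.LR.PDAS
import Pool.Agent.W782.PD.Avg
import Pool.Agent.W805.LR.Cons

/-!
# Poisson-Dirichlet cycle lengths at all times, with deterministic mass: assembly
-/

set_option autoImplicit false

namespace Pool.Agent.W805.PD

open Finset Equiv Filter Topology
open Pool.Agent.W805.LR

section scale

variable {V : Type} [Fintype V] [DecidableEq V]

lemma ringSum_scale (J : V → V → ℝ) (t : ℝ) (m : ℕ) :
    ∀ g : Perm V, ringSum (fun x y => t * J x y) m g = t ^ m * ringSum J m g := by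
  induction m with
  | zero => intro g; simp [ringSum]
  | succ m ih =>
    intro g
    simp only [ringSum]
    rw [Finset.mul_sum]
    refine Finset.sum_congr rfl fun x _ => ?_
    rw [Finset.mul_sum]
    refine Finset.sum_congr rfl fun y _ => ?_
    rw [ih]
    ring

lemma stirMass_scale (J : V → V → ℝ) (t : ℝ) (g : Perm V) :
    stirMass (fun x y => t * J x y) 1 g = stirMass J t g := by
  unfold stirMass
  refine tsum_congr fun m => ?_
  rw [ringSum_scale]
  ring

end scale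

lemma isRate_scale {d L : ℕ} {σ lam t0 t : ℝ} {J : (Fin d → ZMod L) → (Fin d → ZMod L) → ℝ}
    (hlam : 0 < lam) (ht0 : 0 < t0) (ht : t0 ≤ t) (h : IsRate2 d L σ lam J) :
    IsRate2 d L σ (lam * t0) (fun x y => t * J x y) := by
  refine ⟨fun x y => by change t * J x y = t * J y x; rw [h.1 x y],
    fun x => by change t * J x x = 0; rw [h.2.1 x, mul_zero], fun x y hxy => ?_⟩
  have h1 := h.2.2 x y hxy
  have h2 : 0 ≤ (bdist x y : ℝ) ^ (-((d : ℝ) + σ)) := by positivity
  have h3 : 0 ≤ lam * (bdist x y : ℝ) ^ (-((d : ℝ) + σ)) := by positivity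
  calc lam * t0 * (bdist x y : ℝ) ^ (-((d : ℝ) + σ)) =
        t0 * (lam * (bdist x y : ℝ) ^ (-((d : ℝ) + σ))) := by ring
    _ ≤ t * J x y := mul_le_mul ht h1 h3 (by linarith)

section mass

variable {V : Type} [Fintype V] [DecidableEq V] [Nonempty V]

lemma uavg_eq_cnt (P : V → Prop) [DecidablePred P] :
    (uavg fun v : V => if P v then (1 : ℝ) else 0) = cnt P / Fintype.card V := by
  unfold uavg
  rw [cnt_eq]

lemma big_iff (g : Perm V) (K : ℕ) (v : V) :
    1 ≤ K * pc g v ↔ (Fintype.card V : ℝ) ≤ K * len g v := by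
  have hn : (0 : ℝ) < Fintype.card V := by exact_mod_cast Fintype.card_pos
  unfold pc
  rw [← mul_div_assoc, le_div_iff₀ hn, one_mul]

/-- Mass of the cycles of length at least `n / K`. -/
noncomputable def MK (g : Perm V) (K : ℕ) : ℝ :=
  uavg fun v : V => if 1 ≤ K * pc g v then (1 : ℝ) else 0

lemma MK_eq (g : Perm V) (K : ℕ) :
    MK g K = cnt (fun v => (Fintype.card V : ℝ) ≤ K * len g v) / Fintype.card V := by
  unfold MK
  rw [uavg_eq_cnt]
  congr 1
  exact cnt_congr fun v => big_iff g K v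

lemma MK_nonneg (g : Perm V) (K : ℕ) : 0 ≤ MK g K := by
  rw [MK_eq]; exact div_nonneg (cnt_nonneg _) (Nat.cast_nonneg _)

lemma MK_le_one (g : Perm V) (K : ℕ) : MK g K ≤ 1 := by
  have hn : (0 : ℝ) < Fintype.card V := by exact_mod_cast Fintype.card_pos
  rw [MK_eq, div_le_one hn]; exact cnt_le_card _

omit [DecidableEq V] [Nonempty V] in
lemma cnt_compl (P : V → Prop) : cnt P + cnt (fun v => ¬ P v) = Fintype.card V := by
  classical
  unfold cnt
  rw [← Finset.sum_add_distrib]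
  calc _ = ∑ _v : V, (1 : ℝ) := Finset.sum_congr rfl fun v _ => by
        by_cases h : P v <;> simp [h]
    _ = _ := by simp

omit [DecidableEq V] [Nonempty V] in
lemma len_nonneg' (g : Perm V) (v : V) : 0 ≤ len g v := by
  unfold len; exact cnt_nonneg _

/-- The mass of the big cycles is at most the mass of the cycles that are not short. -/
lemma MK_le (g : Perm V) (K ℓ : ℕ) (h : (K : ℝ) * ℓ ≤ Fintype.card V) (hK : 0 < K) :
    MK g K ≤ 1 - cnt (fun v => len g v < ℓ) / Fintype.card V := by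
  have hn : (0 : ℝ) < Fintype.card V := by exact_mod_cast Fintype.card_pos
  have hK' : (0 : ℝ) < K := by exact_mod_cast hK
  have h0 := cnt_compl (fun v : V => len g v < ℓ)
  have h1 : cnt (fun v => (Fintype.card V : ℝ) ≤ K * len g v) ≤
      cnt (fun v => ¬ len g v < (ℓ : ℝ)) := by
    refine cnt_mono fun v hv => ?_
    rw [not_lt]
    have h1 : (K : ℝ) * ℓ ≤ K * len g v := h.trans hv
    exact le_of_mul_le_mul_left h1 hK'
  rw [MK_eq, div_le_iff₀ hn, sub_mul, div_mul_cancel₀ _ hn.ne', one_mul]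
  linarith

lemma le_MK (g : Perm V) (K Km ℓ : ℕ) (hKm : Km ≤ K) :
    1 - cnt (fun v => len g v < ℓ) / Fintype.card V ≤ MK g K +
      cnt (fun v => (ℓ : ℝ) ≤ len g v ∧ Km * len g v < Fintype.card V) / Fintype.card V := by
  have hn : (0 : ℝ) < Fintype.card V := by exact_mod_cast Fintype.card_pos
  have h0 := cnt_compl (fun v : V => len g v < ℓ)
  have h1 : cnt (fun v => ¬ len g v < (ℓ : ℝ)) ≤
      cnt (fun v => (Fintype.card V : ℝ) ≤ K * len g v) +
      cnt (fun v => (ℓ : ℝ) ≤ len g v ∧ Km * len g v < Fintype.card V) := by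
    refine cnt_le_add fun v hv => ?_
    rw [not_lt] at hv
    rcases le_or_gt (Fintype.card V : ℝ) (K * len g v) with h | h
    · exact Or.inl h
    · refine Or.inr ⟨hv, lt_of_le_of_lt ?_ h⟩
      have : (Km : ℝ) ≤ K := by exact_mod_cast hKm
      exact mul_le_mul_of_nonneg_right this (len_nonneg' g v)
  rw [MK_eq, ← add_div, le_div_iff₀ hn, sub_mul, div_mul_cancel₀ _ hn.ne', one_mul]
  linarith

end mass

theorem pd2 (hpd : S_pd) (hnm : S_nomeso) (hcn : S_conc) (hdf : S_diff) (hpo : S_topmass) :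
    S_pd2 := by
  intro d σ lam t0 Lam k f δ hd hσ hσd hlam ht0 hf hδ
  obtain ⟨⟨C, hC0, hC⟩, huc⟩ := Pool.Agent.W782.PD.Avg.pdInt_cont k f hf
  obtain ⟨ρ, hρ0, hρ⟩ := huc (δ / 4) (by positivity)
  obtain ⟨η, hη⟩ : ∃ η : ℝ, η = δ * ρ / (32 * C) := ⟨_, rfl⟩
  have hη0 : 0 < η := by rw [hη]; positivity
  have hηC : 2 * C / ρ * (4 * η) = δ / 4 := by rw [hη]; field_simp; ring
  obtain ⟨ℓ, Km, L0m, hKm, hnm'⟩ := hnm d σ (lam * t0) η hd hσ hσd (by positivity) hη0
  have hKm' : (0 : ℝ) < Km := by exact_mod_cast hKm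
  obtain ⟨K1, L0p, hpd'⟩ := hpd d σ lam t0 k f (min (δ / 2) (1 / Km)) hd hσ hσd hlam ht0 hf
    (by positivity)
  refine ⟨Km, fun K' hK' => ?_⟩
  have hK'0 : 0 < K' := lt_of_lt_of_le hKm hK'
  have hK'r : (0 : ℝ) < K' := by exact_mod_cast hK'0
  obtain ⟨K2, hK2⟩ := exists_nat_ge ((K' : ℝ) / η)
  have hK2r : (0 : ℝ) < K2 := lt_of_lt_of_le (by positivity) hK2
  have hK20 : 0 < K2 := by exact_mod_cast hK2r
  have hK2η : (K' : ℝ) / K2 ≤ η := by
    rw [div_le_iff₀ hK2r]; rw [div_le_iff₀ hη0] at hK2; linarith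
  obtain ⟨L1, hL1⟩ := exists_nat_ge (2 * (ℓ : ℝ) ^ 2 * Lam / η ^ 2)
  refine ⟨max (max L0p L0m) (max (max (K1 * ℓ) (K2 * ℓ)) (max L1 1)),
    fun t ht L _ hL J hJ hR => ?_⟩
  have hLp : L0p ≤ L := ((le_max_left _ _).trans (le_max_left _ _)).trans hL
  have hLm : L0m ≤ L := ((le_max_right _ _).trans (le_max_left _ _)).trans hL
  have hLK1 : K1 * ℓ ≤ L :=
    (((le_max_left _ _).trans (le_max_left _ _)).trans (le_max_right _ _)).trans hL
  have hLK2 : K2 * ℓ ≤ L :=
    (((le_max_right _ _).trans (le_max_left _ _)).trans (le_max_right _ _)).trans hL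
  have hLL1 : L1 ≤ L :=
    (((le_max_left _ _).trans (le_max_right _ _)).trans (le_max_right _ _)).trans hL
  have hL1' : 1 ≤ L :=
    (((le_max_right _ _).trans (le_max_right _ _)).trans (le_max_right _ _)).trans hL
  have hLr : (1 : ℝ) ≤ L := by exact_mod_cast hL1'
  have ht' : 0 < t := lt_of_lt_of_le ht0 ht
  obtain ⟨n, hn⟩ : ∃ n : ℝ, n = (L : ℝ) ^ d := ⟨_, rfl⟩
  have hnL : (L : ℝ) ≤ n := by rw [hn]; exact le_self_pow₀ hLr (by omega)
  have hn0 : 0 < n := by linarith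
  have hcard : (Fintype.card (Fin d → ZMod L) : ℝ) = n := by
    rw [Fintype.card_fun, ZMod.card, Fintype.card_fin, hn]; push_cast; rfl
  have hJ0 := PDAS.rate_nonneg hlam hJ
  have hP0 := fun g => PDAS.stirMass_nonneg J t hJ0 ht'.le g
  obtain ⟨K, hK1, hK2', hK3⟩ := hpd' t ht L hLp J hJ
  have hKKm : Km ≤ K := by
    have h1 : (Km : ℝ) ≤ 1 / min (δ / 2) (1 / Km) := by
      rw [le_div_iff₀ (by positivity)]
      calc (Km : ℝ) * min (δ / 2) (1 / Km) ≤ Km * (1 / Km) :=
            mul_le_mul_of_nonneg_left (min_le_right _ _) hKm'.le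
        _ = 1 := by field_simp
    exact_mod_cast h1.trans hK1
  have hK0 : 0 < K := lt_of_lt_of_le hKm hKKm
  have hnm2 := hnm' L hLm (fun x y => t * J x y) (isRate_scale hlam ht0 ht hJ)
  simp only [stirMass_scale] at hnm2
  obtain ⟨P, hP⟩ : ∃ P : Perm (Fin d → ZMod L) → ℝ, P = stirMass J t := ⟨_, rfl⟩
  rw [← hP] at hnm2 hP0 hK3 ⊢
  obtain ⟨Z, hZ⟩ : ∃ Z, Z = ∑ g, P g := ⟨_, rfl⟩
  have hZ0 : 0 < Z := by
    rw [hZ]
    rw [hP, sum_mass]
    exact Real.exp_pos _
  rw [← hZ] at hnm2 hK3 ⊢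
  -- short cycles
  obtain ⟨A, hA⟩ : ∃ A : Perm (Fin d → ZMod L) → ℝ, A = fun g =>
    cnt (fun v => len g v < ℓ) / n := ⟨_, rfl⟩
  obtain ⟨me, hme⟩ : ∃ me : Perm (Fin d → ZMod L) → ℝ, me = fun g =>
    cnt (fun v => (ℓ : ℝ) ≤ len g v ∧ Km * len g v < n) / n := ⟨_, rfl⟩
  have hmesum : ∑ g, P g * me g ≤ η * Z := by
    have e1 : ∑ g, P g * me g = (∑ g, P g * cnt (fun v => (ℓ : ℝ) ≤ len g v ∧
        Km * len g v < (L : ℝ) ^ d)) / n := by
      rw [hme, Finset.sum_div, ← hn]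
      exact Finset.sum_congr rfl fun g _ => by ring
    rw [e1, div_le_iff₀ hn0]
    refine hnm2.trans (le_of_eq ?_)
    rw [hn]; ring
  have hme0 : ∀ g, 0 ≤ me g := fun g => by
    rw [hme]; exact div_nonneg (cnt_nonneg _) hn0.le
  have hMup : ∀ (g : Perm (Fin d → ZMod L)) (Q : ℕ), Q * ℓ ≤ L → 0 < Q → MK g Q ≤ 1 - A g := by
    intro g Q h1 h2
    have := MK_le g Q ℓ (by rw [hcard]; refine le_trans ?_ hnL; exact_mod_cast h1) h2
    rw [hcard] at this
    rw [hA]; exact this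
  have hMlo : ∀ (g : Perm (Fin d → ZMod L)) (Q : ℕ), Km ≤ Q → 1 - A g ≤ MK g Q + me g := by
    intro g Q h1
    have := le_MK g Q Km ℓ h1
    rw [hcard] at this
    rw [hA, hme]; exact this
  -- top mass
  obtain ⟨top, htop⟩ : ∃ top : Perm (Fin d → ZMod L) → ℝ, top = fun g =>
    ∑ i ∈ range K', pOrd g i := ⟨_, rfl⟩
  have ht1 : ∀ g, MK g Km ≤ top g := fun g => by
    rw [htop]; exact (hpo _ g Km K' hKm).1 hK'
  have ht2 : ∀ g (Q : ℕ), 0 < Q → top g ≤ MK g Q + K' / Q := fun g Q hQ => by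
    rw [htop]; exact (hpo _ g Q K' hQ).2
  have hE : ∀ g, |top g - (1 - A g)| ≤ me g + η := by
    intro g
    rw [abs_le]
    constructor
    · have h1 := ht1 g
      have h2 := hMlo g Km le_rfl
      linarith
    · have h1 := ht2 g K2 hK20
      have h2 := hMup g K2 hLK2 hK20
      have := hme0 g
      linarith
  have htop0 : ∀ g, 0 ≤ top g := fun g => (MK_nonneg g Km).trans (ht1 g)
  have htop1 : ∀ g, top g ≤ 1 := by
    intro g
    by_contra hcon
    rw [not_le] at hcon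
    obtain ⟨Q, hQ⟩ := exists_nat_gt ((K' : ℝ) / (top g - 1))
    have hpos : 0 < top g - 1 := by linarith
    have hQ0 : (0 : ℝ) < Q := lt_trans (by positivity) hQ
    have h1 := ht2 g Q (by exact_mod_cast hQ0)
    have h2 := MK_le_one g Q
    rw [div_lt_iff₀ hpos] at hQ
    have h3 : (K' : ℝ) / Q < top g - 1 := by rw [div_lt_iff₀ hQ0]; linarith
    linarith
  obtain ⟨mm, hmm⟩ : ∃ mm : ℝ, mm = (∑ g, P g * top g) / Z := ⟨_, rfl⟩
  have hmm0 : 0 ≤ mm := by
    rw [hmm]
    exact div_nonneg (Finset.sum_nonneg fun g _ => mul_nonneg (hP0 g) (htop0 g)) hZ0.le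
  have hmm1 : mm ≤ 1 := by
    rw [hmm, div_le_one hZ0, hZ]
    refine Finset.sum_le_sum fun g _ => ?_
    exact mul_le_of_le_one_right (hP0 g) (htop1 g)
  -- concentration
  obtain ⟨Ab, hAb⟩ : ∃ Ab : ℝ, Ab = (∑ g, P g * A g) / Z := ⟨_, rfl⟩
  have hvar : ∑ g, P g * (A g - Ab) ^ 2 ≤ η ^ 2 * Z := by
    have h1 := hcn (Fin d → ZMod L) J t (2 * ℓ) (fun g => cnt (fun v => len g v < ℓ)) hJ0 ht'.le
      (fun a b x y => hdf _ _ a b x y (Nat.cast_nonneg ℓ))
    rw [← hP, ← hZ] at h1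
    have e1 : ∑ g, P g * cnt (fun v => len g v < (ℓ : ℝ)) = n * (Z * Ab) := by
      rw [hAb, mul_div_cancel₀ _ hZ0.ne', Finset.mul_sum]
      refine Finset.sum_congr rfl fun g _ => ?_
      rw [hA]; field_simp
    have e2 : ∑ g, P g * cnt (fun v => len g v < (ℓ : ℝ)) ^ 2 = n ^ 2 * ∑ g, P g * A g ^ 2 := by
      rw [Finset.mul_sum]
      refine Finset.sum_congr rfl fun g _ => ?_
      rw [hA]; field_simp
    rw [e1, e2] at h1
    have e3 : ∑ g, P g * (A g - Ab) ^ 2 = ∑ g, P g * A g ^ 2 - Z * Ab ^ 2 := by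
      have h2 : ∑ g, P g * A g = Z * Ab := by rw [hAb]; field_simp
      calc ∑ g, P g * (A g - Ab) ^ 2 =
            ∑ g, (P g * A g ^ 2 - 2 * Ab * (P g * A g) + Ab ^ 2 * P g) :=
            Finset.sum_congr rfl fun g _ => by ring
        _ = ∑ g, P g * A g ^ 2 - 2 * Ab * ∑ g, P g * A g + Ab ^ 2 * ∑ g, P g := by
            rw [Finset.sum_add_distrib, Finset.sum_sub_distrib, Finset.mul_sum, Finset.mul_sum]
        _ = _ := by rw [h2, ← hZ]; ring
    rw [e3]
    have h3 : t * (∑ x, ∑ y, J x y / 2) ≤ Lam * n / 2 := by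
      have e4 : ∑ x, ∑ y, J x y / 2 = (∑ x, ∑ y, J x y) / 2 := by
        rw [Finset.sum_div]
        exact Finset.sum_congr rfl fun x _ => by rw [Finset.sum_div]
      rw [e4, hn]
      linarith
    have h4 : t * (∑ x, ∑ y, J x y / 2) * (2 * (ℓ : ℝ)) ^ 2 * Z ^ 2 ≤
        Lam * n / 2 * (2 * (ℓ : ℝ)) ^ 2 * Z ^ 2 := by gcongr
    have h5 : n ^ 2 * (∑ g, P g * A g ^ 2) * Z - (n * (Z * Ab)) ^ 2 =
        n ^ 2 * Z * (∑ g, P g * A g ^ 2 - Z * Ab ^ 2) := by ring
    rw [h5] at h1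
    have h6 : n ^ 2 * Z * (∑ g, P g * A g ^ 2 - Z * Ab ^ 2) ≤ n ^ 2 * Z * (η ^ 2 * Z) := by
      refine (h1.trans h4).trans ?_
      have h7 : 2 * (ℓ : ℝ) ^ 2 * Lam ≤ η ^ 2 * n := by
        have h8 : 2 * (ℓ : ℝ) ^ 2 * Lam / η ^ 2 ≤ n :=
          hL1.trans (le_trans (by exact_mod_cast hLL1) hnL)
        rw [div_le_iff₀ (by positivity)] at h8
        linarith
      calc Lam * n / 2 * (2 * (ℓ : ℝ)) ^ 2 * Z ^ 2 = n * Z ^ 2 * (2 * (ℓ : ℝ) ^ 2 * Lam) := by ring
        _ ≤ n * Z ^ 2 * (η ^ 2 * n) := by gcongr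
        _ = _ := by ring
    exact le_of_mul_le_mul_left h6 (by positivity)
  have hdev : ∑ g, P g * |A g - Ab| ≤ η * Z := by
    have h1 : ∀ g, P g * |A g - Ab| ≤ η / 2 * P g + 1 / (2 * η) * (P g * (A g - Ab) ^ 2) := by
      intro g
      have h2 : |A g - Ab| ≤ η / 2 + 1 / (2 * η) * (A g - Ab) ^ 2 := by
        have h3 : 0 ≤ (|A g - Ab| - η) ^ 2 := sq_nonneg _
        have h4 : |A g - Ab| ^ 2 = (A g - Ab) ^ 2 := sq_abs _
        have h5 : η / 2 + 1 / (2 * η) * (A g - Ab) ^ 2 - |A g - Ab| =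
            (|A g - Ab| - η) ^ 2 / (2 * η) := by
          rw [← h4]; field_simp; ring
        have h6 : 0 ≤ (|A g - Ab| - η) ^ 2 / (2 * η) := by positivity
        linarith
      have := mul_le_mul_of_nonneg_left h2 (hP0 g)
      linarith
    calc ∑ g, P g * |A g - Ab| ≤ ∑ g, (η / 2 * P g + 1 / (2 * η) * (P g * (A g - Ab) ^ 2)) :=
          Finset.sum_le_sum fun g _ => h1 g
      _ = η / 2 * Z + 1 / (2 * η) * ∑ g, P g * (A g - Ab) ^ 2 := by
          rw [Finset.sum_add_distrib, ← Finset.mul_sum, ← Finset.mul_sum, ← hZ]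
      _ ≤ η / 2 * Z + 1 / (2 * η) * (η ^ 2 * Z) := by gcongr
      _ = η * Z := by field_simp; ring
  have hmean : |mm - (1 - Ab)| ≤ 2 * η := by
    have e1 : mm - (1 - Ab) = (∑ g, P g * (top g - (1 - A g))) / Z := by
      rw [hmm, hAb]
      have : ∑ g, P g * (top g - (1 - A g)) = ∑ g, P g * top g - Z + ∑ g, P g * A g := by
        rw [hZ, ← Finset.sum_sub_distrib, ← Finset.sum_add_distrib]
        exact Finset.sum_congr rfl fun g _ => by ring
      rw [this]; field_simp; ring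
    rw [e1, abs_div, abs_of_pos hZ0, div_le_iff₀ hZ0]
    calc |∑ g, P g * (top g - (1 - A g))| ≤ ∑ g, |P g * (top g - (1 - A g))| :=
          Finset.abs_sum_le_sum_abs _ _
      _ ≤ ∑ g, (P g * me g + η * P g) := by
          refine Finset.sum_le_sum fun g _ => ?_
          rw [abs_mul, abs_of_nonneg (hP0 g)]
          have := mul_le_mul_of_nonneg_left (hE g) (hP0 g)
          linarith
      _ = ∑ g, P g * me g + η * Z := by rw [Finset.sum_add_distrib, ← Finset.mul_sum, ← hZ]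
      _ ≤ 2 * η * Z := by linarith
  have hKK1 : K * ℓ ≤ L := (Nat.mul_le_mul_right ℓ hK2').trans hLK1
  have hdist : ∀ g, |MK g K - mm| ≤ me g + |A g - Ab| + 2 * η := by
    intro g
    have h1 : |MK g K - (1 - A g)| ≤ me g := by
      rw [abs_le]
      constructor
      · have := hMlo g K hKKm; linarith
      · have := hMup g K hKK1 hK0
        have := hme0 g
        linarith
    calc |MK g K - mm| = |(MK g K - (1 - A g)) + (Ab - A g) + ((1 - Ab) - mm)| := by
          congr 1; ring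
      _ ≤ |MK g K - (1 - A g)| + |Ab - A g| + |(1 - Ab) - mm| := abs_add_three _ _ _
      _ ≤ _ := by
          rw [abs_sub_comm Ab, abs_sub_comm (1 - Ab)]
          linarith
  have hsumdist : ∑ g, P g * |MK g K - mm| ≤ 4 * η * Z := by
    calc ∑ g, P g * |MK g K - mm| ≤ ∑ g, (P g * me g + P g * |A g - Ab| + 2 * η * P g) := by
          refine Finset.sum_le_sum fun g _ => ?_
          have := mul_le_mul_of_nonneg_left (hdist g) (hP0 g)
          linarith
      _ = ∑ g, P g * me g + ∑ g, P g * |A g - Ab| + 2 * η * Z := by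
          rw [Finset.sum_add_distrib, Finset.sum_add_distrib, ← Finset.mul_sum, ← hZ]
      _ ≤ _ := by linarith
  -- conclusion
  have hfin : |∑ g, P g * pdInt k f (MK g K) - Z * pdInt k f mm| ≤ δ / 2 * Z := by
    have e1 : ∑ g, P g * pdInt k f (MK g K) - Z * pdInt k f mm =
        ∑ g, P g * (pdInt k f (MK g K) - pdInt k f mm) := by
      rw [hZ, Finset.sum_mul, ← Finset.sum_sub_distrib]
      exact Finset.sum_congr rfl fun g _ => by ring
    rw [e1]
    calc |∑ g, P g * (pdInt k f (MK g K) - pdInt k f mm)| ≤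
          ∑ g, |P g * (pdInt k f (MK g K) - pdInt k f mm)| := Finset.abs_sum_le_sum_abs _ _
      _ ≤ ∑ g, (δ / 4 * P g + 2 * C / ρ * (P g * |MK g K - mm|)) := by
          refine Finset.sum_le_sum fun g _ => ?_
          rw [abs_mul, abs_of_nonneg (hP0 g)]
          have h1 : |pdInt k f (MK g K) - pdInt k f mm| ≤ δ / 4 + 2 * C / ρ * |MK g K - mm| := by
            rcases le_or_gt |MK g K - mm| ρ with h | h
            · have h2 := hρ (MK g K) mm (MK_nonneg g K) (MK_le_one g K) hmm0 hmm1 h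
              have h3 : 0 ≤ 2 * C / ρ * |MK g K - mm| := by positivity
              linarith
            · have h2 := hC (MK g K) (MK_nonneg g K) (MK_le_one g K)
              have h3 := hC mm hmm0 hmm1
              have h4 : |pdInt k f (MK g K) - pdInt k f mm| ≤ 2 * C := by
                calc _ ≤ |pdInt k f (MK g K)| + |pdInt k f mm| := abs_sub _ _
                  _ ≤ _ := by linarith
              have h5 : 2 * C ≤ 2 * C / ρ * |MK g K - mm| := by
                rw [div_mul_eq_mul_div, le_div_iff₀ hρ0]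
                exact mul_le_mul_of_nonneg_left h.le (by positivity)
              linarith
          have := mul_le_mul_of_nonneg_left h1 (hP0 g)
          linarith
      _ = δ / 4 * Z + 2 * C / ρ * ∑ g, P g * |MK g K - mm| := by
          rw [Finset.sum_add_distrib, ← Finset.mul_sum, ← Finset.mul_sum, ← hZ]
      _ ≤ δ / 4 * Z + 2 * C / ρ * (4 * η * Z) := by gcongr
      _ = δ / 2 * Z := by
          have : 2 * C / ρ * (4 * η * Z) = (2 * C / ρ * (4 * η)) * Z := by ring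
          rw [this, hηC]; ring
  have hK4 : |∑ g, P g * f (fun i : Fin k => pOrd g i) - ∑ g, P g * pdInt k f (MK g K)| ≤
      δ / 2 * Z := by
    refine hK3.trans ?_
    exact mul_le_mul_of_nonneg_right (min_le_left _ _) hZ0.le
  have hmm' : (∑ g, P g * ∑ i ∈ range K', pOrd g i) / Z = mm := by rw [hmm, htop]
  rw [hmm']
  rw [abs_le] at hfin hK4 ⊢
  constructor
  · linarith [hfin.1, hK4.1]
  · linarith [hfin.2, hK4.2]

end Pool.Agent.W805.PD
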