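import Pool.Agent.W805.LR.EEl
import Pool.Agent.W805.LR.PD2

/-!
# Poisson-Dirichlet cycle lengths at all times, third version: assembly
-/

set_option autoImplicit false

namespace Pool.Agent.W805.PD

open Finset Equiv Filter Topology
open Pool.Agent.W805.LR

/-- Concentration of the number of points in short cycles. -/
theorem short_dev (hcn : S_conc) (hdf : S_diff) {V : Type} [Fintype V] [DecidableEq V]
    (J : V → V → ℝ) (t n Lam η : ℝ) (ℓ : ℕ) (hJ0 : ∀ x y, 0 ≤ J x y) (ht : 0 ≤ t) (hn : 0 < n)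
    (hη : 0 < η) (hR : t * (∑ x, ∑ y, J x y) ≤ Lam * n) (hℓ : 2 * (ℓ : ℝ) ^ 2 * Lam ≤ η ^ 2 * n) :
    EE J t (fun g => |cnt (fun v => len g v < ℓ) / n -
      EE J t (fun g => cnt fun v => len g v < ℓ) / n|) ≤ η := by
  have hZ0 : 0 < ∑ g, stirMass J t g := mass_pos J t
  obtain ⟨Ab, hAb⟩ : ∃ Ab : ℝ, Ab = EE J t (fun g => cnt fun v => len g v < ℓ) / n := ⟨_, rfl⟩
  obtain ⟨A, hA⟩ : ∃ A : Perm V → ℝ, A = fun g => cnt (fun v => len g v < ℓ) / n := ⟨_, rfl⟩
  have hAg : ∀ g, cnt (fun v => len g v < (ℓ : ℝ)) / n = A g := fun g => by rw [hA]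
  have hAb2 : EE J t A = Ab := by
    have : EE J t A = EE J t (fun g => (1 / n) * cnt (fun v => len g v < (ℓ : ℝ))) := by
      congr 1; funext g; rw [hA]; ring
    rw [this, EE_mul, hAb]; ring
  rw [← hAb]
  simp only [hAg]
  have hvar : EE J t (fun g => (A g - Ab) ^ 2) ≤ η ^ 2 := by
    have h1 := hcn V J t (2 * ℓ) (fun g => cnt (fun v => len g v < ℓ)) hJ0 ht
      (fun a b x y => hdf _ _ a b x y (Nat.cast_nonneg ℓ))
    obtain ⟨Z, hZ⟩ : ∃ Z, Z = ∑ g, stirMass J t g := ⟨_, rfl⟩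
    rw [← hZ] at h1 hZ0
    obtain ⟨P, hP⟩ : ∃ P : Perm V → ℝ, P = stirMass J t := ⟨_, rfl⟩
    rw [← hP] at h1 hZ
    have e1 : ∑ g, P g * cnt (fun v => len g v < (ℓ : ℝ)) = n * (Z * Ab) := by
      rw [hAb]
      unfold EE
      rw [← hP, ← hZ]
      field_simp
    have e2 : ∑ g, P g * cnt (fun v => len g v < (ℓ : ℝ)) ^ 2 = n ^ 2 * ∑ g, P g * A g ^ 2 := by
      rw [Finset.mul_sum]
      refine Finset.sum_congr rfl fun g _ => ?_
      rw [hA]; field_simp
    rw [e1, e2] at h1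
    have e2' : ∑ g, P g * A g = Z * Ab := by
      rw [← hAb2]; unfold EE; rw [← hP, ← hZ]; field_simp
    have e3 : EE J t (fun g => (A g - Ab) ^ 2) * Z = ∑ g, P g * A g ^ 2 - Z * Ab ^ 2 := by
      unfold EE
      rw [← hP, ← hZ, div_mul_cancel₀ _ hZ0.ne']
      calc ∑ g, P g * (A g - Ab) ^ 2 =
            ∑ g, (P g * A g ^ 2 - 2 * Ab * (P g * A g) + Ab ^ 2 * P g) :=
            Finset.sum_congr rfl fun g _ => by ring
        _ = ∑ g, P g * A g ^ 2 - 2 * Ab * ∑ g, P g * A g + Ab ^ 2 * ∑ g, P g := by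
            rw [Finset.sum_add_distrib, Finset.sum_sub_distrib, Finset.mul_sum, Finset.mul_sum]
        _ = _ := by rw [e2', ← hZ]; ring
    have h3 : t * (∑ x, ∑ y, J x y / 2) ≤ Lam * n / 2 := by
      have e4 : ∑ x, ∑ y, J x y / 2 = (∑ x, ∑ y, J x y) / 2 := by
        rw [Finset.sum_div]
        exact Finset.sum_congr rfl fun x _ => by rw [Finset.sum_div]
      rw [e4]
      linarith
    have h4 : t * (∑ x, ∑ y, J x y / 2) * (2 * (ℓ : ℝ)) ^ 2 * Z ^ 2 ≤
        Lam * n / 2 * (2 * (ℓ : ℝ)) ^ 2 * Z ^ 2 := by gcongr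
    have h5 : n ^ 2 * (∑ g, P g * A g ^ 2) * Z - (n * (Z * Ab)) ^ 2 =
        n ^ 2 * Z * (∑ g, P g * A g ^ 2 - Z * Ab ^ 2) := by ring
    rw [h5] at h1
    have h6 : n ^ 2 * Z * (∑ g, P g * A g ^ 2 - Z * Ab ^ 2) ≤ n ^ 2 * Z * (η ^ 2 * Z) := by
      refine (h1.trans h4).trans ?_
      calc Lam * n / 2 * (2 * (ℓ : ℝ)) ^ 2 * Z ^ 2 = n * Z ^ 2 * (2 * (ℓ : ℝ) ^ 2 * Lam) := by ring
        _ ≤ n * Z ^ 2 * (η ^ 2 * n) := by gcongr
        _ = _ := by ring
    have h7 : ∑ g, P g * A g ^ 2 - Z * Ab ^ 2 ≤ η ^ 2 * Z :=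
      le_of_mul_le_mul_left h6 (by positivity)
    rw [← e3] at h7
    exact le_of_mul_le_mul_right h7 hZ0
  have h1 : EE J t (fun g => |A g - Ab|) ≤ EE J t (fun g => η / 2 + 1 / (2 * η) * (A g - Ab) ^ 2) := by
    refine EE_mono hJ0 ht fun g => ?_
    have h3 : 0 ≤ (|A g - Ab| - η) ^ 2 := sq_nonneg _
    have h4 : |A g - Ab| ^ 2 = (A g - Ab) ^ 2 := sq_abs _
    have h5 : η / 2 + 1 / (2 * η) * (A g - Ab) ^ 2 - |A g - Ab| =
        (|A g - Ab| - η) ^ 2 / (2 * η) := by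
      rw [← h4]; field_simp; ring
    have h6 : 0 ≤ (|A g - Ab| - η) ^ 2 / (2 * η) := by positivity
    linarith
  rw [EE_add, EE_const, EE_mul] at h1
  have h2 : 1 / (2 * η) * EE J t (fun g => (A g - Ab) ^ 2) ≤ 1 / (2 * η) * η ^ 2 := by gcongr
  have h3 : 1 / (2 * η) * η ^ 2 = η / 2 := by field_simp
  linarith

/-- No intermediate cycles, in terms of `EE`, uniformly for `t ≥ t0`. -/
theorem nomesoE (hnm : S_nomeso) (d : ℕ) (σ lam t0 η : ℝ) (hd : 1 ≤ d) (hσ : 0 < σ) (hσd : σ < d)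
    (hlam : 0 < lam) (ht0 : 0 < t0) (hη : 0 < η) :
    ∃ ℓ K L0 : ℕ, 0 < K ∧ ∀ t ≥ t0, ∀ (L : ℕ) [NeZero L], L0 ≤ L →
      ∀ J : (Fin d → ZMod L) → (Fin d → ZMod L) → ℝ, IsRate2 d L σ lam J →
        EE J t (fun g => (cnt fun v => (ℓ : ℝ) ≤ len g v ∧ K * len g v < (L : ℝ) ^ d) /
          (L : ℝ) ^ d) ≤ η := by
  obtain ⟨ℓ, K, L0, hK, h⟩ := hnm d σ (lam * t0) η hd hσ hσd (by positivity) hη
  refine ⟨ℓ, K, L0, hK, fun t ht L _ hL J hJ => ?_⟩
  have h1 := h L hL (fun x y => t * J x y) (isRate_scale hlam ht0 ht hJ)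
  simp only [stirMass_scale] at h1
  have hL0 : (0 : ℝ) < L := by exact_mod_cast Nat.pos_of_ne_zero (NeZero.ne L)
  have hn0 : (0 : ℝ) < (L : ℝ) ^ d := by positivity
  have hZ0 := mass_pos J t
  unfold EE
  rw [div_le_iff₀ hZ0]
  have e1 : ∑ g, stirMass J t g * ((cnt fun v => (ℓ : ℝ) ≤ len g v ∧ K * len g v < (L : ℝ) ^ d) /
          (L : ℝ) ^ d) = (∑ g, stirMass J t g *
            (cnt fun v => (ℓ : ℝ) ≤ len g v ∧ K * len g v < (L : ℝ) ^ d)) / (L : ℝ) ^ d := by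
    rw [Finset.sum_div]
    exact Finset.sum_congr rfl fun g _ => by ring
  rw [e1, div_le_iff₀ hn0]
  refine h1.trans (le_of_eq (by ring))

theorem pd3 (hpd : S_pd) (hnm : S_nomeso) (hcn : S_conc) (hdf : S_diff) (hpo : S_topmass) :
    S_pd3 := by
  intro d σ lam t0 Lam δ hd hσ hσd hlam ht0 hδ
  constructor
  · intro k f hf
    obtain ⟨⟨C, hC0, hC⟩, huc⟩ := Pool.Agent.W782.PD.Avg.pdInt_cont k f hf
    obtain ⟨ρ, hρ0, hρ⟩ := huc (δ / 4) (by positivity)
    obtain ⟨η, hη⟩ : ∃ η : ℝ, η = δ * ρ / (16 * C) := ⟨_, rfl⟩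
    have hη0 : 0 < η := by rw [hη]; positivity
    have hηC : 2 * C / ρ * (2 * η) = δ / 4 := by rw [hη]; field_simp; ring
    obtain ⟨ℓ0, Km, L0m, hKm, hnm'⟩ := nomesoE hnm d σ lam t0 η hd hσ hσd hlam ht0 hη0
    have hKm' : (0 : ℝ) < Km := by exact_mod_cast hKm
    obtain ⟨K1, L0p, hpd'⟩ := hpd d σ lam t0 k f (min (δ / 2) (1 / Km)) hd hσ hσd hlam ht0 hf
      (by positivity)
    refine ⟨ℓ0, fun ℓ hℓ => ?_⟩
    obtain ⟨L1, hL1⟩ := exists_nat_ge (2 * (ℓ : ℝ) ^ 2 * Lam / η ^ 2)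
    refine ⟨max (max L0p L0m) (max (K1 * ℓ) (max L1 1)), fun t ht L _ hL J hJ hR => ?_⟩
    have hLp : L0p ≤ L := ((le_max_left _ _).trans (le_max_left _ _)).trans hL
    have hLm : L0m ≤ L := ((le_max_right _ _).trans (le_max_left _ _)).trans hL
    have hLK1 : K1 * ℓ ≤ L := ((le_max_left _ _).trans (le_max_right _ _)).trans hL
    have hLL1 : L1 ≤ L :=
      (((le_max_left _ _).trans (le_max_right _ _)).trans (le_max_right _ _)).trans hL
    have hL1' : 1 ≤ L :=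
      (((le_max_right _ _).trans (le_max_right _ _)).trans (le_max_right _ _)).trans hL
    have hLr : (1 : ℝ) ≤ L := by exact_mod_cast hL1'
    have ht' : 0 < t := lt_of_lt_of_le ht0 ht
    obtain ⟨n, hn⟩ : ∃ n : ℝ, n = (L : ℝ) ^ d := ⟨_, rfl⟩
    have hnL : (L : ℝ) ≤ n := by rw [hn]; exact le_self_pow₀ hLr (by omega)
    have hn0 : 0 < n := by linarith
    have hcard : (Fintype.card (Fin d → ZMod L) : ℝ) = n := by
      rw [Fintype.card_fun, ZMod.card, Fintype.card_fin, hn]; push_cast; rfl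
    have hJ0 := PDAS.rate_nonneg hlam hJ
    obtain ⟨K, hK1, hK2', hK3⟩ := hpd' t ht L hLp J hJ
    have hKKm : Km ≤ K := by
      have h1 : (Km : ℝ) ≤ 1 / min (δ / 2) (1 / Km) := by
        rw [le_div_iff₀ (by positivity)]
        calc (Km : ℝ) * min (δ / 2) (1 / Km) ≤ Km * (1 / Km) :=
              mul_le_mul_of_nonneg_left (min_le_right _ _) hKm'.le
          _ = 1 := by field_simp
      exact_mod_cast h1.trans hK1
    have hK0 : 0 < K := lt_of_lt_of_le hKm hKKm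
    have hnm2 := hnm' t ht L hLm J hJ
    rw [← hn] at hnm2 hR ⊢
    obtain ⟨Ab, hAb⟩ : ∃ Ab : ℝ, Ab = EE J t (fun g => cnt fun v => len g v < ℓ) / n := ⟨_, rfl⟩
    have hdev := short_dev hcn hdf J t n Lam η ℓ hJ0 ht'.le hn0 hη0 hR (by
      have h8 : 2 * (ℓ : ℝ) ^ 2 * Lam / η ^ 2 ≤ n :=
        hL1.trans (le_trans (by exact_mod_cast hLL1) hnL)
      rw [div_le_iff₀ (by positivity)] at h8
      linarith)
    rw [← hAb] at hdev ⊢
    have hAb0 : 0 ≤ Ab := by
      rw [hAb]; exact div_nonneg (EE_nonneg hJ0 ht'.le fun g => cnt_nonneg _) hn0.le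
    have hAb1 : Ab ≤ 1 := by
      rw [hAb, div_le_one hn0]
      refine EE_le hJ0 ht'.le n fun g => ?_
      rw [← hcard]; exact cnt_le_card _
    have hdist : ∀ g : Perm (Fin d → ZMod L), |MK g K - (1 - Ab)| ≤
        (cnt fun v => (ℓ0 : ℝ) ≤ len g v ∧ Km * len g v < n) / n +
          |cnt (fun v => len g v < (ℓ : ℝ)) / n - Ab| := by
      intro g
      obtain ⟨Ag, hAg⟩ : ∃ Ag, Ag = cnt (fun v => len g v < (ℓ : ℝ)) / n := ⟨_, rfl⟩
      obtain ⟨mg, hmg⟩ : ∃ mg, mg = (cnt fun v => (ℓ0 : ℝ) ≤ len g v ∧ Km * len g v < n) / n :=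
        ⟨_, rfl⟩
      have hmg0 : 0 ≤ mg := by rw [hmg]; exact div_nonneg (cnt_nonneg _) hn0.le
      rw [← hAg, ← hmg]
      have h1 : |MK g K - (1 - Ag)| ≤ mg := by
        rw [abs_le]
        constructor
        · have h2 := le_MK g K Km ℓ hKKm
          rw [hcard, ← hAg] at h2
          have h3 : cnt (fun v => (ℓ : ℝ) ≤ len g v ∧ Km * len g v < n) / n ≤ mg := by
            rw [hmg]
            refine div_le_div_of_nonneg_right (cnt_mono fun v hv => ⟨?_, hv.2⟩) hn0.le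
            have : (ℓ0 : ℝ) ≤ ℓ := by exact_mod_cast hℓ
            exact this.trans hv.1
          linarith
        · have h2 := MK_le g K ℓ (by
            rw [hcard]
            refine le_trans ?_ hnL
            exact_mod_cast (Nat.mul_le_mul_right ℓ hK2').trans hLK1) hK0
          rw [hcard, ← hAg] at h2
          linarith
      calc |MK g K - (1 - Ab)| = |(MK g K - (1 - Ag)) + (Ab - Ag)| := by congr 1; ring
        _ ≤ |MK g K - (1 - Ag)| + |Ab - Ag| := abs_add_le _ _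
        _ ≤ _ := by rw [abs_sub_comm Ab]; linarith
    have hsumdist : EE J t (fun g => |MK g K - (1 - Ab)|) ≤ 2 * η := by
      have h1 := EE_mono hJ0 ht'.le hdist
      rw [EE_add] at h1
      linarith
    have hfin : |EE J t (fun g => pdInt k f (MK g K)) - pdInt k f (1 - Ab)| ≤ δ / 2 := by
      have e1 : EE J t (fun g => pdInt k f (MK g K)) - pdInt k f (1 - Ab) =
          EE J t (fun g => pdInt k f (MK g K) - pdInt k f (1 - Ab)) := by
        rw [EE_sub, EE_const]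
      rw [e1]
      refine (abs_EE_le hJ0 ht'.le _).trans ?_
      have h2 : EE J t (fun g => |pdInt k f (MK g K) - pdInt k f (1 - Ab)|) ≤
          EE J t (fun g => δ / 4 + 2 * C / ρ * |MK g K - (1 - Ab)|) := by
        refine EE_mono hJ0 ht'.le fun g => ?_
        rcases le_or_gt |MK g K - (1 - Ab)| ρ with h | h
        · have h2 := hρ (MK g K) (1 - Ab) (MK_nonneg g K) (MK_le_one g K) (by linarith)
            (by linarith) h
          have h3 : 0 ≤ 2 * C / ρ * |MK g K - (1 - Ab)| := by positivity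
          linarith
        · have h2 := hC (MK g K) (MK_nonneg g K) (MK_le_one g K)
          have h3 := hC (1 - Ab) (by linarith) (by linarith)
          have h4 : |pdInt k f (MK g K) - pdInt k f (1 - Ab)| ≤ 2 * C := by
            calc _ ≤ |pdInt k f (MK g K)| + |pdInt k f (1 - Ab)| := abs_sub _ _
              _ ≤ _ := by linarith
          have h5 : 2 * C ≤ 2 * C / ρ * |MK g K - (1 - Ab)| := by
            rw [div_mul_eq_mul_div, le_div_iff₀ hρ0]
            exact mul_le_mul_of_nonneg_left h.le (by positivity)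
          linarith
      rw [EE_add, EE_const, EE_mul] at h2
      have h3 : 2 * C / ρ * EE J t (fun g => |MK g K - (1 - Ab)|) ≤ 2 * C / ρ * (2 * η) := by
        gcongr
      linarith
    have hZ0 := mass_pos J t
    have hK4 : |EE J t (fun g => f (fun i : Fin k => pOrd g i)) -
        EE J t (fun g => pdInt k f (MK g K))| ≤ δ / 2 := by
      unfold EE
      rw [← sub_div, abs_div, abs_of_pos hZ0, div_le_iff₀ hZ0]
      refine hK3.trans ?_
      exact mul_le_mul_of_nonneg_right (min_le_left _ _) hZ0.le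
    rw [abs_le] at hfin hK4 ⊢
    constructor
    · linarith [hfin.1, hK4.1]
    · linarith [hfin.2, hK4.2]
  · obtain ⟨ℓ0, Km, L0m, hKm, hnm'⟩ := nomesoE hnm d σ lam t0 (δ / 2) hd hσ hσd hlam ht0
      (by positivity)
    have hKm' : (0 : ℝ) < Km := by exact_mod_cast hKm
    refine ⟨ℓ0, Km, fun ℓ K' hℓ hK' => ?_⟩
    have hK'0 : 0 < K' := lt_of_lt_of_le hKm hK'
    obtain ⟨K2, hK2⟩ := exists_nat_ge ((K' : ℝ) / (δ / 2))
    have hK'r : (0 : ℝ) < K' := by exact_mod_cast hK'0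
    have hK2r : (0 : ℝ) < K2 := lt_of_lt_of_le (by positivity) hK2
    have hK20 : 0 < K2 := by exact_mod_cast hK2r
    have hK2η : (K' : ℝ) / K2 ≤ δ / 2 := by
      rw [div_le_iff₀ hK2r]; rw [div_le_iff₀ (by positivity)] at hK2; linarith
    refine ⟨max L0m (max (K2 * ℓ) 1), fun t ht L _ hL J hJ => ?_⟩
    have hLm : L0m ≤ L := (le_max_left _ _).trans hL
    have hLK2 : K2 * ℓ ≤ L := ((le_max_left _ _).trans (le_max_right _ _)).trans hL
    have hL1' : 1 ≤ L := ((le_max_right _ _).trans (le_max_right _ _)).trans hL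
    have hLr : (1 : ℝ) ≤ L := by exact_mod_cast hL1'
    have ht' : 0 < t := lt_of_lt_of_le ht0 ht
    obtain ⟨n, hn⟩ : ∃ n : ℝ, n = (L : ℝ) ^ d := ⟨_, rfl⟩
    have hnL : (L : ℝ) ≤ n := by rw [hn]; exact le_self_pow₀ hLr (by omega)
    have hn0 : 0 < n := by linarith
    have hcard : (Fintype.card (Fin d → ZMod L) : ℝ) = n := by
      rw [Fintype.card_fun, ZMod.card, Fintype.card_fin, hn]; push_cast; rfl
    have hJ0 := PDAS.rate_nonneg hlam hJ
    have hnm2 := hnm' t ht L hLm J hJ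
    rw [← hn] at hnm2 ⊢
    have hE : ∀ g : Perm (Fin d → ZMod L), |∑ i ∈ range K', pOrd g i -
        (1 - cnt (fun v => len g v < (ℓ : ℝ)) / n)| ≤
        (cnt fun v => (ℓ0 : ℝ) ≤ len g v ∧ Km * len g v < n) / n + δ / 2 := by
      intro g
      obtain ⟨Ag, hAg⟩ : ∃ Ag, Ag = cnt (fun v => len g v < (ℓ : ℝ)) / n := ⟨_, rfl⟩
      obtain ⟨mg, hmg⟩ : ∃ mg, mg = (cnt fun v => (ℓ0 : ℝ) ≤ len g v ∧ Km * len g v < n) / n :=
        ⟨_, rfl⟩
      have hmg0 : 0 ≤ mg := by rw [hmg]; exact div_nonneg (cnt_nonneg _) hn0.le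
      rw [← hAg, ← hmg, abs_le]
      constructor
      · have h1 : MK g Km ≤ ∑ i ∈ range K', pOrd g i := (hpo _ g Km K' hKm).1 hK'
        have h2 := le_MK g Km Km ℓ le_rfl
        rw [hcard, ← hAg] at h2
        have h3 : cnt (fun v => (ℓ : ℝ) ≤ len g v ∧ Km * len g v < n) / n ≤ mg := by
          rw [hmg]
          refine div_le_div_of_nonneg_right (cnt_mono fun v hv => ⟨?_, hv.2⟩) hn0.le
          have : (ℓ0 : ℝ) ≤ ℓ := by exact_mod_cast hℓ
          exact this.trans hv.1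
        linarith
      · have h1 : ∑ i ∈ range K', pOrd g i ≤ MK g K2 + K' / K2 := (hpo _ g K2 K' hK20).2
        have h2 := MK_le g K2 ℓ (by
          rw [hcard]
          refine le_trans ?_ hnL
          exact_mod_cast hLK2) hK20
        rw [hcard, ← hAg] at h2
        linarith
    have e1 : EE J t (fun g => ∑ i ∈ range K', pOrd g i) -
        (1 - EE J t (fun g => cnt fun v => len g v < (ℓ : ℝ)) / n) =
        EE J t (fun g => ∑ i ∈ range K', pOrd g i -
          (1 - cnt (fun v => len g v < (ℓ : ℝ)) / n)) := by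
      have e2 : EE J t (fun g => cnt (fun v => len g v < (ℓ : ℝ)) / n) =
          EE J t (fun g => cnt (fun v => len g v < (ℓ : ℝ))) / n := by
        have : EE J t (fun g => cnt (fun v => len g v < (ℓ : ℝ)) / n) =
            EE J t (fun g => (1 / n) * cnt (fun v => len g v < (ℓ : ℝ))) := by
          congr 1; funext g; ring
        rw [this, EE_mul]; ring
      rw [EE_sub, EE_sub, EE_const, e2]
    rw [e1]
    refine (abs_EE_le hJ0 ht'.le _).trans ?_
    have h1 := EE_mono hJ0 ht'.le hE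
    rw [EE_add, EE_const] at h1
    linarith

end Pool.Agent.W805.PD
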