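import Pool.Agent.W805.LR.Stm2

/-!
# Random stirring with long-range rates: consequences (quantum spins, many cycles, small times)
-/

set_option autoImplicit false

namespace Pool.Agent.W805.LR

open Finset Equiv Filter Topology

/-! ## Quantum spins 1/2 -/

section quantum

variable {V : Type} [Fintype V] [DecidableEq V]

/-- First spin component at `x`: half the first Pauli matrix. -/
noncomputable def spin1 (x : V) : Matrix (V → Bool) (V → Bool) ℂ :=
  fun s s' => if s' = Function.update s x (!(s x)) then 1 / 2 else 0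

/-- Second spin component at `x`: half the second Pauli matrix. -/
noncomputable def spin2 (x : V) : Matrix (V → Bool) (V → Bool) ℂ :=
  fun s s' => if s' = Function.update s x (!(s x)) then
    (if s x then -Complex.I / 2 else Complex.I / 2) else 0

/-- Third spin component at `x`: half the third Pauli matrix. -/
noncomputable def spin3 (x : V) : Matrix (V → Bool) (V → Bool) ℂ :=
  Matrix.diagonal fun s => if s x then 1 / 2 else -1 / 2

/-- The Heisenberg ferromagnet `H = - 2 ∑_{unordered pairs} J x y (S_x · S_y)`; the sum below is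
over ordered pairs. -/
noncomputable def heis (J : V → V → ℝ) : Matrix (V → Bool) (V → Bool) ℂ :=
  -∑ x, ∑ y, (J x y : ℂ) • (spin1 x * spin1 y + spin2 x * spin2 y + spin3 x * spin3 y)

/-- `exp (-β H)`. -/
noncomputable def gibbsOp (J : V → V → ℝ) (β : ℝ) : Matrix (V → Bool) (V → Bool) ℂ :=
  NormedSpace.exp ((-β : ℂ) • heis J)

end quantum

/-- QS: the partition function and the mean square magnetisation in terms of stirring. -/
def S_quantum : Prop := ∀ (V : Type) [Fintype V] [DecidableEq V] (J : V → V → ℝ) (β : ℝ),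
  (∀ x, J x x = 0) →
  ∃ C : ℝ, 0 < C ∧
    (gibbsOp J β).trace = ((C * ∑ g, stirMass J β g * 2 ^ cyc g : ℝ) : ℂ) ∧
    ((∑ x, spin3 x) ^ 2 * gibbsOp J β).trace =
      ((C * ∑ g, stirMass J β g * 2 ^ cyc g * ((∑ x, len g x) / 4) : ℝ) : ℂ)

/-! ## Adding a weak mean-field part -/

/-- CV: effect of an additional mean-field rate `κ`. -/
def S_conv : Prop := ∀ (V : Type) [Fintype V] [DecidableEq V] (J : V → V → ℝ) (t κ θ : ℝ),
  (∀ x y, 0 ≤ J x y) → 0 ≤ t → 0 ≤ κ → 0 < θ →
  (∀ g, stirMass J t g + ∑ x, ∑ y, (if x ≠ y then t * κ / 2 * stirMass J t (swap x y * g) else 0) ≤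
    stirMass (fun x y => J x y + if x ≠ y then κ else 0) t g) ∧
  ∑ g, stirMass (fun x y => J x y + if x ≠ y then κ else 0) t g * θ ^ cyc g ≤
    Real.exp (max θ θ⁻¹ * t * κ * (Fintype.card V) ^ 2 / 2) * ∑ g, stirMass J t g * θ ^ cyc g

/-- There are `k` different cycles of length at least `s`. -/
def manyCyc {V : Type} [Fintype V] [DecidableEq V] (g : Perm V) (k : ℕ) (s : ℝ) : Prop :=
  ∃ f : Fin k → V, (∀ a b, a ≠ b → ¬ g.SameCycle (f a) (f b)) ∧ ∀ a, s ≤ len g (f a)

/-- MC: from `k` long cycles to `k + 1` long cycles by one transposition. There are many choices. -/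
def S_many : Prop := ∀ (V : Type) [Fintype V] [DecidableEq V] (g : Perm V) (k : ℕ) (s : ℝ),
  8 ≤ s → 1 ≤ k → manyCyc g k s →
    s ^ 2 / 4 ≤ ∑ x, cnt fun y => x ≠ y ∧ manyCyc (swap x y * g) (k + 1) (s / 4)

/-- SM: no long cycles at small times. -/
def S_small : Prop := ∀ (V : Type) [Fintype V] [DecidableEq V] (J : V → V → ℝ) (t θ S : ℝ),
  (∀ x y, 0 ≤ J x y) → (∀ x y, J x y = J y x) → (∀ x, J x x = 0) → (∀ x, ∑ y, J x y ≤ S) →
  0 ≤ t → 0 < θ → max θ θ⁻¹ * t * S < 1 →
  ∑ g, stirMass J t g * θ ^ cyc g * (∑ x, len g x) ≤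
    Fintype.card V / (1 - max θ θ⁻¹ * t * S) * ∑ g, stirMass J t g * θ ^ cyc g

/-- TI: for translation invariant rates all points are alike. -/
def S_trans : Prop := ∀ (d L : ℕ) [NeZero L] (J : (Fin d → ZMod L) → (Fin d → ZMod L) → ℝ)
  (t θ s : ℝ), (∀ x y z, J (x + z) (y + z) = J x y) →
  ∑ g, stirMass J t g * θ ^ cyc g * (cnt fun v => len g v < s) =
    (L : ℝ) ^ d * ∑ g, stirMass J t g * θ ^ cyc g *
      (open Classical in if len g (0 : Fin d → ZMod L) < s then 1 else 0)

end Pool.Agent.W805.LR
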