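import Pool.Agent.W805.LR.EEl
import Pool.Agent.W805.LR.PD3
import Pool.Agent.W805.LR.Stm3

/-!
# Random stirring with long-range rates: existence and continuity of the macroscopic mass
-/

set_option autoImplicit false

namespace Pool.Agent.W805.PD

open Finset Equiv Filter Topology
open Pool.Agent.W805.LR

section aux

variable {V : Type} [Fintype V] [DecidableEq V]

/-- Lipschitz continuity in time. -/
theorem lip (hcm : S_cmp) (hdf : S_diff) (J : V → V → ℝ) (s t : ℝ) (ℓ : ℕ)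
    (hJ0 : ∀ x y, 0 ≤ J x y) (hs : 0 ≤ s) (hst : s ≤ t) :
    |EE J t (fun g => cnt fun v => len g v < ℓ) - EE J s (fun g => cnt fun v => len g v < ℓ)| ≤
      (t - s) * (∑ x, ∑ y, J x y) * ℓ := by
  have h1 := hcm V (fun x y => s * J x y) (fun x y => (t - s) * J x y) 1 (2 * ℓ)
    (fun g => cnt fun v => len g v < ℓ) (fun x y => mul_nonneg hs (hJ0 x y))
    (fun x y => mul_nonneg (by linarith) (hJ0 x y)) zero_le_one
    (fun a b x y => hdf _ _ a b x y (Nat.cast_nonneg ℓ))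
  have e1 : (fun x y => s * J x y + (t - s) * J x y) = fun x y => t * J x y := by
    funext x y; ring
  simp only [e1] at h1
  rw [EE_scale J t _ (stirMass_scale J t), EE_scale J s _ (stirMass_scale J s)] at h1
  refine h1.trans (le_of_eq ?_)
  have e2 : ∑ x, ∑ y, (t - s) * J x y / 2 = (t - s) / 2 * ∑ x, ∑ y, J x y := by
    rw [Finset.mul_sum]
    refine Finset.sum_congr rfl fun x _ => ?_
    rw [Finset.mul_sum]
    exact Finset.sum_congr rfl fun y _ => by ring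
  rw [e2]; ring

/-- Small times. -/
theorem small_time (hsm : S_small) (J : V → V → ℝ) (t S : ℝ) (ℓ : ℕ) (hℓ : 0 < ℓ)
    (hJ0 : ∀ x y, 0 ≤ J x y) (hsym : ∀ x y, J x y = J y x) (hd : ∀ x, J x x = 0)
    (hS : ∀ x, ∑ y, J x y ≤ S) (ht : 0 ≤ t) (htS : t * S < 1) :
    Fintype.card V - EE J t (fun g => cnt fun v => len g v < ℓ) ≤
      Fintype.card V / (1 - t * S) / ℓ := by
  have h1 := hsm V J t 1 S hJ0 hsym hd hS ht one_pos (by norm_num; linarith)
  have hm1 : max (1 : ℝ) 1⁻¹ = 1 := by norm_num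
  rw [hm1] at h1
  simp only [one_pow, mul_one, one_mul] at h1
  have hℓ' : (0 : ℝ) < ℓ := by exact_mod_cast hℓ
  have hZ0 := mass_pos J t
  have h2 : EE J t (fun g => ∑ x, len g x) ≤ Fintype.card V / (1 - t * S) := by
    unfold EE
    rw [div_le_iff₀ hZ0]
    exact h1
  have h3 : EE J t (fun g => (Fintype.card V : ℝ) - cnt fun v => len g v < ℓ) ≤
      EE J t (fun g => (1 / (ℓ : ℝ)) * ∑ x, len g x) := by
    refine EE_mono hJ0 ht fun g => ?_
    have h4 := cnt_compl (V := V) (fun v => len g v < (ℓ : ℝ))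
    have h5 : cnt (fun v : V => ¬ len g v < (ℓ : ℝ)) ≤ 1 / (ℓ : ℝ) * ∑ x, len g x := by
      unfold cnt
      rw [Finset.mul_sum]
      refine Finset.sum_le_sum fun v _ => ?_
      split_ifs with h
      · have h' : (ℓ : ℝ) ≤ len g v := not_lt.1 h
        rw [one_div, ← div_eq_inv_mul, le_div_iff₀ hℓ', one_mul]
        exact h'
      · have := len_nonneg' g v
        positivity
    linarith
  rw [EE_sub, EE_const, EE_mul] at h3
  refine h3.trans ?_
  rw [one_div, ← div_eq_inv_mul]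
  exact div_le_div_of_nonneg_right h2 hℓ'.le

end aux

theorem fullQ (hpd3 : S_pd3) (hnm : S_nomeso) (hcm : S_cmp) (hdf : S_diff) (hlo : S_loc)
    (hwr : S_wrap) (hsm : S_small) (hmain : S_main2) : S_fullQ := by
  intro d σ lam φ hd hσ hσd hlam hφ hlow
  obtain ⟨S, hS⟩ : ∃ S : ℝ, S = ∑' z, φ z := ⟨_, rfl⟩
  have hS0 : 0 ≤ S := by rw [hS]; exact tsum_nonneg hφ.nonneg
  -- rates
  obtain ⟨J, hJdef⟩ : ∃ J : (N : ℕ) → (Fin d → ZMod (N + 1)) → (Fin d → ZMod (N + 1)) → ℝ,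
    J = fun N x y => wrap φ x y := ⟨_, rfl⟩
  have hJN : ∀ N, (fun x y : Fin d → ZMod (N + 1) => wrap φ x y) = J N := fun N => by rw [hJdef]
  simp only [hJN]
  have hJ0 : ∀ N x y, 0 ≤ J N x y := fun N x y => by
    rw [hJdef]; exact (hwr d (N + 1) σ lam φ hφ).2.1 x y
  have hJr : ∀ N, IsRate2 d (N + 1) σ lam (J N) := fun N => by
    rw [hJdef]; exact (hwr d (N + 1) σ lam φ hφ).2.2.2.2 hlow
  have hJrow : ∀ N x, ∑ y, J N x y ≤ S := fun N x => by
    rw [hJdef, hS]; exact (hwr d (N + 1) σ lam φ hφ).2.2.1 x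
  obtain ⟨n, hn⟩ : ∃ n : ℕ → ℝ, n = fun N : ℕ => ((N : ℝ) + 1) ^ d := ⟨_, rfl⟩
  have hnN : ∀ N : ℕ, ((N : ℝ) + 1) ^ d = n N := fun N => by rw [hn]
  have hnc : ∀ N : ℕ, (((N + 1 : ℕ)) : ℝ) ^ d = n N := fun N => by rw [← hnN]; push_cast; ring
  have hn0 : ∀ N, 0 < n N := fun N => by rw [← hnN]; positivity
  have hnge : ∀ N : ℕ, (N : ℝ) + 1 ≤ n N := fun N => by
    rw [← hnN]
    exact le_self_pow₀ (by have : (0 : ℝ) ≤ N := Nat.cast_nonneg N; linarith) (by omega)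
  have hcard : ∀ N, (Fintype.card (Fin d → ZMod (N + 1)) : ℝ) = n N := fun N => by
    rw [Fintype.card_fun, ZMod.card, Fintype.card_fin, ← hnc]; push_cast; rfl
  have hJsum : ∀ N, ∑ x, ∑ y, J N x y ≤ S * n N := fun N => by
    calc ∑ x, ∑ y, J N x y ≤ ∑ _x : Fin d → ZMod (N + 1), S :=
          Finset.sum_le_sum fun x _ => hJrow N x
      _ = _ := by rw [Finset.sum_const, Finset.card_univ, nsmul_eq_mul, hcard, mul_comm]
  have hJsum0 : ∀ N, 0 ≤ ∑ x, ∑ y, J N x y := fun N =>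
    Finset.sum_nonneg fun x _ => Finset.sum_nonneg fun y _ => hJ0 N x y
  -- the fraction of points in short cycles
  obtain ⟨a, ha⟩ : ∃ a : ℕ → ℝ → ℕ → ℝ, a = fun (ℓ : ℕ) t N =>
    EE (J N) t (fun g => cnt fun v => len g v < (ℓ : ℝ)) / n N := ⟨_, rfl⟩
  have haE : ∀ (ℓ : ℕ) (t : ℝ) (N : ℕ),
      EE (J N) t (fun g => cnt fun v => len g v < (ℓ : ℝ)) / n N = a ℓ t N :=
    fun ℓ t N => by rw [ha]
  have ha0 : ∀ ℓ t N, 0 ≤ t → 0 ≤ a ℓ t N := fun ℓ t N ht => by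
    rw [← haE]; exact div_nonneg (EE_nonneg (hJ0 N) ht fun g => cnt_nonneg _) (hn0 N).le
  have ha1 : ∀ ℓ t N, 0 ≤ t → a ℓ t N ≤ 1 := fun ℓ t N ht => by
    rw [← haE, div_le_one (hn0 N)]
    refine EE_le (hJ0 N) ht (n N) fun g => ?_
    rw [← hcard]; exact cnt_le_card _
  have hamono : ∀ ℓ ℓ' t N, 0 ≤ t → ℓ ≤ ℓ' → a ℓ t N ≤ a ℓ' t N := fun ℓ ℓ' t N ht h => by
    rw [← haE, ← haE]
    refine div_le_div_of_nonneg_right (EE_mono (hJ0 N) ht fun g => cnt_mono fun v hv => ?_)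
      (hn0 N).le
    exact lt_of_lt_of_le hv (by exact_mod_cast h)
  have halip : ∀ ℓ s t N, 0 ≤ s → s ≤ t → |a ℓ t N - a ℓ s N| ≤ (t - s) * S * ℓ := by
    intro ℓ s t N hs hst
    rw [← haE, ← haE, ← sub_div, abs_div, abs_of_pos (hn0 N), div_le_iff₀ (hn0 N)]
    refine (lip hcm hdf (J N) s t ℓ (hJ0 N) hs hst).trans ?_
    have h1 : (t - s) * (∑ x, ∑ y, J N x y) * ℓ ≤ (t - s) * (S * n N) * ℓ := by
      have := hJsum N
      have h2 : 0 ≤ t - s := by linarith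
      gcongr
    refine h1.trans (le_of_eq (by ring))
  -- the limits
  have hlim : ∀ (ℓ : ℕ) (t : ℝ), ∃ x : ℝ, 0 ≤ t → Tendsto (a ℓ t) atTop (𝓝 x) := by
    intro ℓ t
    by_cases ht : 0 ≤ t
    · obtain ⟨x, hx⟩ := hlo d φ ℓ t hd hφ (Nat.cast_nonneg ℓ) ht
      refine ⟨x, fun _ => ?_⟩
      simp only [hJN, hnN] at hx
      rw [ha]
      exact hx
    · exact ⟨0, fun h => absurd h ht⟩
  choose x hx using hlim
  have hx0 : ∀ ℓ t, 0 ≤ t → 0 ≤ x ℓ t := fun ℓ t ht =>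
    ge_of_tendsto' (hx ℓ t ht) fun N => ha0 ℓ t N ht
  have hx1 : ∀ ℓ t, 0 ≤ t → x ℓ t ≤ 1 := fun ℓ t ht =>
    le_of_tendsto' (hx ℓ t ht) fun N => ha1 ℓ t N ht
  have hxmono : ∀ t, 0 ≤ t → Monotone fun ℓ => x ℓ t := fun t ht ℓ ℓ' h =>
    le_of_tendsto_of_tendsto' (hx ℓ t ht) (hx ℓ' t ht) fun N => hamono ℓ ℓ' t N ht h
  have hxlip : ∀ ℓ s t, 0 ≤ s → s ≤ t → |x ℓ t - x ℓ s| ≤ (t - s) * S * ℓ := by
    intro ℓ s t hs hst
    have h1 := ((hx ℓ t (hs.trans hst)).sub (hx ℓ s hs)).abs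
    exact le_of_tendsto' h1 fun N => halip ℓ s t N hs hst
  -- no intermediate cycles
  have hmeso : ∀ t0 > 0, ∀ η > 0, ∃ ℓ0 : ℕ, ∀ ℓ ≥ ℓ0, ∀ t ≥ t0, x ℓ t ≤ x ℓ0 t + η := by
    intro t0 ht0 η hη
    obtain ⟨ℓ0, K, L0, hK, h⟩ := nomesoE hnm d σ lam t0 η hd hσ hσd hlam ht0 hη
    refine ⟨ℓ0, fun ℓ hℓ t ht => ?_⟩
    have ht' : 0 ≤ t := by linarith
    refine le_of_tendsto_of_tendsto (hx ℓ t ht') ((hx ℓ0 t ht').add_const η) ?_
    filter_upwards [Filter.eventually_ge_atTop (max L0 (K * ℓ))] with N hN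
    have h1 := h t ht (N + 1) ((le_max_left _ _).trans (hN.trans (Nat.le_succ N))) (J N) (hJr N)
    rw [hnc] at h1
    have h2 : a ℓ t N ≤ a ℓ0 t N + EE (J N) t (fun g => (cnt fun v => (ℓ0 : ℝ) ≤ len g v ∧
        K * len g v < n N) / n N) := by
      have e1 : EE (J N) t (fun g => (cnt fun v => (ℓ0 : ℝ) ≤ len g v ∧
          K * len g v < n N) / n N) = EE (J N) t (fun g => (cnt fun v => (ℓ0 : ℝ) ≤ len g v ∧
          K * len g v < n N)) / n N := by
        have : EE (J N) t (fun g => (cnt fun v => (ℓ0 : ℝ) ≤ len g v ∧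
          K * len g v < n N) / n N) = EE (J N) t (fun g => (1 / n N) * (cnt fun v =>
            (ℓ0 : ℝ) ≤ len g v ∧ K * len g v < n N)) := by
          congr 1; funext g; ring
        rw [this, EE_mul]; ring
      rw [e1, ← haE, ← haE, ← add_div, ← EE_add]
      refine div_le_div_of_nonneg_right (EE_mono (hJ0 N) ht' fun g => cnt_le_add fun v hv => ?_)
        (hn0 N).le
      rcases lt_or_ge (len g v) ℓ0 with h | h
      · exact Or.inl h
      · refine Or.inr ⟨h, ?_⟩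
        have h3 : (K : ℝ) * ℓ ≤ N := by
          have : K * ℓ ≤ N := (le_max_right _ _).trans hN
          exact_mod_cast this
        have h4 : (K : ℝ) * len g v ≤ K * ℓ :=
          mul_le_mul_of_nonneg_left (le_of_lt hv) (Nat.cast_nonneg K)
        have := hnge N
        linarith
    linarith
  -- the mass
  obtain ⟨m, hm⟩ : ∃ m : ℝ → ℝ, m = fun t => 1 - ⨆ ℓ, x ℓ t := ⟨_, rfl⟩
  have hbdd : ∀ t, 0 ≤ t → BddAbove (Set.range fun ℓ => x ℓ t) := fun t ht =>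
    ⟨1, by rintro _ ⟨ℓ, rfl⟩; exact hx1 ℓ t ht⟩
  have hmlim : ∀ t, 0 ≤ t → Tendsto (fun ℓ => x ℓ t) atTop (𝓝 (1 - m t)) := by
    intro t ht
    have h := tendsto_atTop_ciSup (hxmono t ht) (hbdd t ht)
    have e : 1 - m t = ⨆ ℓ, x ℓ t := by rw [hm]; ring
    rw [e]; exact h
  have hxle : ∀ ℓ t, 0 ≤ t → x ℓ t ≤ 1 - m t := fun ℓ t ht => by
    have e : 1 - m t = ⨆ ℓ, x ℓ t := by rw [hm]; ring
    rw [e]; exact le_ciSup (hbdd t ht) ℓ
  have hm0 : ∀ t, 0 ≤ t → 0 ≤ m t := fun t ht => by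
    have := le_of_tendsto' (hmlim t ht) fun ℓ => hx1 ℓ t ht
    linarith
  have hm1 : ∀ t, 0 ≤ t → m t ≤ 1 := fun t ht => by
    have := (hx0 0 t ht).trans (hxle 0 t ht)
    linarith
  have hunif : ∀ t0 > 0, ∀ η > 0, ∃ ℓ0 : ℕ, ∀ ℓ ≥ ℓ0, ∀ t ≥ t0, |x ℓ t - (1 - m t)| ≤ η := by
    intro t0 ht0 η hη
    obtain ⟨ℓ0, h⟩ := hmeso t0 ht0 η hη
    refine ⟨ℓ0, fun ℓ hℓ t ht => ?_⟩
    have ht' : 0 ≤ t := by linarith
    have h1 : 1 - m t ≤ x ℓ0 t + η := by
      refine le_of_tendsto (hmlim t ht') ?_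
      filter_upwards [Filter.eventually_ge_atTop ℓ0] with ℓ' hℓ'
      exact h ℓ' hℓ' t ht
    have h2 := hxmono t ht' hℓ
    simp only at h2
    have h3 := hxle ℓ t ht'
    rw [abs_le]; constructor <;> linarith
  have hsmall : ∀ t, 0 ≤ t → t * S < 1 → m t = 0 := by
    intro t ht htS
    refine le_antisymm ?_ (hm0 t ht)
    refine le_of_forall_pos_le_add fun η hη => ?_
    have hpos : 0 < 1 - t * S := by linarith
    obtain ⟨ℓ, hℓ⟩ := exists_nat_gt (1 / (1 - t * S) / η)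
    have hℓr : (0 : ℝ) < ℓ := lt_trans (by positivity) hℓ
    have hℓ0 : 0 < ℓ := by exact_mod_cast hℓr
    have h1 : 1 - η ≤ x ℓ t := by
      refine ge_of_tendsto' (hx ℓ t ht) fun N => ?_
      have h2 := small_time hsm (J N) t S ℓ hℓ0 (hJ0 N) (hJr N).1 (hJr N).2.1 (hJrow N) ht htS
      rw [hcard] at h2
      rw [← haE, le_div_iff₀ (hn0 N)]
      have h3 : n N / (1 - t * S) / ℓ ≤ η * n N := by
        rw [div_lt_iff₀ hη] at hℓ
        rw [div_le_iff₀ hℓr]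
        have h4 : n N / (1 - t * S) = n N * (1 / (1 - t * S)) := by ring
        rw [h4]
        have h5 := mul_le_mul_of_nonneg_left hℓ.le (hn0 N).le
        linarith
      linarith
    have h6 := hxle ℓ t ht
    linarith
  have hone : Tendsto m atTop (𝓝 1) := by
    rw [Metric.tendsto_atTop]
    intro η hη
    obtain ⟨t1, ht1, ε, hε, h⟩ := hmain d σ lam 1 (η / 2) hd hσ hσd hlam one_pos (by positivity)
    refine ⟨t1, fun t ht => ?_⟩
    have ht' : 0 ≤ t := by linarith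
    obtain ⟨L0, hL0⟩ := h t ht
    have h1 : ∀ ℓ, x ℓ t ≤ η / 2 := by
      intro ℓ
      obtain ⟨N1, hN1⟩ := exists_nat_ge ((ℓ : ℝ) / ε)
      refine le_of_tendsto (hx ℓ t ht') ?_
      filter_upwards [Filter.eventually_ge_atTop (max L0 N1)] with N hN
      have h2 := hL0 (N + 1) ((le_max_left _ _).trans (hN.trans (Nat.le_succ N))) (J N) (hJr N)
      simp only [one_pow, mul_one] at h2
      rw [hnc] at h2
      have hZ0 := mass_pos (J N) t
      have h3 : EE (J N) t (fun g => cnt fun v => len g v < ε * n N) ≤ η / 2 * n N := by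
        unfold EE
        rw [div_le_iff₀ hZ0]
        exact h2
      rw [← haE, div_le_iff₀ (hn0 N)]
      refine le_trans (EE_mono (hJ0 N) ht' fun g => cnt_mono fun v hv => ?_) h3
      have h4 : (N1 : ℝ) ≤ N := by exact_mod_cast (le_max_right _ _).trans hN
      have h5 := hnge N
      have h6 : (ℓ : ℝ) ≤ ε * n N := by
        rw [div_le_iff₀ hε] at hN1
        have : (N1 : ℝ) * ε ≤ n N * ε := mul_le_mul_of_nonneg_right (by linarith) hε.le
        linarith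
      exact lt_of_lt_of_le hv h6
    have h2 : 1 - m t ≤ η / 2 := le_of_tendsto' (hmlim t ht') h1
    have h3 := hm1 t ht'
    rw [Real.dist_eq, abs_lt]
    constructor <;> linarith
  have hcont : ContinuousOn m (Set.Ici 0) := by
    intro t ht
    have ht0 : 0 ≤ t := ht
    rw [Metric.continuousWithinAt_iff]
    intro ε hε
    by_cases htS : t * S < 1
    · -- near `t` the mass vanishes
      obtain ⟨δ, hδ, hδS⟩ : ∃ δ : ℝ, 0 < δ ∧ (t + δ) * S < 1 := by
        refine ⟨(1 - t * S) / (2 * (S + 1)), by have : 0 < 1 - t * S := by linarith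
                                                positivity, ?_⟩
        have h1 : 0 < 1 - t * S := by linarith
        have h2 : (1 - t * S) / (2 * (S + 1)) * S ≤ (1 - t * S) / 2 := by
          rw [div_mul_eq_mul_div, div_le_div_iff₀ (by positivity) (by norm_num)]
          nlinarith
        linarith
      refine ⟨δ, hδ, fun {s} hs hst => ?_⟩
      have hs0 : 0 ≤ s := hs
      rw [Real.dist_eq, abs_lt] at hst
      have h1 : s * S < 1 := by
        have : s * S ≤ (t + δ) * S := mul_le_mul_of_nonneg_right (by linarith) hS0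
        linarith
      rw [hsmall s hs0 h1, hsmall t ht0 htS, dist_self]
      exact hε
    · have htpos : 0 < t := by
        rcases eq_or_lt_of_le ht0 with h | h
        · exfalso; apply htS; rw [← h]; simp
        · exact h
      obtain ⟨ℓ0, hℓ0⟩ := hunif (t / 2) (by linarith) (ε / 4) (by linarith)
      obtain ⟨δ, hδ, hδ1, hδ2⟩ : ∃ δ : ℝ, 0 < δ ∧ δ ≤ t / 2 ∧ δ * S * ℓ0 ≤ ε / 4 := by
        refine ⟨min (t / 2) (ε / (4 * (S * ℓ0 + 1))), by positivity, min_le_left _ _, ?_⟩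
        have h1 : min (t / 2) (ε / (4 * (S * ℓ0 + 1))) ≤ ε / (4 * (S * ℓ0 + 1)) := min_le_right _ _
        have h2 : 0 ≤ S * ℓ0 := by positivity
        have h3 : min (t / 2) (ε / (4 * (S * ℓ0 + 1))) * (S * ℓ0) ≤
            ε / (4 * (S * ℓ0 + 1)) * (S * ℓ0) := mul_le_mul_of_nonneg_right h1 h2
        have h4 : ε / (4 * (S * ℓ0 + 1)) * (S * ℓ0) ≤ ε / 4 := by
          rw [div_mul_eq_mul_div, div_le_div_iff₀ (by positivity) (by norm_num)]
          nlinarith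
        calc _ = min (t / 2) (ε / (4 * (S * ℓ0 + 1))) * (S * ℓ0) := by ring
          _ ≤ _ := h3.trans h4
      refine ⟨δ, hδ, fun {s} hs hst => ?_⟩
      rw [Real.dist_eq, abs_lt] at hst
      have h1 := hℓ0 ℓ0 le_rfl s (by linarith)
      have h2 := hℓ0 ℓ0 le_rfl t (by linarith)
      have h3 : |x ℓ0 s - x ℓ0 t| ≤ ε / 4 := by
        rcases le_total s t with h | h
        · rw [abs_sub_comm]
          refine (hxlip ℓ0 s t hs h).trans (le_trans ?_ hδ2)
          have : t - s ≤ δ := by linarith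
          gcongr
        · refine (hxlip ℓ0 t s ht0 h).trans (le_trans ?_ hδ2)
          have : s - t ≤ δ := by linarith
          gcongr
      rw [Real.dist_eq]
      rw [abs_le] at h1 h2 h3
      rw [abs_lt]
      constructor <;> linarith [h1.1, h1.2, h2.1, h2.2, h3.1, h3.2]
  refine ⟨m, hcont, fun t ht => ⟨hm0 t ht, hm1 t ht⟩, fun t ht htS => hsmall t ht (by rwa [hS]),
    hone, fun t ht => ?_⟩
  have ht0 : 0 ≤ t := ht.le
  have hR : ∀ N, t * (∑ x, ∑ y, J N x y) ≤ t * S * (((N + 1 : ℕ)) : ℝ) ^ d := fun N => by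
    rw [hnc, mul_assoc]
    exact mul_le_mul_of_nonneg_left (hJsum N) ht0
  have hPD : ∀ (k : ℕ) (f : (Fin k → ℝ) → ℝ), Continuous f →
      Tendsto (fun N : ℕ => EE (J N) t (fun g => f (fun i : Fin k => pOrd g i))) atTop
        (𝓝 (pdInt k f (m t))) := by
    intro k f hf
    rw [Metric.tendsto_atTop]
    intro δ hδ
    obtain ⟨ρ, hρ, hρ'⟩ := (Pool.Agent.W782.PD.Avg.pdInt_cont k f hf).2 (δ / 3) (by positivity)
    obtain ⟨ℓ0, h1⟩ := (hpd3 d σ lam t (t * S) (δ / 3) hd hσ hσd hlam ht (by positivity)).1 k f hf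
    obtain ⟨ℓ1, h2⟩ := (Metric.tendsto_atTop.1 (hmlim t ht0)) (ρ / 2) (by positivity)
    obtain ⟨L0, h3⟩ := h1 (max ℓ0 ℓ1) (le_max_left _ _)
    have h4 := h2 (max ℓ0 ℓ1) (le_max_right _ _)
    obtain ⟨N1, h5⟩ := (Metric.tendsto_atTop.1 (hx (max ℓ0 ℓ1) t ht0)) (ρ / 2) (by positivity)
    refine ⟨max L0 N1, fun N hN => ?_⟩
    have h6 := h5 N ((le_max_right _ _).trans hN)
    have h7 := h3 t le_rfl (N + 1) ((le_max_left _ _).trans (hN.trans (Nat.le_succ N))) (J N)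
      (hJr N) (hR N)
    rw [hnc, haE] at h7
    rw [Real.dist_eq, abs_lt] at h4 h6
    have h8 := hρ' (1 - a (max ℓ0 ℓ1) t N) (m t) (by have := ha1 (max ℓ0 ℓ1) t N ht0; linarith)
      (by have := ha0 (max ℓ0 ℓ1) t N ht0; linarith) (hm0 t ht0) (hm1 t ht0) (by
        rw [abs_le]; constructor <;> linarith [h4.1, h4.2, h6.1, h6.2])
    rw [Real.dist_eq, abs_lt]
    rw [abs_le] at h7 h8
    constructor <;> linarith [h7.1, h7.2, h8.1, h8.2]
  refine ⟨hPD, fun k => pdInt k (fun y => ∑ i, y i) (m t), fun k => ?_, ?_⟩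
  · have h1 := hPD k (fun y => ∑ i, y i) (by fun_prop)
    refine h1.congr fun N => ?_
    rw [EE_sum]
    exact (Finset.sum_range (fun i => EE (J N) t (fun g => pOrd g i))).symm
  · rw [Metric.tendsto_atTop]
    intro δ hδ
    obtain ⟨ℓ0, K0, h1⟩ := (hpd3 d σ lam t (t * S) (δ / 3) hd hσ hσd hlam ht (by positivity)).2
    refine ⟨K0, fun K hK => ?_⟩
    obtain ⟨ℓ1, h2⟩ := (Metric.tendsto_atTop.1 (hmlim t ht0)) (δ / 3) (by positivity)
    have h4 := h2 (max ℓ0 ℓ1) (le_max_right _ _)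
    obtain ⟨L0, h3⟩ := h1 (max ℓ0 ℓ1) K (le_max_left _ _) hK
    have h5 : Tendsto (fun N => |EE (J N) t (fun g => ∑ i ∈ range K, pOrd g i) -
        (1 - a (max ℓ0 ℓ1) t N)|) atTop
        (𝓝 |pdInt K (fun y => ∑ i, y i) (m t) - (1 - x (max ℓ0 ℓ1) t)|) := by
      refine ((Tendsto.sub ?_ ((hx _ t ht0).const_sub 1)).abs)
      refine (hPD K (fun y => ∑ i, y i) (by fun_prop)).congr fun N => ?_
      congr 1
      funext g
      exact (Finset.sum_range (fun i => pOrd g i)).symm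
    have h6 : |pdInt K (fun y => ∑ i, y i) (m t) - (1 - x (max ℓ0 ℓ1) t)| ≤ δ / 3 := by
      refine le_of_tendsto h5 ?_
      filter_upwards [Filter.eventually_ge_atTop L0] with N hN
      have h7 := h3 t le_rfl (N + 1) (hN.trans (Nat.le_succ N)) (J N) (hJr N)
      rw [hnc, haE] at h7
      exact h7
    rw [Real.dist_eq, abs_lt] at h4 ⊢
    rw [abs_le] at h6
    constructor <;> linarith [h4.1, h4.2, h6.1, h6.2]

end Pool.Agent.W805.PD
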