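import Pool.Agent.W805.LR.Stm5

/-!
# Random stirring with long-range rates at all times: no intermediate cycles, concentration of the
mass of the long cycles. Statements of the parts.
-/

set_option autoImplicit false

namespace Pool.Agent.W805.PD

open Finset Equiv Filter Topology
open Pool.Agent.W805.LR

/-- KP: one stage with small total rate (weights with `Θ = 1`): few points leave the short cycles,
and a definite part of the points in cycles of length in `[s1, s)` stay in an unchanged cycle. -/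
def S_keep : Prop := ∀ (V K : Type) [Fintype V] [DecidableEq V] [Fintype K] [DecidableEq K]
  (W : (K → Option (V × V)) → ℝ) (w : V → V → ℝ) (M : ℕ) (a : Fin M → K)
  (g : ℕ → (K → Option (V × V)) → Perm V) (c : Fin M → (K → Option (V × V)) → Perm V),
  IsStage 1 W w (fun _ : V => ()) M a g c → (∀ x y, w x y = w y x) →
  ∀ (s1 s : ℝ), 0 ≤ s →
    (ev W (fun ω => cnt fun v => len (g 0 ω) v < s ∧ s ≤ len (g M ω) v) ≤
      M * (2 * s) * (∑ x, ∑ y, w x y) * ev W (fun _ => 1)) ∧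
    (∀ ρ : ℝ, (∀ x, ∑ y, w x y ≤ ρ) → 2 * s * ρ ≤ 1 →
      (1 - 2 * s * ρ) ^ M *
        ev W (fun ω => cnt fun v => s1 ≤ len (g 0 ω) v ∧ len (g 0 ω) v < s) ≤
      ev W (fun ω => cnt fun v => s1 ≤ len (g M ω) v ∧ len (g M ω) v < s))

/-- L3: parameters of the levels when the start is at a large scale `l` with cycles of length
`A * l ^ σ`. -/
def S_levels3 : Prop := ∀ (d : ℕ) (σ lam η : ℝ), 1 ≤ d → 0 < σ → σ < d → 0 < lam → 0 < η →
  ∃ (a A lmin : ℝ) (δ : ℕ → ℝ), σ < a ∧ a ≤ d ∧ 1 ≤ A ∧ 2 ≤ lmin ∧ (∀ k, 0 < δ k) ∧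
    ∀ l : ℝ, lmin ≤ l →
      (∀ k : ℕ, A * l ^ σ * 2 ^ (((k : ℝ) + 1) * (a / d)) ≤
        δ k * (l * 2 ^ (k / d + 1) / 2) ^ d / 2) ∧
      ∀ n : ℕ, ∑ k ∈ range n,
        lvlErr2 d σ lam 1 1 l δ (fun k => A * l ^ σ * 2 ^ ((k : ℝ) * (a / d))) k ≤ η

/-- BU: upper bound for the size of the blocks. -/
def S_blkup : Prop := ∀ (d L i : ℕ) [NeZero L], 2 * 2 ^ i ≤ L → ∀ v : Fin d → ZMod L,
  (cnt fun u : Fin d → ZMod L => tblk i u = tblk i v) ≤ (2 * ((L : ℝ) / 2 ^ i)) ^ d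

/-- CN: variance bound. -/
def S_conc : Prop := ∀ (V : Type) [Fintype V] [DecidableEq V] (J : V → V → ℝ) (t D : ℝ)
  (F : Perm V → ℝ), (∀ x y, 0 ≤ J x y) → 0 ≤ t →
  (∀ (a b : Perm V) (x y : V), |F (a * swap x y * b) - F (a * b)| ≤ D) →
  (∑ g, stirMass J t g * F g ^ 2) * (∑ g, stirMass J t g) - (∑ g, stirMass J t g * F g) ^ 2 ≤
    t * (∑ x, ∑ y, J x y / 2) * D ^ 2 * (∑ g, stirMass J t g) ^ 2

/-- DF: the number of points in short cycles changes by at most `2 s` if one transposition is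
inserted. -/
def S_diff : Prop := ∀ (V : Type) [Fintype V] [DecidableEq V] (s : ℝ) (a b : Perm V) (x y : V),
  0 ≤ s →
  |(cnt fun v => len (a * swap x y * b) v < s) - cnt fun v => len (a * b) v < s| ≤ 2 * s

/-- UC: continuity in the mass. -/
def S_pdcont : Prop := ∀ (k : ℕ) (f : (Fin k → ℝ) → ℝ) (δ : ℝ), Continuous f → 0 < δ →
  ∃ ρ > 0, ∀ M M' : ℝ, 0 ≤ M → M ≤ 1 → 0 ≤ M' → M' ≤ 1 → |M - M'| ≤ ρ →
    |pdInt k f M - pdInt k f M'| ≤ δ

/-- PO: the mass of the `K'` longest cycles. -/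
def S_topmass : Prop := ∀ (V : Type) [Fintype V] [DecidableEq V] [Nonempty V] (g : Perm V)
  (K K' : ℕ), 0 < K →
  (K ≤ K' → (uavg fun v : V => if 1 ≤ K * pc g v then (1 : ℝ) else 0) ≤
    ∑ i ∈ range K', pOrd g i) ∧
  (∑ i ∈ range K', pOrd g i ≤
    (uavg fun v : V => if 1 ≤ K * pc g v then (1 : ℝ) else 0) + (K' : ℝ) / K)

/-- NM: at all times almost no points lie in cycles of intermediate length. -/
def S_nomeso : Prop := ∀ (d : ℕ) (σ lam η : ℝ), 1 ≤ d → 0 < σ → σ < d → 0 < lam → 0 < η →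
  ∃ ℓ K L0 : ℕ, 0 < K ∧ ∀ (L : ℕ) [NeZero L], L0 ≤ L →
    ∀ J : (Fin d → ZMod L) → (Fin d → ZMod L) → ℝ, IsRate2 d L σ lam J →
      ∑ g, stirMass J 1 g * (cnt fun v => (ℓ : ℝ) ≤ len g v ∧ K * len g v < (L : ℝ) ^ d) ≤
        η * (L : ℝ) ^ d * ∑ g, stirMass J 1 g

/-- PD2: at all times `t ≥ t0` the cycle lengths are close to a deterministic multiple of a
Poisson-Dirichlet vector; the multiple is the mean mass of the `K` longest cycles. -/
def S_pd2 : Prop := ∀ (d : ℕ) (σ lam t0 Lam : ℝ) (k : ℕ) (f : (Fin k → ℝ) → ℝ) (δ : ℝ), 1 ≤ d →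
  0 < σ → σ < d → 0 < lam → 0 < t0 → Continuous f → 0 < δ → ∃ K0 : ℕ, ∀ K ≥ K0, ∃ L0 : ℕ,
  ∀ t ≥ t0, ∀ (L : ℕ) [NeZero L], L0 ≤ L →
  ∀ J : (Fin d → ZMod L) → (Fin d → ZMod L) → ℝ, IsRate2 d L σ lam J →
    t * (∑ x, ∑ y, J x y) ≤ Lam * (L : ℝ) ^ d →
    |∑ g, stirMass J t g * f (fun i : Fin k => pOrd g i) -
      (∑ g, stirMass J t g) * pdInt k f ((∑ g, stirMass J t g * ∑ i ∈ range K, pOrd g i) /
        ∑ g, stirMass J t g)| ≤ δ * ∑ g, stirMass J t g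

end Pool.Agent.W805.PD
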