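import Pool.Agent.W805.LR.Types2
import Pool.Agent.W805.LR.Stm6

set_option autoImplicit false

namespace Pool.Agent.W805.PD

open Finset Equiv Filter Topology
open Pool.Agent.W805.LR

variable {V : Type} [Fintype V] [DecidableEq V]

/-- Adding one type of small rates. -/
theorem keep2 (hsl : S_slot) (hkp : S_keep) {M T : ℕ} (h t : ℝ)
    (Jt : Fin T → V → V → ℝ) (j : Fin T) (hh : 0 ≤ h)
    (ht : M * h = t) (hJ : ∀ j x y, 0 ≤ Jt j x y) (hJd : ∀ j x, Jt j x x = 0)
    (hs : ∀ x y, Jt j x y = Jt j y x)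
    (s1 s ρ : ℝ) (h1 : 0 ≤ s) (hρ0 : 0 ≤ ρ) (hρ : ∀ x, ∑ y, Jt j x y ≤ ρ)
    (hsm : s * h * ρ ≤ 1 / 2) :
    ev (confW (M := M) 1 h Jt) (fun ω => cnt fun v => len (GG M T j.val ω) v < s) ≤
      ev (confW (M := M) 1 h Jt) (fun ω => cnt fun v => len (GG M T (j.val + 1) ω) v < s) +
      Fintype.card V * (t * s * ρ) * ev (confW (M := M) 1 h Jt) (fun _ => 1) ∧
    ev (confW (M := M) 1 h Jt) (fun ω => cnt fun v => s1 ≤ len (GG M T j.val ω) v ∧
        len (GG M T j.val ω) v < s) ≤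
      Real.exp (2 * t * s * ρ) *
        ev (confW (M := M) 1 h Jt) (fun ω => cnt fun v => s1 ≤ len (GG M T (j.val + 1) ω) v ∧
          len (GG M T (j.val + 1) ω) v < s) := by
  obtain ⟨c, hc⟩ := hsl V Unit M T 1 h Jt j (fun _ => ()) one_pos hh hJ hJd (fun _ _ _ _ _ => rfl)
  have hW : ∀ ω : Fin M × Fin T → Option (V × V), 0 ≤ confW (M := M) 1 h Jt ω := hc.W_nonneg
  have hm1 : max (1 : ℝ) 1⁻¹ = 1 := by norm_num
  rw [hm1] at hc
  have key := hkp V (Fin M × Fin T) (confW (M := M) 1 h Jt)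
    (fun x y => h * Jt j x y / 2) M (fun i => (i, j)) _ c hc
    (fun x y => by
      change h * Jt j x y / 2 = h * Jt j y x / 2
      rw [hs x y]) s1 s h1
  simp only [mask_zero, mask_top] at key
  obtain ⟨k1, k2⟩ := key
  have hZ : 0 ≤ ev (confW (M := M) 1 h Jt) (fun _ => 1) := ev_nonneg hW fun _ => zero_le_one
  constructor
  · have e1 : ev (confW (M := M) 1 h Jt) (fun ω => cnt fun v => len (GG M T j.val ω) v < s) ≤
      ev (confW (M := M) 1 h Jt) (fun ω => cnt fun v => len (GG M T (j.val + 1) ω) v < s) +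
      ev (confW (M := M) 1 h Jt) (fun ω => cnt fun v => len (GG M T j.val ω) v < s ∧
        s ≤ len (GG M T (j.val + 1) ω) v) := by
      rw [← ev_add]
      refine ev_mono hW fun ω => cnt_le_add fun v hv => ?_
      rcases lt_or_ge (len (GG M T (j.val + 1) ω) v) s with h | h
      · exact Or.inl h
      · exact Or.inr ⟨hv, h⟩
    have e2 : ∑ x, ∑ y, h * Jt j x y / 2 ≤ h / 2 * (Fintype.card V * ρ) := by
      calc ∑ x, ∑ y, h * Jt j x y / 2 = h / 2 * ∑ x, ∑ y, Jt j x y := by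
            rw [Finset.mul_sum]; refine Finset.sum_congr rfl fun x _ => ?_
            rw [Finset.mul_sum]; exact Finset.sum_congr rfl fun y _ => by ring
        _ ≤ h / 2 * ∑ _x : V, ρ :=
            mul_le_mul_of_nonneg_left (Finset.sum_le_sum fun x _ => hρ x) (by positivity)
        _ = _ := by rw [Finset.sum_const, Finset.card_univ, nsmul_eq_mul]
    have e3 : (M : ℝ) * (2 * s) * (∑ x, ∑ y, h * Jt j x y / 2) *
        ev (confW (M := M) 1 h Jt) (fun _ => 1) ≤
        Fintype.card V * (t * s * ρ) * ev (confW (M := M) 1 h Jt) (fun _ => 1) := by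
      refine mul_le_mul_of_nonneg_right ?_ hZ
      calc (M : ℝ) * (2 * s) * (∑ x, ∑ y, h * Jt j x y / 2) ≤
            (M : ℝ) * (2 * s) * (h / 2 * (Fintype.card V * ρ)) :=
            mul_le_mul_of_nonneg_left e2 (by positivity)
        _ = _ := by rw [← ht]; ring
    linarith
  · have k3 := k2 (h * ρ / 2) (fun x => by
      calc ∑ y, h * Jt j x y / 2 = h / 2 * ∑ y, Jt j x y := by
            rw [Finset.mul_sum]; exact Finset.sum_congr rfl fun y _ => by ring
        _ ≤ h / 2 * ρ := mul_le_mul_of_nonneg_left (hρ x) (by positivity)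
        _ = _ := by ring) (by
      have : 2 * s * (h * ρ / 2) = s * h * ρ := by ring
      rw [this]; linarith)
    obtain ⟨B, hB⟩ : ∃ B, B = ev (confW (M := M) 1 h Jt) (fun ω => cnt fun v =>
      s1 ≤ len (GG M T j.val ω) v ∧ len (GG M T j.val ω) v < s) := ⟨_, rfl⟩
    have hB0 : 0 ≤ B := by rw [hB]; exact ev_nonneg hW fun _ => cnt_nonneg _
    rw [← hB] at k3 ⊢
    have e0 : 2 * s * (h * ρ / 2) = s * h * ρ := by ring
    rw [e0] at k3
    obtain ⟨x, hx⟩ : ∃ x, x = s * h * ρ := ⟨_, rfl⟩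
    rw [← hx] at k3 hsm
    have hx0 : 0 ≤ x := by rw [hx]; positivity
    have e4 : Real.exp (-(2 * t * s * ρ)) ≤ (1 - x) ^ M := by
      have e5 : Real.exp (-(2 * x)) ≤ 1 - x := by
        have h1 : 1 + 2 * x ≤ Real.exp (2 * x) := by
          have := Real.add_one_le_exp (2 * x); linarith
        rw [Real.exp_neg]
        have h2 : 0 < 1 + 2 * x := by linarith
        calc (Real.exp (2 * x))⁻¹ ≤ (1 + 2 * x)⁻¹ := inv_anti₀ h2 h1
          _ ≤ 1 - x := by
            rw [inv_le_iff_one_le_mul₀ h2]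
            nlinarith
      calc Real.exp (-(2 * t * s * ρ)) = (Real.exp (-(2 * x))) ^ M := by
            rw [← Real.exp_nat_mul]
            congr 1
            rw [hx, ← ht]
            ring
        _ ≤ _ := pow_le_pow_left₀ (Real.exp_nonneg _) e5 M
    have e6 : Real.exp (-(2 * t * s * ρ)) * B ≤ ev (confW (M := M) 1 h Jt) (fun ω => cnt fun v =>
      s1 ≤ len (GG M T (j.val + 1) ω) v ∧ len (GG M T (j.val + 1) ω) v < s) :=
      (mul_le_mul_of_nonneg_right e4 hB0).trans k3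
    have e7 := mul_le_mul_of_nonneg_left e6 (Real.exp_nonneg (2 * t * s * ρ))
    rwa [← mul_assoc, ← Real.exp_add, add_neg_cancel, Real.exp_zero, one_mul] at e7

end Pool.Agent.W805.PD
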