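import Pool.Agent.W805.LR.Chain2
import Pool.Agent.W646.LR.PC
import Pool.Agent.W646.LR.SL
import Pool.Agent.W32.LR.TR
import Pool.Agent.W333.LR.GE
import Pool.Agent.W613.LR.ST2
import Pool.Agent.W613.LR.SB2
import Pool.Agent.W358.LR.EL2
import Pool.Agent.W358.LR.EW2

set_option autoImplicit false

namespace Pool.Agent.W805.LR

open Finset Equiv Filter Topology

/-- From the chain to the main inequality, second version. -/
theorem main2_of (hsl : S_slot) (hst : S_stage2) (hsb : S_base2) (htr : S_trotter)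
    (hbl : S_blocks) (hlv : S_levels2) (hwi : S_windows2) : S_main2 := by
  intro d σ lam θ η hd hσ hσ1 hlam hθ hη
  obtain ⟨Θ, hΘ⟩ : ∃ Θ, Θ = max θ θ⁻¹ := ⟨_, rfl⟩
  have hΘ1 : 1 ≤ Θ := by rw [hΘ]; exact one_le_max_inv hθ
  have hη3 : 0 < η / 3 := by positivity
  have hd0 : (0 : ℝ) < d := by exact_mod_cast hd
  obtain ⟨a, Γ, s0, lmin, δ, haσ, ha1, hΓ, hs0, hlmin, hδ, hlev⟩ :=
    hlv d σ lam Θ (η / 3) hd hσ hσ1 hlam hΘ1 hη3
  obtain ⟨ε, hε, hε1, hwin⟩ := hwi d σ lam Θ (η / 3) a hd hσ haσ ha1 hlam hΘ1 hη3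
  -- the longest side allowed
  have hK : 0 < lam / (4 * 2 ^ d * Γ) := by positivity
  obtain ⟨lmax, hlmax⟩ : ∃ lmax : ℝ → ℝ, lmax = fun t => (t * (lam / (4 * 2 ^ d * Γ))) ^ (1 / σ) :=
    ⟨_, rfl⟩
  obtain ⟨t1, ht1⟩ : ∃ t1 : ℝ, t1 = (2 * lmin) ^ σ / (lam / (4 * 2 ^ d * Γ)) := ⟨_, rfl⟩
  have ht1pos : 0 < t1 := by rw [ht1]; positivity
  refine ⟨t1, ht1pos, ε, hε, fun t ht => ?_⟩
  have ht0 : 0 < t := lt_of_lt_of_le ht1pos ht
  have hlm : 2 * lmin ≤ lmax t := by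
    rw [hlmax]
    have h1 : (2 * lmin) ^ σ ≤ t * (lam / (4 * 2 ^ d * Γ)) := by
      rw [ge_iff_le, ht1, div_le_iff₀ hK] at ht
      exact ht
    calc 2 * lmin = ((2 * lmin) ^ σ) ^ (1 / σ) := by
          rw [← Real.rpow_mul (by positivity), mul_one_div_cancel hσ.ne', Real.rpow_one]
      _ ≤ _ := Real.rpow_le_rpow (by positivity) h1 (by positivity)
  have hl4 : 4 ≤ lmax t := by linarith
  obtain ⟨L0, hL0⟩ := hwin s0 (lmax t) t hs0 (by linarith) ht0
  obtain ⟨L1, hL1⟩ := exists_nat_gt (lmax t)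
  refine ⟨max L0 L1, fun L _ hL J hJ => ?_⟩
  have hLL0 : L0 ≤ L := (le_max_left _ _).trans hL
  have hLlm : lmax t < L := hL1.trans_le (by exact_mod_cast (le_max_right _ _).trans hL)
  have hLpos : (0 : ℝ) < L := by linarith
  -- choice of I
  have hex : ∃ I : ℕ, (L : ℝ) / 2 ^ I ≤ lmax t := by
    obtain ⟨I, hI⟩ := pow_unbounded_of_one_lt (L : ℝ) (by norm_num : (1 : ℝ) < 2)
    refine ⟨I, ?_⟩
    rw [div_le_iff₀ (by positivity)]
    nlinarith
  obtain ⟨I, hI1, hI2⟩ : ∃ I : ℕ, (L : ℝ) / 2 ^ I ≤ lmax t ∧ lmax t / 2 < (L : ℝ) / 2 ^ I := by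
    classical
    refine ⟨Nat.find hex, Nat.find_spec hex, ?_⟩
    have hne : Nat.find hex ≠ 0 := by
      intro h0
      have := Nat.find_spec hex
      rw [h0, pow_zero, div_one] at this
      linarith
    obtain ⟨k, hk⟩ := Nat.exists_eq_succ_of_ne_zero hne
    have := Nat.find_min hex (m := k) (by omega)
    rw [not_le] at this
    rw [hk, Nat.succ_eq_add_one, pow_succ, ← div_div]
    linarith
  obtain ⟨l, hl⟩ : ∃ l : ℝ, l = (L : ℝ) / 2 ^ I := ⟨_, rfl⟩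
  rw [← hl] at hI1 hI2
  have hlmin' : lmin ≤ l := by linarith
  have hl2 : 2 ≤ l := by linarith
  have hl0 : 0 < l := by linarith
  have hlI : l * 2 ^ I = L := by rw [hl]; field_simp
  have hIL : 2 * 2 ^ I ≤ L := by
    have h1 : (2 : ℝ) * 2 ^ I ≤ L := by
      rw [← hlI]
      have : (0 : ℝ) < 2 ^ I := by positivity
      nlinarith
    exact_mod_cast h1
  -- the time condition
  have hlmσ : (lmax t) ^ σ = t * (lam / (4 * 2 ^ d * Γ)) := by
    rw [hlmax]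
    change ((t * (lam / (4 * 2 ^ d * Γ))) ^ (1 / σ)) ^ σ = _
    rw [← Real.rpow_mul (by positivity), one_div_mul_cancel hσ.ne', Real.rpow_one]
  have hlm0 : 0 < lmax t := by linarith
  have hG1 : Γ ≤ t * (lam / 4) * l ^ (-σ) / 2 ^ d := by
    have h1 : l ^ σ ≤ (lmax t) ^ σ := Real.rpow_le_rpow hl0.le hI1 hσ.le
    rw [hlmσ] at h1
    rw [Real.rpow_neg hl0.le, le_div_iff₀ (by positivity)]
    have h2 : 0 < l ^ σ := by positivity
    rw [← div_eq_mul_inv, le_div_iff₀ h2]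
    have h3 : Γ * 2 ^ d * l ^ σ ≤ Γ * 2 ^ d * (t * (lam / (4 * 2 ^ d * Γ))) := by gcongr
    refine h3.trans (le_of_eq ?_)
    field_simp
  have hG2 : t * (lam / 4) * l ^ (-σ) / 2 ^ d ≤ 2 ^ d * Γ := by
    have h1 : (lmax t / 2) ^ σ ≤ l ^ σ := Real.rpow_le_rpow (by positivity) hI2.le hσ.le
    have h4 : (lmax t) ^ σ / 2 ^ d ≤ (lmax t / 2) ^ σ := by
      rw [Real.div_rpow hlm0.le (by norm_num)]
      have : (2 : ℝ) ^ σ ≤ 2 ^ d := by
        calc (2 : ℝ) ^ σ ≤ 2 ^ (d : ℝ) := Real.rpow_le_rpow_of_exponent_le (by norm_num) hσ1.le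
          _ = 2 ^ d := Real.rpow_natCast 2 d
      gcongr
    rw [hlmσ] at h4
    rw [Real.rpow_neg hl0.le, div_le_iff₀ (by positivity)]
    have h2 : 0 < l ^ σ := by positivity
    rw [← div_eq_mul_inv, div_le_iff₀ h2]
    have h3 : 2 ^ d * Γ * 2 ^ d * (t * (lam / (4 * 2 ^ d * Γ)) / 2 ^ d) ≤
        2 ^ d * Γ * 2 ^ d * l ^ σ := by
      have := h4.trans h1
      gcongr
    refine le_trans (le_of_eq ?_) h3
    field_simp
  obtain ⟨hb0, hbj, hbase, hsum⟩ := hlev t l ht0 hlmin' hG1 hG2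
  obtain ⟨Wn, κw, δw, hw1, hw2, hw3, hw4⟩ := hL0 L hLL0 l I (by linarith) hI1 hlI
  rw [hl] at hb0 hbase
  rw [hΘ] at hbase hw4
  have hbj' : ∀ k : ℕ, s0 * 2 ^ (((k : ℝ) + 1) * (a / d)) ≤
      δ k * ((L : ℝ) / 2 ^ I * 2 ^ (k / d + 1) / 2) ^ d / 2 := by
    intro k; rw [← hl]; exact hbj k
  have hsum' : ∀ n : ℕ, ∑ k ∈ range n,
        lvlErr2 d σ lam (max θ θ⁻¹) t ((L : ℝ) / 2 ^ I) δ
          (fun k => s0 * 2 ^ ((k : ℝ) * (a / d))) k ≤ η / 3 := by
    intro n; rw [← hl, ← hΘ]; exact hsum n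
  obtain ⟨Jt, hJt, hJt0, M0, hM0⟩ := chain2 hsl hst hsb hbl σ lam θ t a s0 ε I Wn δ κw δw hd hσ
    hlam hθ ht0 (hσ.trans haσ) ha1 hs0 hε hδ hIL hb0 hbj' hw1 hw2 hw3 J hJ
  -- the limit
  have hJeq : (fun x y => ∑ j, Jt j x y) = J := by funext x y; exact hJt x y
  have lim1 := htr (Fin d → ZMod L) (2 + d * I + Wn) Jt t
    (fun g => θ ^ cyc g * cnt fun v => len g v < ε * (L : ℝ) ^ d)
  have lim2 := htr (Fin d → ZMod L) (2 + d * I + Wn) Jt t (fun g => θ ^ cyc g)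
  rw [hJeq] at lim1 lim2
  have lim2' := lim2.const_mul (η * (L : ℝ) ^ d)
  have hle := le_of_tendsto_of_tendsto lim1 lim2' (by
    filter_upwards [Filter.eventually_ge_atTop M0, Filter.eventually_gt_atTop 0] with M hM hM0'
    have key := hM0 M hM
    have hZ0 : 0 ≤ ev (confW (M := M) θ (t / M) Jt) (fun _ => 1) := by
      unfold ev
      refine Finset.sum_nonneg fun ω _ => ?_
      rw [mul_one]
      unfold confW
      refine mul_nonneg (Finset.prod_nonneg fun a _ => ?_) (by positivity)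
      cases hω : ω a with
      | none => simp [wt]
      | some e => simp only [wt]; have := hJt0 a.2 e.1 e.2; positivity
    have hErr : (baseErr2 d σ lam (max θ θ⁻¹) t ((L : ℝ) / 2 ^ I) s0 +
            ∑ j ∈ range (d * I), lvlErr2 d σ lam (max θ θ⁻¹) t ((L : ℝ) / 2 ^ I) δ
              (fun j => s0 * 2 ^ ((j : ℝ) * (a / d))) j +
            ∑ m ∈ range Wn, winErr2 ((L : ℝ) ^ d) (max θ θ⁻¹) t (δw m) (κw m)
              (ε * (L : ℝ) ^ d / 2 ^ m)) ≤ η := by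
      have := hsum' (d * I)
      linarith
    have e1 : ∑ ω : Fin M × Fin (2 + d * I + Wn) → Option ((Fin d → ZMod L) × (Fin d → ZMod L)),
        (∏ a, wt (t / M) Jt a (ω a)) * ((fun g => θ ^ cyc g * cnt fun v => len g v < ε * (L : ℝ) ^ d)
          (prodS (slots M (2 + d * I + Wn)) (fun _ => True) ω)) =
        ev (confW (M := M) θ (t / M) Jt)
            (fun ω => cnt fun v => len (GG M (2 + d * I + Wn) (2 + d * I + Wn) ω) v <
              ε * (L : ℝ) ^ d) := by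
      unfold ev confW
      refine Finset.sum_congr rfl fun ω _ => ?_
      simp only [mask_all]
      ring
    have e2 : ∑ ω : Fin M × Fin (2 + d * I + Wn) → Option ((Fin d → ZMod L) × (Fin d → ZMod L)),
        (∏ a, wt (t / M) Jt a (ω a)) * ((fun g => θ ^ cyc g)
          (prodS (slots M (2 + d * I + Wn)) (fun _ => True) ω)) =
        ev (confW (M := M) θ (t / M) Jt) (fun _ => 1) := by
      unfold ev confW
      exact Finset.sum_congr rfl fun ω _ => by ring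
    rw [e1, e2]
    refine key.trans ?_
    have h5 : (L : ℝ) ^ d * (baseErr2 d σ lam (max θ θ⁻¹) t ((L : ℝ) / 2 ^ I) s0 +
            ∑ j ∈ range (d * I), lvlErr2 d σ lam (max θ θ⁻¹) t ((L : ℝ) / 2 ^ I) δ
              (fun j => s0 * 2 ^ ((j : ℝ) * (a / d))) j +
            ∑ m ∈ range Wn, winErr2 ((L : ℝ) ^ d) (max θ θ⁻¹) t (δw m) (κw m)
              (ε * (L : ℝ) ^ d / 2 ^ m)) ≤ η * (L : ℝ) ^ d := by
      rw [mul_comm η]
      exact mul_le_mul_of_nonneg_left hErr (by positivity)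
    exact mul_le_mul_of_nonneg_right h5 hZ0)
  have e3 : ∑ g, stirMass J t g * θ ^ cyc g * (cnt fun v => len g v < ε * (L : ℝ) ^ d) =
      ∑ g, stirMass J t g * (θ ^ cyc g * cnt fun v => len g v < ε * (L : ℝ) ^ d) :=
    Finset.sum_congr rfl fun g _ => by ring
  rw [e3]
  exact hle

/-- The main inequality, second version, unconditionally. -/
theorem main2_thm : S_main2 :=
  main2_of (Pool.Agent.W646.LR.SL.main (Pool.Agent.W646.LR.main_cyc
      Pool.Agent.W333.LR.main_merge Pool.Agent.W333.LR.main_split))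
    Pool.Agent.W613.LR.ST2.main' Pool.Agent.W613.LR.SB2.main' Pool.Agent.W32.LR.main
    Pool.Agent.W333.LR.main_blocks Pool.Agent.W358.LR.EL2.main Pool.Agent.W358.LR.EW2.main

end Pool.Agent.W805.LR
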