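import Pool.Agent.W805.LR.Chain3
import Pool.Agent.W29.LR.CV

set_option autoImplicit false

namespace Pool.Agent.W805.PD

open Finset Equiv Filter Topology
open Pool.Agent.W805.LR

/-- The chain for the continuous-time process. -/
theorem chain3_lim (hsl : S_slot) (hst : S_stage2) (hkp : S_keep) (htr : S_trotter)
    (hbl : S_blocks) (hbu : S_blkup)
    {d L : ℕ} [NeZero L] (σ lam a s0 s1 ε : ℝ) (I Wn : ℕ) (δ κw δw : ℕ → ℝ)
    (hd : 1 ≤ d) (hσ : 0 < σ) (hlam : 0 < lam) (ha : 0 < a) (ha1 : a ≤ d) (hs0 : 0 < s0)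
    (hs1 : 0 ≤ s1) (hs10 : s1 ≤ s0) (hε : 0 < ε)
    (hδ : ∀ j, 0 < δ j)
    (hIL : 2 * 2 ^ I ≤ L)
    (hbj : ∀ k : ℕ, s0 * 2 ^ (((k : ℝ) + 1) * (a / d)) ≤
      δ k * ((L : ℝ) / 2 ^ I * 2 ^ (k / d + 1) / 2) ^ d / 2)
    (hw1 : ε * (L : ℝ) ^ d / 2 ^ Wn ≤ s0 * 2 ^ ((I : ℝ) * a))
    (hw2 : ∑ m ∈ range Wn, κw m ≤ lam / 2 * (L : ℝ) ^ (-((d : ℝ) + σ)))
    (hw3 : ∀ m, 0 ≤ κw m ∧ 0 < δw m ∧ ε * (L : ℝ) ^ d / 2 ^ m ≤ δw m * (L : ℝ) ^ d / 2)
    (J : (Fin d → ZMod L) → (Fin d → ZMod L) → ℝ) (hJ : IsRate2 d L σ lam J) (B : ℝ)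
    (hB : ∑ j ∈ range (d * I), lvlErr2 d σ lam 1 1 ((L : ℝ) / 2 ^ I) δ
              (fun j => s0 * 2 ^ ((j : ℝ) * (a / d))) j +
            ∑ m ∈ range Wn, winErr2 ((L : ℝ) ^ d) 1 1 (δw m) (κw m)
              (ε * (L : ℝ) ^ d / 2 ^ m) ≤ B) :
    ∑ g, stirMass J 1 g * (cnt fun v => len g v < ε * (L : ℝ) ^ d) ≤
      ∑ g, stirMass J 1 g * (cnt fun v => len g v < s1) +
      Real.exp (2 * s0 * (lam * ((L : ℝ) / 2 ^ I) ^ (-σ) * Crho d σ)) *
        ∑ g, stirMass J 1 g * (cnt fun v => s1 ≤ len g v ∧ len g v < s0) +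
      (L : ℝ) ^ d * (s1 * (lam * ((L : ℝ) / 2 ^ I) ^ (-σ) * Crho d σ) + B) *
        ∑ g, stirMass J 1 g := by
  obtain ⟨Jt, hJt, hJt0, M0, hM0⟩ := chain3 hsl hst hkp hbl hbu σ lam a s0 s1 ε I Wn δ κw δw hd hσ
    hlam ha ha1 hs0 hs1 hs10 hε hδ hIL hbj hw1 hw2 hw3 J hJ
  have hJeq : (fun x y => ∑ j, Jt j x y) = J := by funext x y; exact hJt x y
  obtain ⟨T, hT⟩ : ∃ T, T = 2 + d * I + Wn := ⟨_, rfl⟩
  obtain ⟨P, hP⟩ : ∃ P : ℝ, P = lam * ((L : ℝ) / 2 ^ I) ^ (-σ) * Crho d σ := ⟨_, rfl⟩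
  have lim := fun F => htr (Fin d → ZMod L) (2 + d * I + Wn) Jt 1 F
  rw [hJeq] at lim
  have l1 := lim (fun g => cnt fun v => len g v < ε * (L : ℝ) ^ d)
  have l2 := lim (fun g => cnt fun v => len g v < s1)
  have l3 := lim (fun g => cnt fun v => s1 ≤ len g v ∧ len g v < s0)
  have l4 := lim (fun _ => 1)
  have lR := (l2.add (l3.const_mul (Real.exp (2 * s0 * P)))).add
    (l4.const_mul ((L : ℝ) ^ d * (s1 * P + B)))
  simp only [mul_one] at lR
  rw [← hP]
  refine le_of_tendsto_of_tendsto l1 lR ?_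
  filter_upwards [Filter.eventually_ge_atTop M0, Filter.eventually_gt_atTop 0] with M hM hM0'
  have key := hM0 M hM
  have ee : ∀ F : Perm (Fin d → ZMod L) → ℝ,
      ∑ ω : Fin M × Fin (2 + d * I + Wn) → Option ((Fin d → ZMod L) × (Fin d → ZMod L)),
        (∏ a, wt (1 / M) Jt a (ω a)) * F (prodS (slots M (2 + d * I + Wn)) (fun _ => True) ω) =
      ev (confW (M := M) 1 (1 / M) Jt)
        (fun ω => F (GG M (2 + d * I + Wn) (2 + d * I + Wn) ω)) := by
    intro F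
    unfold ev confW
    refine Finset.sum_congr rfl fun ω _ => ?_
    simp only [mask_all, one_pow, mul_one]
  have e1 := ee (fun g => cnt fun v => len g v < ε * (L : ℝ) ^ d)
  have e2 := ee (fun g => cnt fun v => len g v < s1)
  have e3 := ee (fun g => cnt fun v => s1 ≤ len g v ∧ len g v < s0)
  have e4 := ee (fun _ => 1)
  simp only [mul_one] at e4
  rw [e1, e2, e3, e4]
  rw [← hP] at key
  refine key.trans ?_
  have hZ0 : 0 ≤ ev (confW (M := M) 1 (1 / M) Jt) (fun _ => 1) := by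
    unfold ev
    refine Finset.sum_nonneg fun ω _ => ?_
    rw [mul_one]
    unfold confW
    refine mul_nonneg (Finset.prod_nonneg fun a _ => ?_) (by positivity)
    cases hω : ω a with
    | none => simp [wt]
    | some e => simp only [wt]; have := hJt0 a.2 e.1 e.2; positivity
  have h5 : (L : ℝ) ^ d * (s1 * P +
            ∑ j ∈ range (d * I), lvlErr2 d σ lam 1 1 ((L : ℝ) / 2 ^ I) δ
              (fun j => s0 * 2 ^ ((j : ℝ) * (a / d))) j +
            ∑ m ∈ range Wn, winErr2 ((L : ℝ) ^ d) 1 1 (δw m) (κw m)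
              (ε * (L : ℝ) ^ d / 2 ^ m)) ≤ (L : ℝ) ^ d * (s1 * P + B) := by
    refine mul_le_mul_of_nonneg_left ?_ (by positivity)
    linarith
  have h6 := mul_le_mul_of_nonneg_right h5 hZ0
  linarith

lemma sum_windows_le (u w : ℕ → ℝ) (h1 : ∀ j, u j ≤ w j) (h2 : ∀ j, w j ≤ u (j + 1)) (x : ℝ) :
    ∀ N : ℕ, ∑ j ∈ range N, (if u j ≤ x ∧ x < w j then (1 : ℝ) else 0) ≤
      if x < u N then 1 else 0 := by
  intro N
  induction N with
  | zero => simp; split_ifs <;> norm_num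
  | succ N ih =>
    rw [Finset.sum_range_succ]
    have a1 := h1 N
    have a2 := h2 N
    rcases lt_or_ge x (u N) with h | h
    · have b1 : ¬ (u N ≤ x ∧ x < w N) := fun hh => absurd hh.1 (not_le.2 h)
      have b2 : x < u (N + 1) := by linarith
      rw [if_neg b1, if_pos b2, add_zero]
      rw [if_pos h] at ih
      exact ih
    · rw [if_neg (not_lt.2 h)] at ih
      by_cases h' : x < w N
      · rw [if_pos ⟨h, h'⟩, if_pos (by linarith : x < u (N + 1))]
        linarith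
      · rw [if_neg (fun hh => h' hh.2), add_zero]
        refine ih.trans ?_
        split_ifs <;> norm_num

theorem nomeso (hsl : S_slot) (hst : S_stage2) (hkp : S_keep) (htr : S_trotter)
    (hbl : S_blocks) (hbu : S_blkup) (hlv : S_levels3) (hwi : S_windows2) : S_nomeso := by
  intro d σ lam η hd hσ hσd hlam hη
  have hd0 : (0 : ℝ) < d := by exact_mod_cast hd
  obtain ⟨η', hη'⟩ : ∃ η' : ℝ, η' = η / 5 := ⟨_, rfl⟩
  have hη'0 : 0 < η' := by rw [hη']; positivity
  obtain ⟨a, A, lmin, δ, haσ, had, hA, hlmin2, hδ, hlev⟩ := hlv d σ lam η' hd hσ hσd hlam hη'0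
  obtain ⟨ε, hε, hε1, hwin⟩ := hwi d σ lam 1 η' a hd hσ haσ had hlam le_rfl hη'0
  have hA0 : 0 < A := by linarith
  have hl0 : 0 < lmin := by linarith
  -- constants
  obtain ⟨C, hC⟩ : ∃ C : ℝ, C = Crho d σ := ⟨_, rfl⟩
  have hC0 : 0 < C := by
    rw [hC]
    unfold Crho
    have : (2 : ℝ) ^ (-(σ / d)) < 1 :=
      Real.rpow_lt_one_of_one_lt_of_neg (by norm_num) (by have : 0 < σ / d := by positivity
                                                          linarith)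
    have h2 : 0 < 1 - (2 : ℝ) ^ (-(σ / d)) := by linarith
    positivity
  obtain ⟨c, hc⟩ : ∃ c : ℝ, c = min A (η' / (lam * C)) := ⟨_, rfl⟩
  have hc0 : 0 < c := by rw [hc]; exact lt_min hA0 (by positivity)
  have hcA : c ≤ A := by rw [hc]; exact min_le_left _ _
  have hcη : c * (lam * C) ≤ η' := by
    have : c ≤ η' / (lam * C) := by rw [hc]; exact min_le_right _ _
    rwa [le_div_iff₀ (by positivity)] at this
  obtain ⟨G, hG⟩ : ∃ G : ℝ, G = Real.exp (2 * A * (lam * C)) := ⟨_, rfl⟩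
  have hG0 : 0 < G := by rw [hG]; exact Real.exp_pos _
  obtain ⟨N, hN⟩ := exists_nat_gt (G / η')
  have hN0 : (0 : ℝ) < N := lt_trans (by positivity) hN
  have hNpos : 0 < N := by exact_mod_cast hN0
  have hGN : G / N ≤ η' := by
    rw [div_le_iff₀ hN0]
    rw [div_lt_iff₀ hη'0] at hN
    linarith
  obtain ⟨q, hq⟩ : ∃ q : ℕ, A ≤ c * ((2 : ℝ) ^ q) ^ σ := by
    have h2 : (1 : ℝ) < 2 ^ σ := Real.one_lt_rpow (by norm_num) hσ
    obtain ⟨q, hq⟩ := pow_unbounded_of_one_lt (A / c) h2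
    refine ⟨q, ?_⟩
    rw [div_lt_iff₀ hc0] at hq
    have e : ((2 : ℝ) ^ q) ^ σ = (2 ^ σ) ^ q := by
      rw [← Real.rpow_natCast, ← Real.rpow_mul (by norm_num), mul_comm, Real.rpow_mul (by norm_num),
        Real.rpow_natCast]
    rw [e]
    linarith
  obtain ⟨lM, hlM⟩ : ∃ lM : ℝ, lM = 2 * lmin * 2 ^ (q * N) := ⟨_, rfl⟩
  have h2qN : (1 : ℝ) ≤ 2 ^ (q * N) := one_le_pow₀ (by norm_num)
  have hlM2 : 2 * lmin ≤ lM := by
    rw [hlM]; exact le_mul_of_one_le_right (by linarith) h2qN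
  have hlM1 : 1 ≤ lM := by linarith
  have hlM0 : 0 < lM := by linarith
  have hs0min : 1 ≤ A * lmin ^ σ := by
    have : 1 ≤ lmin ^ σ := Real.one_le_rpow (by linarith) hσ.le
    exact one_le_mul_of_one_le_of_one_le hA this
  obtain ⟨L0w, hL0w⟩ := hwin (A * lmin ^ σ) lM 1 hs0min hlM1 one_pos
  obtain ⟨ℓ, hℓ⟩ := exists_nat_ge (c * lM ^ σ)
  obtain ⟨K, hK⟩ := exists_nat_gt (1 / ε)
  have hK0 : (0 : ℝ) < K := lt_trans (by positivity) hK
  obtain ⟨L0a, hL0a⟩ := exists_nat_gt lM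
  obtain ⟨L0b, hL0b⟩ := exists_nat_gt (c * lM ^ σ / ε)
  refine ⟨ℓ, K, max L0w (max L0a L0b), by exact_mod_cast hK0, fun L _ hL J hJ => ?_⟩
  have hLw : L0w ≤ L := (le_max_left _ _).trans hL
  have hLa : lM < L := hL0a.trans_le (by exact_mod_cast
    (((le_max_left _ _).trans (le_max_right _ _)).trans hL))
  have hLb : c * lM ^ σ / ε < L := hL0b.trans_le (by exact_mod_cast
    (((le_max_right _ _).trans (le_max_right _ _)).trans hL))
  have hLpos : (0 : ℝ) < L := by linarith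
  have hL1 : (1 : ℝ) ≤ L := by linarith
  -- the smallest scale
  have hex : ∃ I : ℕ, (L : ℝ) / 2 ^ (I + 1) < lmin := by
    obtain ⟨I, hI⟩ := pow_unbounded_of_one_lt ((L : ℝ) / lmin) (by norm_num : (1 : ℝ) < 2)
    refine ⟨I, ?_⟩
    rw [div_lt_iff₀ hl0] at hI
    rw [div_lt_iff₀ (by positivity), pow_succ]
    have : 0 < (2 : ℝ) ^ I * lmin := by positivity
    linarith only [this, hI]
  obtain ⟨I0, hI0a, hI0b, hI0c⟩ : ∃ I0 : ℕ, lmin ≤ (L : ℝ) / 2 ^ I0 ∧
      (L : ℝ) / 2 ^ I0 < 2 * lmin ∧ q * N ≤ I0 := by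
    classical
    refine ⟨Nat.find hex, ?_, ?_, ?_⟩
    · by_cases h0 : Nat.find hex = 0
      · rw [h0, pow_zero, div_one]
        linarith only [hLa, hlM2, hl0]
      · obtain ⟨k, hk⟩ := Nat.exists_eq_succ_of_ne_zero h0
        have := Nat.find_min hex (m := k) (by omega)
        rw [not_lt] at this
        rw [hk]
        exact this
    · have := Nat.find_spec hex
      rw [pow_succ, ← div_div] at this
      linarith
    · by_contra hcon
      rw [not_le] at hcon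
      have h1 := Nat.find_spec hex
      have h2 : (2 : ℝ) ^ (Nat.find hex + 1) ≤ 2 ^ (q * N) :=
        pow_le_pow_right₀ (by norm_num) hcon
      rw [div_lt_iff₀ (by positivity)] at h1
      rw [hlM] at hLa
      have h3 := mul_le_mul_of_nonneg_left h2 hl0.le
      have h4 : 0 < lmin * 2 ^ (q * N) := by positivity
      linarith only [h1, h3, hLa, h4]
  -- scales
  obtain ⟨l, hl⟩ : ∃ l : ℕ → ℝ, l = fun j => (L : ℝ) / 2 ^ I0 * (2 ^ q) ^ j := ⟨_, rfl⟩
  have hlpos : ∀ j, 0 < l j := by intro j; rw [hl]; positivity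
  have hlj : ∀ j < N, (L : ℝ) / 2 ^ (I0 - q * j) = l j := by
    intro j hj
    have h1 : q * j ≤ I0 := (Nat.mul_le_mul_left q hj.le).trans hI0c
    rw [hl]
    have e1 : (2 : ℝ) ^ I0 = 2 ^ (I0 - q * j) * (2 ^ q) ^ j := by
      rw [← pow_mul, ← pow_add]; congr 1; omega
    change (L : ℝ) / 2 ^ (I0 - q * j) = (L : ℝ) / 2 ^ I0 * (2 ^ q) ^ j
    rw [e1]
    field_simp
  have hlmin : ∀ j, lmin ≤ l j := by
    intro j
    rw [hl]
    have : (1 : ℝ) ≤ (2 ^ q) ^ j := one_le_pow₀ (one_le_pow₀ (by norm_num))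
    change lmin ≤ (L : ℝ) / 2 ^ I0 * (2 ^ q) ^ j
    exact hI0a.trans (le_mul_of_one_le_right (by positivity) this)
  have hlmax : ∀ j < N, l j ≤ lM := by
    intro j hj
    rw [hl, hlM]
    have h1 : ((2 : ℝ) ^ q) ^ j ≤ 2 ^ (q * N) := by
      rw [← pow_mul]
      exact pow_le_pow_right₀ (by norm_num) (Nat.mul_le_mul_left q hj.le)
    change (L : ℝ) / 2 ^ I0 * (2 ^ q) ^ j ≤ 2 * lmin * 2 ^ (q * N)
    exact mul_le_mul hI0b.le h1 (by positivity) (by linarith only [hl0])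
  obtain ⟨u, hu⟩ : ∃ u : ℕ → ℝ, u = fun j => c * l j ^ σ := ⟨_, rfl⟩
  obtain ⟨w, hw⟩ : ∃ w : ℕ → ℝ, w = fun j => A * l j ^ σ := ⟨_, rfl⟩
  have huj : ∀ j, u j = c * l j ^ σ := fun j => by rw [hu]
  have hwj : ∀ j, w j = A * l j ^ σ := fun j => by rw [hw]
  have hlσ : ∀ j, 0 < l j ^ σ := fun j => Real.rpow_pos_of_pos (hlpos j) σ
  have huw : ∀ j, u j ≤ w j := by
    intro j
    rw [huj, hwj]
    exact mul_le_mul_of_nonneg_right hcA (hlσ j).le
  have hwu : ∀ j, w j ≤ u (j + 1) := by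
    intro j
    rw [huj, hwj]
    have e1 : l (j + 1) = l j * 2 ^ q := by rw [hl]; simp only [pow_succ]; ring
    rw [e1, Real.mul_rpow (hlpos j).le (by positivity)]
    have := mul_le_mul_of_nonneg_right hq (hlσ j).le
    linarith
  -- the pigeonhole
  have hJ0 : ∀ x y, 0 ≤ J x y := by
    intro x y
    by_cases hxy : x = y
    · subst hxy; rw [hJ.2.1]
    · exact le_trans (by positivity) (hJ.2.2 x y hxy)
  have hP0 : ∀ g, 0 ≤ stirMass J 1 g := fun g =>
    Pool.Agent.W29.LR.CV.stirMass_nonneg J hJ0 1 zero_le_one g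
  obtain ⟨Z, hZ⟩ : ∃ Z, Z = ∑ g, stirMass J 1 g := ⟨_, rfl⟩
  have hZ0 : 0 ≤ Z := by rw [hZ]; exact Finset.sum_nonneg fun g _ => hP0 g
  obtain ⟨n, hn⟩ : ∃ n : ℝ, n = (L : ℝ) ^ d := ⟨_, rfl⟩
  have hn0 : 0 < n := by rw [hn]; positivity
  have hcard : (Fintype.card (Fin d → ZMod L) : ℝ) = n := by
    rw [Fintype.card_fun, ZMod.card, Fintype.card_fin, hn]; push_cast; rfl
  obtain ⟨D, hD⟩ : ∃ D : ℕ → ℝ, D = fun j => ∑ g, stirMass J 1 g *
    (cnt fun v => u j ≤ len g v ∧ len g v < w j) := ⟨_, rfl⟩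
  have hDsum : ∑ j ∈ range N, D j ≤ n * Z := by
    calc ∑ j ∈ range N, D j = ∑ g, stirMass J 1 g *
          ∑ j ∈ range N, (cnt fun v => u j ≤ len g v ∧ len g v < w j) := by
          rw [hD, Finset.sum_comm]
          refine Finset.sum_congr rfl fun g _ => ?_
          rw [Finset.mul_sum]
      _ ≤ ∑ g, stirMass J 1 g * n := by
          refine Finset.sum_le_sum fun g _ => mul_le_mul_of_nonneg_left ?_ (hP0 g)
          have e1 : ∑ j ∈ range N, (cnt fun v => u j ≤ len g v ∧ len g v < w j) =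
              ∑ v, ∑ j ∈ range N, (if u j ≤ len g v ∧ len g v < w j then (1 : ℝ) else 0) := by
            rw [Finset.sum_comm]
            refine Finset.sum_congr rfl fun j _ => ?_
            unfold cnt
            refine Finset.sum_congr rfl fun v _ => ?_
            congr
          rw [e1, ← hcard]
          calc ∑ v : Fin d → ZMod L,
                ∑ j ∈ range N, (if u j ≤ len g v ∧ len g v < w j then (1 : ℝ) else 0)
              ≤ ∑ _v : Fin d → ZMod L, (1 : ℝ) := by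
                refine Finset.sum_le_sum fun v _ => ?_
                refine (sum_windows_le u w huw hwu (len g v) N).trans ?_
                split_ifs <;> norm_num
            _ = _ := by simp
      _ = n * Z := by rw [← Finset.sum_mul, hZ, mul_comm]
  obtain ⟨j, hj, hDj⟩ : ∃ j < N, D j ≤ n * Z / N := by
    by_contra hcon
    push Not at hcon
    have h1 : ∑ j ∈ range N, (n * Z / N) < ∑ j ∈ range N, D j :=
      Finset.sum_lt_sum_of_nonempty (by rw [Finset.nonempty_range_iff]; omega)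
        (fun j hj => hcon j (Finset.mem_range.1 hj))
    rw [Finset.sum_const, Finset.card_range, nsmul_eq_mul] at h1
    have h2 : (N : ℝ) * (n * Z / N) = n * Z := by field_simp
    rw [h2] at h1
    linarith
  -- the chain at this scale
  obtain ⟨I, hI⟩ : ∃ I, I = I0 - q * j := ⟨_, rfl⟩
  have hLI : (L : ℝ) / 2 ^ I = l j := by rw [hI]; exact hlj j hj
  have hIL : 2 * 2 ^ I ≤ L := by
    have h1 : (2 : ℝ) * 2 ^ I ≤ L := by
      have h2 := (hlmin j)
      rw [← hLI, le_div_iff₀ (by positivity)] at h2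
      have h3 : (2 : ℝ) * 2 ^ I ≤ lmin * 2 ^ I :=
        mul_le_mul_of_nonneg_right hlmin2 (by positivity)
      linarith only [h2, h3]
    exact_mod_cast h1
  obtain ⟨hb1, hb2⟩ := hlev (l j) (hlmin j)
  obtain ⟨Wn, κw, δw, hw1, hw2, hw3, hw4⟩ := hL0w L hLw (l j) I
    (by have := hlmin j; linarith) (hlmax j hj) (by rw [← hLI]; field_simp)
  have hbd : ∑ k ∈ range (d * I), lvlErr2 d σ lam 1 1 ((L : ℝ) / 2 ^ I) δ
              (fun k => w j * 2 ^ ((k : ℝ) * (a / d))) k +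
            ∑ m ∈ range Wn, winErr2 ((L : ℝ) ^ d) 1 1 (δw m) (κw m)
              (ε * (L : ℝ) ^ d / 2 ^ m) ≤ 2 * η' := by
    have := hb2 (d * I)
    rw [← hwj] at this
    rw [hLI]
    linarith only [this, hw4]
  have key := chain3_lim hsl hst hkp htr hbl hbu σ lam a (w j) (u j) ε I Wn δ κw δw hd hσ hlam
    (hσ.trans haσ) had (by rw [hwj]; have := hlσ j; positivity)
    (by rw [huj]; have := hlσ j; positivity) (huw j) hε hδ hIL
    (by intro k; rw [hLI, hwj]; exact hb1 k)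
    (by
      refine hw1.trans ?_
      rw [hwj]
      have : lmin ^ σ ≤ l j ^ σ := Real.rpow_le_rpow hl0.le (hlmin j) hσ.le
      gcongr)
    hw2 hw3 J hJ (2 * η') hbd
  have hll : l j ^ σ * l j ^ (-σ) = 1 := by
    rw [← Real.rpow_add (hlpos j)]; simp
  have hE1 : 2 * w j * (lam * ((L : ℝ) / 2 ^ I) ^ (-σ) * Crho d σ) = 2 * A * (lam * C) := by
    rw [hLI, hwj, ← hC]
    calc 2 * (A * l j ^ σ) * (lam * l j ^ (-σ) * C) =
          2 * A * (lam * C) * (l j ^ σ * l j ^ (-σ)) := by ring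
      _ = _ := by rw [hll, mul_one]
  have hE2 : u j * (lam * ((L : ℝ) / 2 ^ I) ^ (-σ) * Crho d σ) ≤ η' := by
    rw [hLI, huj, ← hC]
    calc c * l j ^ σ * (lam * l j ^ (-σ) * C) =
          c * (lam * C) * (l j ^ σ * l j ^ (-σ)) := by ring
      _ ≤ _ := by rw [hll, mul_one]; exact hcη
  rw [hE1, ← hG, ← hn, ← hZ] at key
  have hD' : ∑ g, stirMass J 1 g * (cnt fun v => u j ≤ len g v ∧ len g v < w j) = D j := by
    rw [hD]
  rw [hD'] at key
  have k1 : G * D j ≤ n * η' * Z := by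
    calc G * D j ≤ G * (n * Z / N) := mul_le_mul_of_nonneg_left hDj hG0.le
      _ = n * (G / N) * Z := by ring
      _ ≤ n * η' * Z := by gcongr
  have k2 : n * (u j * (lam * ((L : ℝ) / 2 ^ I) ^ (-σ) * Crho d σ) + 2 * η') * Z ≤
      n * (3 * η') * Z := by
    refine mul_le_mul_of_nonneg_right (mul_le_mul_of_nonneg_left ?_ hn0.le) hZ0
    linarith
  -- conclusion
  have huM : u j ≤ c * lM ^ σ := by
    rw [huj]
    have := Real.rpow_le_rpow (hlpos j).le (hlmax j hj) hσ.le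
    gcongr
  have hun : u j ≤ ε * n := by
    refine huM.trans ?_
    rw [div_lt_iff₀ hε] at hLb
    have h1 : (L : ℝ) ≤ n := by
      rw [hn]; exact le_self_pow₀ hL1 (by omega)
    have h2 := mul_le_mul_of_nonneg_right h1 hε.le
    linarith only [hLb, h2]
  have k3 : ∑ g, stirMass J 1 g * (cnt fun v => (ℓ : ℝ) ≤ len g v ∧ K * len g v < n) +
      ∑ g, stirMass J 1 g * (cnt fun v => len g v < u j) ≤
      ∑ g, stirMass J 1 g * (cnt fun v => len g v < ε * n) := by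
    rw [← Finset.sum_add_distrib]
    refine Finset.sum_le_sum fun g _ => ?_
    rw [← mul_add]
    refine mul_le_mul_of_nonneg_left ?_ (hP0 g)
    unfold cnt
    rw [← Finset.sum_add_distrib]
    refine Finset.sum_le_sum fun v _ => ?_
    by_cases h1 : (ℓ : ℝ) ≤ len g v ∧ K * len g v < n
    · have h2 : ¬ len g v < u j := by
        rw [not_lt]
        exact (huM.trans hℓ).trans h1.1
      have h3 : len g v < ε * n := by
        have h4 : 1 < K * ε := by
          rw [div_lt_iff₀ hε] at hK; exact hK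
        have h5 : 0 ≤ len g v := (Nat.cast_nonneg ℓ).trans h1.1
        have h6 := h1.2
        have h7 : K * len g v < K * (ε * n) := by
          have h8 := mul_lt_mul_of_pos_right h4 hn0
          linarith only [h6, h8]
        exact lt_of_mul_lt_mul_left h7 hK0.le
      simp [h1, h2, h3]
    · rw [if_neg h1, zero_add]
      by_cases h2 : len g v < u j
      · simp [h2, h2.trans_le hun]
      · rw [if_neg h2]; split_ifs <;> norm_num
  rw [← hn, ← hZ]
  have k4 : 0 ≤ n * Z := by positivity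
  have k5 : η = 5 * η' := by rw [hη']; ring
  rw [k5]
  have k6 : 0 ≤ n * η' * Z := by positivity
  have k7 : 5 * η' * n * Z = n * η' * Z + n * (3 * η') * Z + n * η' * Z := by ring
  rw [k7]
  linarith only [k1, k2, k3, key, k6]

end Pool.Agent.W805.PD
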