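import Pool.Agent.W805.LR.PDThm3

/-!
# Random stirring with long-range rates: time zero, consequences
-/

set_option autoImplicit false

namespace Pool.Agent.W805.PD

open Finset Equiv Filter Topology MeasureTheory
open Pool.Agent.W805.LR

section zero

variable {V : Type} [Fintype V] [DecidableEq V]

/-- The expectation as a series over words of transpositions. -/
theorem EE_series (J : V → V → ℝ) (t : ℝ) (F : Perm V → ℝ) :
    ∑ g, (∑' n : ℕ, Real.exp (-(t * ∑ x, ∑ y, J x y / 2)) * t ^ n / (n.factorial : ℝ) *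
      ∑ w : Fin n → V × V, (∏ i, J (w i).1 (w i).2 / 2) *
        (if (List.ofFn fun i => swap (w i).1 (w i).2).prod = g then 1 else 0)) * F g =
      EE J t F := by
  simp only [series_eq]
  unfold EE
  rw [sum_mass]
  obtain ⟨R, hR⟩ : ∃ R, R = ∑ x, ∑ y, J x y / 2 := ⟨_, rfl⟩
  rw [← hR, Real.exp_neg]
  calc ∑ g, (Real.exp (t * R))⁻¹ * stirMass J t g * F g =
        (Real.exp (t * R))⁻¹ * ∑ g, stirMass J t g * F g := by
        rw [Finset.mul_sum]
        exact Finset.sum_congr rfl fun g _ => by ring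
    _ = _ := (div_eq_inv_mul _ _).symm

theorem EE_zero (J : V → V → ℝ) (F : Perm V → ℝ) : EE J 0 F = F 1 := by
  have h : ∀ g : Perm V, stirMass J 0 g = if g = 1 then 1 else 0 := by
    intro g
    unfold stirMass
    rw [tsum_eq_single 0]
    · simp [ringSum]
    · intro m hm
      simp [zero_pow hm]
  unfold EE
  simp only [h]
  simp

theorem pdInt_zero (k : ℕ) (f : (Fin k → ℝ) → ℝ) : pdInt k f 0 = f fun _ => 0 := by
  unfold pdInt
  simp

theorem pOrd_one_le [Nonempty V] (i K : ℕ) (hK : 0 < K) (hKn : K < Fintype.card V) :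
    pOrd (1 : Perm V) i ≤ ((i : ℝ) + 1) / K := by
  have h1 := (Pool.Agent.W928.PD.PO.main V (1 : Perm V) K (i + 1) hK).2
  have h2 : MK (1 : Perm V) K = 0 := by
    rw [MK_eq]
    have h3 : cnt (fun v => (Fintype.card V : ℝ) ≤ K * len (1 : Perm V) v) = 0 := by
      unfold cnt
      refine Finset.sum_eq_zero fun v _ => ?_
      have h4 : len (1 : Perm V) v = 1 := Pool.Agent.W782.PD.Samp.len_fix 1 v rfl
      have h5 : ¬ ((Fintype.card V : ℝ) ≤ K * len (1 : Perm V) v) := by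
        rw [h4, mul_one, not_le]
        exact_mod_cast hKn
      exact if_neg h5
    rw [h3, zero_div]
  have h5 : pOrd (1 : Perm V) i ≤ ∑ j ∈ range (i + 1), pOrd (1 : Perm V) j :=
    Finset.single_le_sum (f := fun j => pOrd (1 : Perm V) j)
      (fun j _ => Pool.Agent.W782.PD.Samp.pOrd_nonneg 1 j) (Finset.mem_range.2 (Nat.lt_succ_self i))
  have h6 : (uavg fun v : V => if 1 ≤ K * pc (1 : Perm V) v then (1 : ℝ) else 0) = 0 := h2
  rw [h6, zero_add] at h1
  push_cast at h1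
  exact h5.trans h1

end zero

/-- The full theorem for all `t ≥ 0`. -/
theorem full_all (d : ℕ) (σ lam : ℝ) (φ : (Fin d → ℤ) → ℝ) (hd : 1 ≤ d) (hσ : 0 < σ)
    (hσd : σ < d) (hlam : 0 < lam) (hφ : IsKer d φ)
    (hlow : ∀ z : Fin d → ℤ, z ≠ 0 →
      lam * ((univ.sup fun a => (z a).natAbs : ℕ) : ℝ) ^ (-((d : ℝ) + σ)) ≤ φ z) :
    ∃ m : ℝ → ℝ, ContinuousOn m (Set.Ici 0) ∧ (∀ t, 0 ≤ t → 0 ≤ m t ∧ m t ≤ 1) ∧
    (∀ t, 0 ≤ t → t * (∑' z, φ z) < 1 → m t = 0) ∧ Tendsto m atTop (𝓝 1) ∧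
    ∀ t, 0 ≤ t →
      (∀ (k : ℕ) (f : (Fin k → ℝ) → ℝ), Continuous f →
        Tendsto (fun N : ℕ => EE (fun x y : Fin d → ZMod (N + 1) => wrap φ x y) t
          (fun g => f (fun i : Fin k => pOrd g i))) atTop (𝓝 (pdInt k f (m t)))) ∧
      (∃ Lk : ℕ → ℝ, (∀ k, Tendsto (fun N : ℕ => ∑ i ∈ range k,
          EE (fun x y : Fin d → ZMod (N + 1) => wrap φ x y) t (fun g => pOrd g i)) atTop
            (𝓝 (Lk k))) ∧ Tendsto Lk atTop (𝓝 (m t))) := by
  obtain ⟨m, h1, h2, h3, h4, h5⟩ := fullQ_thm d σ lam φ hd hσ hσd hlam hφ hlow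
  refine ⟨m, h1, h2, h3, h4, fun t ht => ?_⟩
  rcases eq_or_lt_of_le ht with ht | ht
  · rw [← ht]
    have hm0 : m 0 = 0 := h3 0 le_rfl (by simp)
    have hp : ∀ i : ℕ, Tendsto (fun N : ℕ => pOrd (1 : Perm (Fin d → ZMod (N + 1))) i) atTop
        (𝓝 0) := by
      intro i
      have hlim : Tendsto (fun N : ℕ => ((i : ℝ) + 1) / (N : ℝ)) atTop (𝓝 0) :=
        tendsto_const_div_atTop_nhds_zero_nat _
      refine tendsto_of_tendsto_of_tendsto_of_le_of_le' tendsto_const_nhds hlim ?_ ?_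
      · exact Filter.Eventually.of_forall fun N => Pool.Agent.W782.PD.Samp.pOrd_nonneg 1 i
      · filter_upwards [Filter.eventually_gt_atTop 0] with N hN
        refine pOrd_one_le i N hN ?_
        rw [Fintype.card_fun, ZMod.card, Fintype.card_fin]
        exact lt_of_lt_of_le (Nat.lt_succ_self N) (Nat.le_self_pow (by omega) _)
    refine ⟨fun k f hf => ?_, fun _ => 0, fun k => ?_, ?_⟩
    · simp only [EE_zero]
      rw [hm0, pdInt_zero]
      exact (hf.tendsto _).comp (tendsto_pi_nhds.2 fun i => hp i)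
    · simp only [EE_zero]
      have := tendsto_finset_sum (range k) fun i _ => hp i
      simpa using this
    · rw [hm0]; exact tendsto_const_nhds
  · exact h5 t ht

/-- Cycle lengths when there is no macroscopic mass. -/
theorem no_long (d : ℕ) (φ : (Fin d → ℤ) → ℝ) (t : ℝ) (ht : 0 ≤ t) (hφ : IsKer d φ)
    (h : ∀ (k : ℕ) (f : (Fin k → ℝ) → ℝ), Continuous f →
        Tendsto (fun N : ℕ => EE (fun x y : Fin d → ZMod (N + 1) => wrap φ x y) t
          (fun g => f (fun i : Fin k => pOrd g i))) atTop (𝓝 (pdInt k f 0)))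
    (i : ℕ) (ε : ℝ) (hε : 0 < ε) :
    Tendsto (fun N : ℕ => EE (fun x y : Fin d → ZMod (N + 1) => wrap φ x y) t
      (fun g => if ε ≤ pOrd g i then 1 else 0)) atTop (𝓝 0) := by
  have hJ0 : ∀ N, ∀ x y : Fin d → ZMod (N + 1), 0 ≤ wrap φ x y := fun N x y =>
    (wrap_thm d (N + 1) 1 1 φ hφ).2.1 x y
  have h1 := h (i + 1) (fun x => x (Fin.last i) / ε) (by fun_prop)
  rw [pdInt_zero, zero_div] at h1
  refine tendsto_of_tendsto_of_tendsto_of_le_of_le tendsto_const_nhds h1 ?_ ?_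
  · intro N
    exact EE_nonneg (hJ0 N) ht fun g => by split_ifs <;> norm_num
  · intro N
    refine EE_mono (hJ0 N) ht fun g => ?_
    change (if ε ≤ pOrd g i then (1 : ℝ) else 0) ≤ pOrd g (Fin.last i : Fin (i + 1)) / ε
    rw [Fin.val_last]
    split_ifs with h2
    · rw [le_div_iff₀ hε]; linarith
    · exact div_nonneg (Pool.Agent.W782.PD.Samp.pOrd_nonneg g i) hε.le

/-- Cycle lengths when there is macroscopic mass. -/
theorem many_long (d : ℕ) (φ : (Fin d → ℤ) → ℝ) (t M : ℝ) (ht : 0 ≤ t) (hM : 0 < M)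
    (hφ : IsKer d φ)
    (h : ∀ (k : ℕ) (f : (Fin k → ℝ) → ℝ), Continuous f →
        Tendsto (fun N : ℕ => EE (fun x y : Fin d → ZMod (N + 1) => wrap φ x y) t
          (fun g => f (fun i : Fin k => pOrd g i))) atTop (𝓝 (pdInt k f M))) (i : ℕ) :
    ∃ ε0 : ℝ, 0 < ε0 ∧ ∀ ε : ℝ, 0 < ε → ε < ε0 →
      0 < Filter.liminf (fun N : ℕ => EE (fun x y : Fin d → ZMod (N + 1) => wrap φ x y) t
        (fun g => if ε ≤ pOrd g i then 1 else 0)) atTop := by
  have hJ0 : ∀ N, ∀ x y : Fin d → ZMod (N + 1), 0 ≤ wrap φ x y := fun N x y =>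
    (wrap_thm d (N + 1) 1 1 φ hφ).2.1 x y
  obtain ⟨ε0, hε0, hpos⟩ := Pool.Agent.W975.PD.PP.main i M hM
  refine ⟨ε0, hε0, fun ε hε hε' => ?_⟩
  have h1 := h (i + 1) (fun x => min 1 (max 0 (x (Fin.last i) / ε - 1))) (by fun_prop)
  have h2 := hpos ε hε hε'
  obtain ⟨c, hc⟩ : ∃ c, c = pdInt (i + 1) (fun x => min 1 (max 0 (x (Fin.last i) / ε - 1))) M :=
    ⟨_, rfl⟩
  rw [← hc] at h1 h2
  have h3 : ∀ᶠ N : ℕ in atTop, c / 2 ≤ EE (fun x y : Fin d → ZMod (N + 1) => wrap φ x y) t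
        (fun g => if ε ≤ pOrd g i then 1 else 0) := by
    filter_upwards [h1.eventually (lt_mem_nhds (show c / 2 < c by linarith))] with N hN
    refine hN.le.trans (EE_mono (hJ0 N) ht fun g => ?_)
    change min 1 (max 0 (pOrd g (Fin.last i : Fin (i + 1)) / ε - 1)) ≤ _
    rw [Fin.val_last]
    split_ifs with h4
    · exact min_le_left _ _
    · refine (min_le_right _ _).trans (max_le le_rfl ?_)
      rw [not_le] at h4
      have : pOrd g i / ε < 1 := by rw [div_lt_one hε]; exact h4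
      linarith
  refine lt_of_lt_of_le (by linarith : 0 < c / 2) ?_
  refine Filter.le_liminf_of_le ?_ h3
  refine Filter.isCoboundedUnder_ge_of_le (x := 1) _ fun N => ?_
  exact EE_le (hJ0 N) ht 1 fun g => by split_ifs <;> norm_num

/-- The first time with macroscopic mass. -/
theorem crit (m : ℝ → ℝ) (S : ℝ) (hS : 0 ≤ S) (h1 : ContinuousOn m (Set.Ici 0))
    (h2 : ∀ t, 0 ≤ t → 0 ≤ m t ∧ m t ≤ 1) (h3 : ∀ t, 0 ≤ t → t * S < 1 → m t = 0)
    (h4 : Tendsto m atTop (𝓝 1)) :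
    ∃ βc : ℝ, 0 < βc ∧ (∀ t, 0 ≤ t → t ≤ βc → m t = 0) ∧
      ∀ β, βc < β → ∃ t, βc < t ∧ t < β ∧ 0 < m t := by
  obtain ⟨A, hA⟩ : ∃ A : Set ℝ, ∀ b, b ∈ A ↔ 0 ≤ b ∧ ∀ t, 0 ≤ t → t ≤ b → m t = 0 :=
    ⟨{b | 0 ≤ b ∧ ∀ t, 0 ≤ t → t ≤ b → m t = 0}, fun _ => Iff.rfl⟩
  have hb0 : 1 / (S + 1) ∈ A := by
    rw [hA]
    refine ⟨by positivity, fun t ht ht' => h3 t ht ?_⟩
    have : t * S ≤ 1 / (S + 1) * S := mul_le_mul_of_nonneg_right ht' hS
    refine lt_of_le_of_lt this ?_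
    rw [one_div, ← div_eq_inv_mul, div_lt_one (by positivity)]
    linarith
  obtain ⟨T, hT⟩ := (Metric.tendsto_atTop.1 h4) (1 / 2) (by norm_num)
  have hbdd : BddAbove A := by
    refine ⟨max T 0, fun b hb => ?_⟩
    rw [hA] at hb
    by_contra hcon
    rw [not_le] at hcon
    have e1 := hT b ((le_max_left _ _).trans hcon.le)
    rw [hb.2 b hb.1 le_rfl, Real.dist_eq] at e1
    norm_num at e1
  have hpos : 0 < sSup A := lt_of_lt_of_le (by positivity) (le_csSup hbdd hb0)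
  have hlt : ∀ t, 0 ≤ t → t < sSup A → m t = 0 := by
    intro t ht ht'
    obtain ⟨b, hb, hb'⟩ := exists_lt_of_lt_csSup ⟨_, hb0⟩ ht'
    rw [hA] at hb
    exact hb.2 t ht hb'.le
  have heq : m (sSup A) = 0 := by
    have hc : ContinuousWithinAt m (Set.Ico 0 (sSup A)) (sSup A) :=
      (h1 (sSup A) hpos.le).mono fun x hx => hx.1
    have hne : (𝓝[Set.Ico 0 (sSup A)] (sSup A)).NeBot := by
      rw [← mem_closure_iff_nhdsWithin_neBot, closure_Ico hpos.ne]
      exact ⟨hpos.le, le_rfl⟩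
    have e1 : Tendsto m (𝓝[Set.Ico 0 (sSup A)] (sSup A)) (𝓝 0) := by
      refine tendsto_const_nhds.congr' ?_
      filter_upwards [self_mem_nhdsWithin] with t ht
      exact (hlt t ht.1 ht.2).symm
    exact tendsto_nhds_unique hc e1
  have hle : ∀ t, 0 ≤ t → t ≤ sSup A → m t = 0 := by
    intro t ht ht'
    rcases eq_or_lt_of_le ht' with h | h
    · rw [h]; exact heq
    · exact hlt t ht h
  refine ⟨sSup A, hpos, hle, fun β hβ => ?_⟩
  by_contra hcon
  push Not at hcon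
  have hmem : (sSup A + β) / 2 ∈ A := by
    rw [hA]
    refine ⟨by linarith, fun t ht ht' => ?_⟩
    rcases le_or_gt t (sSup A) with h | h
    · exact hle t ht h
    · exact le_antisymm (hcon t h (by linarith)) (h2 t ht).1
  have := le_csSup hbdd hmem
  linarith

end Pool.Agent.W805.PD
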