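import Pool.Agent.W805.LR.Stm5

/-!
# Poisson-Dirichlet cycle lengths for random stirring: uniform permutations
-/

set_option autoImplicit false

namespace Pool.Agent.W805.PD.PDUN

open Finset Equiv Filter Topology
open Pool.Agent.W805.LR

theorem main : S_UA → S_UB → S_UC → S_unif := by
  intro hA hB hC k f δ hf hδ
  obtain ⟨m1, h1⟩ := hB k f (δ / 2) hf (by positivity)
  obtain ⟨m2, h2⟩ := hC k f (δ / 2) hf (by positivity)
  refine ⟨max m1 m2, fun m hm A => ?_⟩
  have e1 := h2 m (le_trans (le_max_right _ _) hm) A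
  have e2 := h1 m (le_trans (le_max_left _ _) hm) A.card (by
    simpa using Finset.card_le_univ A)
  rw [← hA] at e2
  rw [abs_le] at e1 e2 ⊢
  constructor
  · linarith [e1.1, e2.1]
  · linarith [e1.2, e2.2]

end Pool.Agent.W805.PD.PDUN
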