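import Pool.Agent.W805.LR.PDAS
import Pool.Agent.W805.LR.PDUN
import Pool.Agent.W460.PD.TR
import Pool.Agent.W57.PD.Match
import Pool.Agent.W349.PD.CL2
import Pool.Agent.W505.PD.CR
import Pool.Agent.W756.PD.Co
import Pool.Agent.W588.PD.Dust
import Pool.Agent.W345.PD.Tail
import Pool.Agent.W782.PD.Inv
import Pool.Agent.W374.PD.Pigeon
import Pool.Agent.W475.PD.FA
import Pool.Agent.W397.PD.FB
import Pool.Agent.W790.PD.FC
import Pool.Agent.W64.PD.FD
import Pool.Agent.W839.PD.FE
import Pool.Agent.W475.PD.FF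
import Pool.Agent.W368.PD.FX
import Pool.Agent.W54.PD.TL
import Pool.Agent.W782.PD.Samp
import Pool.Agent.W193.PD.UA
import Pool.Agent.W499.PD.UB
import Pool.Agent.W975.PD.UC
import Pool.Agent.W782.PD.Avg

/-!
# Poisson-Dirichlet cycle lengths for random stirring with long-range rates: the theorem
-/

set_option autoImplicit false

namespace Pool.Agent.W805.PD

theorem match_thm : S_match := Pool.Agent.W57.PD.Match.main

theorem tr_thm : S_tr := Pool.Agent.W460.PD.TR.main

theorem core_thm : S_core :=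
  Pool.Agent.W756.PD.main tr_thm match_thm W349.PD.main (Pool.Agent.W505.PD.CR.main tr_thm match_thm)

theorem dust_thm : S_dust := Pool.Agent.W588.PD.Dust.main tr_thm match_thm

theorem tail_thm : S_tail := Pool.Agent.W345.PD.main match_thm

theorem fix_thm : S_fix :=
  Pool.Agent.W368.PD.FX.main match_thm tail_thm (Pool.Agent.W475.PD.FA.main match_thm)
    (Pool.Agent.W397.PD.FB.main tr_thm match_thm dust_thm core_thm)
    (Pool.Agent.W790.PD.FC.main tr_thm) Pool.Agent.W64.PD.main
    (Pool.Agent.W839.PD.FE.main tr_thm match_thm tail_thm) (Pool.Agent.W475.PD.FF.main tr_thm)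

/-- The trace law of stirring. -/
theorem trace_thm : S_trace :=
  Pool.Agent.W54.PD.TL.main Pool.Agent.W782.PD.Inv.main fix_thm Pool.Agent.W374.PD.PH.main

theorem unif_thm : S_unif :=
  PDUN.main Pool.Agent.W193.PD.UA.main Pool.Agent.W499.PD.main Pool.Agent.W975.PD.UC.main

/-- Cycle lengths at any time. -/
theorem pd_thm : S_pd :=
  PDAS.main Pool.Agent.W782.PD.Samp.main trace_thm unif_thm Pool.Agent.W782.PD.Avg.mass

end Pool.Agent.W805.PD
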