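import Pool.Agent.W805.LR.PD2
import Pool.Agent.W805.LR.NoMeso
import Pool.Agent.W805.LR.PDThm
import Pool.Agent.W805.LR.Main2
import Pool.Agent.W928.PD.KP
import Pool.Agent.W597.PD.L3
import Pool.Agent.W60.PD.BU
import Pool.Agent.W588.PD.CN
import Pool.Agent.W465.PD.DF
import Pool.Agent.W928.PD.PO

/-!
# Random stirring with long-range rates at all times: the theorems
-/

set_option autoImplicit false

namespace Pool.Agent.W805.PD

open Pool.Agent.W805.LR

/-- At all times almost no points lie in cycles of intermediate length. -/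
theorem nomeso_thm : S_nomeso :=
  nomeso (Pool.Agent.W646.LR.SL.main (Pool.Agent.W646.LR.main_cyc
      Pool.Agent.W333.LR.main_merge Pool.Agent.W333.LR.main_split))
    Pool.Agent.W613.LR.ST2.main' Pool.Agent.W928.PD.KP.main Pool.Agent.W32.LR.main
    Pool.Agent.W333.LR.main_blocks Pool.Agent.W60.PD.BU.main Pool.Agent.W597.PD.L3.main
    Pool.Agent.W358.LR.EW2.main

/-- Poisson-Dirichlet cycle lengths at all times. -/
theorem pd2_thm : S_pd2 :=
  pd2 pd_thm nomeso_thm Pool.Agent.W588.PD.CN.main Pool.Agent.W465.PD.DF.main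
    Pool.Agent.W928.PD.PO.main

end Pool.Agent.W805.PD
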