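import Pool.Agent.W805.LR.PDThm2
import Pool.Agent.W805.LR.FullQ
import Pool.Agent.W571.PD.CM
import Pool.Agent.W571.PD.SU
import Pool.Agent.W563.PD.BX
import Pool.Agent.W636.PD.CU
import Pool.Agent.W407.PD.LO
import Pool.Agent.W975.PD.PP
import Pool.Agent.W240.PD.WR
import Pool.Agent.W349.LR.SM

/-!
# Random stirring with long-range rates: the full theorem
-/

set_option autoImplicit false

namespace Pool.Agent.W805.PD

open Pool.Agent.W805.LR

theorem pd3_thm : S_pd3 :=
  pd3 pd_thm nomeso_thm Pool.Agent.W588.PD.CN.main Pool.Agent.W465.PD.DF.main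
    Pool.Agent.W928.PD.PO.main

theorem wrap_thm : S_wrap := Pool.Agent.W240.PD.WR.main

theorem loc_thm : S_loc :=
  Pool.Agent.W407.PD.LO.main Pool.Agent.W571.PD.CM.main
    (Pool.Agent.W636.PD.CU.main Pool.Agent.W571.PD.SU.main) Pool.Agent.W563.PD.BX.main
    wrap_thm Pool.Agent.W465.PD.DF.main

/-- Existence and continuity of the macroscopic mass, and Poisson-Dirichlet cycle lengths. -/
theorem fullQ_thm : S_fullQ :=
  fullQ pd3_thm nomeso_thm Pool.Agent.W571.PD.CM.main Pool.Agent.W465.PD.DF.main loc_thm wrap_thm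
    Pool.Agent.W349.LR.SM.main main2_thm

end Pool.Agent.W805.PD
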