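import Pool.Agent.W805.LR.Basic

set_option autoImplicit false

namespace Pool.Agent.W805.LR

open Finset Equiv Filter Topology

variable {V : Type} [Fintype V] [DecidableEq V]

/-- The permutation made of the slots of type less than `k`. -/
noncomputable def GG (M T k : ℕ) (ω : Fin M × Fin T → Option (V × V)) : Perm V :=
  prodS (slots M T) (fun a => a.2.val < k) ω

lemma mask_zero {M T : ℕ} (j : Fin T) (ω : Fin M × Fin T → Option (V × V)) :
    prodS (slots M T) (fun a => a.2 < j ∨ (a.2 = j ∧ a.1.val < 0)) ω = GG M T j.val ω :=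
  prodS_congr _ (fun a => ⟨fun h => h.elim (fun h => h) (fun h => absurd h.2 (Nat.not_lt_zero _)),
    fun h => Or.inl h⟩) ω

lemma mask_top {M T : ℕ} (j : Fin T) (ω : Fin M × Fin T → Option (V × V)) :
    prodS (slots M T) (fun a => a.2 < j ∨ (a.2 = j ∧ a.1.val < M)) ω = GG M T (j.val + 1) ω :=
  prodS_congr _ (fun a => ⟨fun h => h.elim (fun h => Nat.lt_succ_of_lt h)
      (fun h => by rw [h.1]; exact Nat.lt_succ_self _),
    fun h => (Nat.lt_succ_iff_lt_or_eq.1 h).elim (fun h => Or.inl h)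
      (fun h => Or.inr ⟨Fin.ext h, a.1.isLt⟩)⟩) ω

lemma mask_all {M T : ℕ} (ω : Fin M × Fin T → Option (V × V)) :
    prodS (slots M T) (fun _ => True) ω = GG M T T ω :=
  prodS_congr _ (fun a => ⟨fun _ => a.2.isLt, fun _ => trivial⟩) ω

lemma one_le_max_inv {θ : ℝ} (h : 0 < θ) : 1 ≤ max θ θ⁻¹ := by
  rcases le_total 1 θ with h1 | h1
  · exact le_max_of_le_left h1
  · exact le_max_of_le_right (by rw [one_le_inv₀ h]; exact h1)

/-- Growth stage in terms of rates. -/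
theorem growth (hsl : S_slot) (hst : S_stage) {ι : Type} {M T : ℕ} (θ h t : ℝ)
    (Jt : Fin T → V → V → ℝ) (j : Fin T) (blk : V → ι) (hθ : 0 < θ) (hh : 0 ≤ h)
    (ht : M * h = t) (hJ : ∀ j x y, 0 ≤ Jt j x y) (hJd : ∀ j x, Jt j x x = 0)
    (hsup : ∀ j' ≤ j, ∀ x y, Jt j' x y ≠ 0 → blk x = blk y)
    (s1 s2 s' δ κ m f b : ℝ) (w2 : V → V → ℝ)
    (h1 : 0 < s1) (h2 : s1 ≤ s') (h3 : 0 < s2) (h4 : s2 ≤ s') (h5 : s' ≤ s1 + s2) (h6 : 0 < δ)
    (h7 : 0 ≤ κ) (h8 : 0 ≤ m) (h9 : ∀ x y, x ≠ y → blk x = blk y → κ ≤ Jt j x y)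
    (h10 : ∀ x y, 0 ≤ w2 x y) (h11 : ∀ x y, Jt j x y ≤ m + w2 x y)
    (h12 : (∑ x, ∑ y, w2 x y) ≤ Fintype.card V * f)
    (h13 : ∀ v, b ≤ cnt fun u => blk u = blk v) (h14 : s' ≤ δ * b / 2)
    (h15 : (max θ θ⁻¹ * ∑ x, ∑ y, h * Jt j x y / 2) ≤ 1) :
    ev (confW (M := M) θ h Jt) (fun ω => cnt fun v => s1 ≤ len (GG M T j.val ω) v ∧
        len (GG M T (j.val + 1) ω) v < s') ≤
      Fintype.card V * ((2 + 1 / δ) * max θ θ⁻¹ * t * s' * (2 * s' * m + f) +
        Real.exp (-(t * κ * s1 * δ * b / (8 * max θ θ⁻¹)))) * ev (confW (M := M) θ h Jt) (fun _ => 1) +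
      ev (confW (M := M) θ h Jt) (fun ω => cnt fun v => s1 ≤ len (GG M T j.val ω) v ∧
        (cnt fun u => blk u = blk v ∧ s2 ≤ len (GG M T j.val ω) u) <
          2 * δ * cnt fun u => blk u = blk v) := by
  obtain ⟨c, hc⟩ := hsl V ι M T θ h Jt j blk hθ hh hJ hJd hsup
  have key := hst V (Fin M × Fin T) ι (max θ θ⁻¹) (confW (M := M) θ h Jt) (fun x y => h * Jt j x y / 2) blk M
    (fun i => (i, j)) _ c hc (one_le_max_inv hθ) s1 s2 s' δ (h * κ / 2) (h * m / 2) (h * f / 2) b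
    (fun x y => h * w2 x y / 2) h1 h2 h3 h4 h5 h6 (by positivity) (by positivity)
    (fun x y hxy hb => by
      have := mul_le_mul_of_nonneg_left (h9 x y hxy hb) hh
      linarith)
    (fun x y => by have := h10 x y; positivity)
    (fun x y => by
      have := mul_le_mul_of_nonneg_left (h11 x y) hh
      change h * Jt j x y / 2 ≤ h * m / 2 + h * w2 x y / 2
      linarith)
    (by
      have e : (∑ x, ∑ y, h * w2 x y / 2) = h / 2 * ∑ x, ∑ y, w2 x y := by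
        rw [Finset.mul_sum]; refine Finset.sum_congr rfl fun x _ => ?_
        rw [Finset.mul_sum]; exact Finset.sum_congr rfl fun y _ => by ring
      rw [e]
      have := mul_le_mul_of_nonneg_left h12 (by positivity : (0 : ℝ) ≤ h / 2)
      linarith)
    h13 h14 h15
  simp only [mask_zero, mask_top] at key
  refine key.trans (le_of_eq ?_)
  congr 2
  rw [← ht]
  have e1 : -(↑M * (h * κ / 2) * s1 * δ * b / (4 * max θ θ⁻¹)) =
      -(↑M * h * κ * s1 * δ * b / (8 * max θ θ⁻¹)) := by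
    have : max θ θ⁻¹ ≠ 0 := (lt_of_lt_of_le one_pos (one_le_max_inv hθ)).ne'
    field_simp
    ring
  rw [e1]
  ring

/-- Base stages: a mean-field stage which creates giants, and one which absorbs the rest. -/
theorem base (hsl : S_slot) (hst : S_stage) (hsg : S_giant) {ι : Type} [DecidableEq ι] {M T : ℕ}
    (θ h t : ℝ)
    (Jt : Fin T → V → V → ℝ) (j1 j2 : Fin T) (hj : j2.val = j1.val + 1) (blk : V → ι) (hθ : 0 < θ)
    (hh : 0 < h) (hM : 0 < M)
    (ht : M * h = t) (hJ : ∀ j x y, 0 ≤ Jt j x y) (hJd : ∀ j x, Jt j x x = 0)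
    (hsup : ∀ j' ≤ j2, ∀ x y, Jt j' x y ≠ 0 → blk x = blk y)
    (s κ b : ℝ) (h1 : 1 ≤ s) (hκ : 0 < κ) (hb : 0 < b)
    (h9 : ∀ x y, Jt j1 x y = if x ≠ y ∧ blk x = blk y then κ else 0)
    (h9' : ∀ x y, Jt j2 x y = if x ≠ y ∧ blk x = blk y then κ else 0)
    (h13 : ∀ v, b ≤ cnt fun u => blk u = blk v)
    (h14 : s ≤ b / (64 * (max θ θ⁻¹) ^ 2))
    (h15 : (max θ θ⁻¹ * ∑ x, ∑ y, h * Jt j1 x y / 2) ≤ 1)
    (h15' : (max θ θ⁻¹ * ∑ x, ∑ y, h * Jt j2 x y / 2) ≤ 1) :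
    ev (confW (M := M) θ h Jt) (fun ω => cnt fun v => len (GG M T (j2.val + 1) ω) v < s) ≤
      Fintype.card V * ((2 + 32 * (max θ θ⁻¹) ^ 2) * (2 * max θ θ⁻¹) * (t * κ) * s ^ 2 +
        (8 * max θ θ⁻¹ / (t * κ * b) + 32 * (max θ θ⁻¹) ^ 3 * (t * κ) * s ^ 2) +
        Real.exp (-(t * κ * b / (256 * (max θ θ⁻¹) ^ 3)))) * ev (confW (M := M) θ h Jt) (fun _ => 1) := by
  obtain ⟨Θ, hΘ⟩ : ∃ Θ, Θ = max θ θ⁻¹ := ⟨_, rfl⟩
  have hΘ1 : 1 ≤ Θ := by rw [hΘ]; exact one_le_max_inv hθ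
  have hΘ0 : 0 < Θ := by linarith
  have hs0 : 0 < s := by linarith
  rw [← hΘ] at h14 h15 h15' ⊢
  obtain ⟨c, hc⟩ := hsl V ι M T θ h Jt j1 blk hθ hh.le hJ hJd
    (fun j' hj' => hsup j' (by
      have : j'.val ≤ j1.val := hj'
      exact Fin.le_def.2 (by omega)))
  rw [← hΘ] at hc
  -- the giant stage
  have hδs : 1 / (8 * Θ ^ 2) + s / b ≤ 1 / (4 * Θ ^ 2) := by
    have : s / b ≤ 1 / (64 * Θ ^ 2) := by
      rw [div_le_div_iff₀ hb (by positivity)]
      rw [le_div_iff₀ (by positivity)] at h14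
      linarith
    have h2 : 1 / (64 * Θ ^ 2) ≤ 1 / (8 * Θ ^ 2) :=
      one_div_le_one_div_of_le (by positivity) (by nlinarith [sq_nonneg Θ])
    have h3 : 1 / (8 * Θ ^ 2) + 1 / (8 * Θ ^ 2) = 1 / (4 * Θ ^ 2) := by
      field_simp; norm_num
    linarith
  have key1 := hsg V (Fin M × Fin T) ι Θ (confW (M := M) θ h Jt) (fun x y => h * Jt j1 x y / 2) blk M
    (fun i => (i, j1)) _ c hc hΘ1 hM s (1 / (8 * Θ ^ 2)) (h * κ / 2) b hs0 (by positivity)
    (by positivity) hb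
    (fun x y => by
      change h * Jt j1 x y / 2 = _
      rw [h9]; split_ifs <;> ring)
    h13 hδs h15
  simp only [mask_top] at key1
  -- the absorption stage
  have key2 := growth hsl hst θ h t Jt j2 blk hθ hh.le ht hJ hJd hsup 1 s s (1 / (32 * Θ ^ 2)) κ κ 0
    b (fun _ _ => 0) one_pos h1 hs0 le_rfl (by linarith) (by positivity) hκ.le hκ.le
    (fun x y hxy hb' => by rw [h9', if_pos ⟨hxy, hb'⟩])
    (fun _ _ => le_rfl) (fun x y => by rw [h9']; split_ifs <;> linarith)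
    (by simp) h13 (by
      have : 1 / (32 * Θ ^ 2) * b / 2 = b / (64 * Θ ^ 2) := by field_simp; norm_num
      rw [this]; exact h14) (by rw [← hΘ]; exact h15')
  rw [← hΘ] at key2
  have hW : ∀ ω, 0 ≤ confW (M := M) θ h Jt ω := hc.W_nonneg
  have hZ : 0 ≤ ev (confW (M := M) θ h Jt) (fun _ => 1) := ev_nonneg hW fun _ => zero_le_one
  -- combine
  have e0 : ev (confW (M := M) θ h Jt) (fun ω => cnt fun v => len (GG M T (j2.val + 1) ω) v < s) ≤
      ev (confW (M := M) θ h Jt) (fun ω => cnt fun v => 1 ≤ len (GG M T j2.val ω) v ∧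
        len (GG M T (j2.val + 1) ω) v < s) :=
    ev_mono hW fun ω => cnt_mono fun v hv => ⟨one_le_len _ _, hv⟩
  have e1 : ev (confW (M := M) θ h Jt) (fun ω => cnt fun v => 1 ≤ len (GG M T j2.val ω) v ∧
        (cnt fun u => blk u = blk v ∧ s ≤ len (GG M T j2.val ω) u) <
          2 * (1 / (32 * Θ ^ 2)) * cnt fun u => blk u = blk v) ≤
      ev (confW (M := M) θ h Jt) (fun ω => cnt fun v =>
        (cnt fun u => blk u = blk v ∧ s ≤ len (GG M T (j1.val + 1) ω) u) <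
          1 / (8 * Θ ^ 2) / 2 * cnt fun u => blk u = blk v) := by
    refine ev_mono hW fun ω => cnt_mono fun v hv => ?_
    rw [hj] at hv
    have e : 2 * (1 / (32 * Θ ^ 2)) = 1 / (8 * Θ ^ 2) / 2 := by field_simp; norm_num
    rw [← e]; exact hv.2
  have e2 : t * κ * 1 * (1 / (32 * Θ ^ 2)) * b / (8 * Θ) = t * κ * b / (256 * Θ ^ 3) := by
    field_simp; ring
  rw [e2] at key2
  have e3 : (2 + 1 / (1 / (32 * Θ ^ 2))) * Θ * t * s * (2 * s * κ + 0) =
      (2 + 32 * Θ ^ 2) * (2 * Θ) * (t * κ) * s ^ 2 := by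
    rw [one_div_one_div]; ring
  rw [e3] at key2
  have hMh : (M : ℝ) * (h * κ / 2) * b = t * κ * b / 2 := by rw [← ht]; ring
  have ht0 : 0 < t := by rw [← ht]; have : (0 : ℝ) < M := by exact_mod_cast hM
                         positivity
  have e4 : (Fintype.card V : ℝ) * (4 * Θ / (M * (h * κ / 2) * b)) +
        2 / (1 / (8 * Θ ^ 2)) * (Θ * M * (2 * s) * (Fintype.card V * (2 * s * (h * κ / 2)))) =
      Fintype.card V * (8 * Θ / (t * κ * b) + 32 * Θ ^ 3 * (t * κ) * s ^ 2) := by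
    rw [hMh, ← ht]
    have hM' : (0 : ℝ) < M := by exact_mod_cast hM
    field_simp
    ring
  rw [e4] at key1
  calc ev (confW (M := M) θ h Jt) (fun ω => cnt fun v => len (GG M T (j2.val + 1) ω) v < s)
      ≤ _ := e0
    _ ≤ _ := key2
    _ ≤ (Fintype.card V * ((2 + 32 * Θ ^ 2) * (2 * Θ) * (t * κ) * s ^ 2 +
        Real.exp (-(t * κ * b / (256 * Θ ^ 3)))) * ev (confW (M := M) θ h Jt) (fun _ => 1)) +
        Fintype.card V * (8 * Θ / (t * κ * b) + 32 * Θ ^ 3 * (t * κ) * s ^ 2) *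
          ev (confW (M := M) θ h Jt) (fun _ => 1) := by
        have := e1.trans key1
        linarith
    _ = _ := by ring

/-- Growth stage, final form: the number of points in short cycles. -/
theorem growth' (hsl : S_slot) (hst : S_stage) {ι : Type} {M T : ℕ} (θ h t : ℝ)
    (Jt : Fin T → V → V → ℝ) (j : Fin T) (blk : V → ι) (hθ : 0 < θ) (hh : 0 ≤ h)
    (ht : M * h = t) (hJ : ∀ j x y, 0 ≤ Jt j x y) (hJd : ∀ j x, Jt j x x = 0)
    (hsup : ∀ j' ≤ j, ∀ x y, Jt j' x y ≠ 0 → blk x = blk y)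
    (hW : ∀ ω, 0 ≤ confW (M := M) θ h Jt ω)
    (s s' δ κ m f b : ℝ) (w2 : V → V → ℝ)
    (h1 : 0 < s) (h2 : s ≤ s') (h5 : s' ≤ 2 * s) (h6 : 0 < δ)
    (h7 : 0 ≤ κ) (h8 : 0 ≤ m) (h9 : ∀ x y, x ≠ y → blk x = blk y → κ ≤ Jt j x y)
    (h10 : ∀ x y, 0 ≤ w2 x y) (h11 : ∀ x y, Jt j x y ≤ m + w2 x y)
    (h12 : (∑ x, ∑ y, w2 x y) ≤ Fintype.card V * f)
    (h13 : ∀ v, b ≤ cnt fun u => blk u = blk v) (h14 : s' ≤ δ * b / 2)
    (h15 : (max θ θ⁻¹ * ∑ x, ∑ y, h * Jt j x y / 2) ≤ 1) :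
    ev (confW (M := M) θ h Jt) (fun ω => cnt fun v => len (GG M T (j.val + 1) ω) v < s') ≤
      ev (confW (M := M) θ h Jt) (fun ω => cnt fun v => len (GG M T j.val ω) v < s) +
      Fintype.card V * (2 * δ + (2 + 1 / δ) * max θ θ⁻¹ * t * s' * (2 * s' * m + f) +
        Real.exp (-(t * κ * s * δ * b / (8 * max θ θ⁻¹)))) * ev (confW (M := M) θ h Jt) (fun _ => 1) := by
  have key := growth hsl hst θ h t Jt j blk hθ hh ht hJ hJd hsup s s s' δ κ m f b w2 h1 h2 h1 h2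
    (by linarith) h6 h7 h8 h9 h10 h11 h12 h13 h14 h15
  have e1 : ev (confW (M := M) θ h Jt) (fun ω => cnt fun v => len (GG M T (j.val + 1) ω) v < s') ≤
      ev (confW (M := M) θ h Jt) (fun ω => cnt fun v => len (GG M T j.val ω) v < s) +
      ev (confW (M := M) θ h Jt) (fun ω => cnt fun v => s ≤ len (GG M T j.val ω) v ∧
        len (GG M T (j.val + 1) ω) v < s') := by
    rw [← ev_add]
    refine ev_mono hW fun ω => cnt_le_add fun v hv => ?_
    rcases lt_or_ge (len (GG M T j.val ω) v) s with h | h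
    · exact Or.inl h
    · exact Or.inr ⟨h, hv⟩
  have e2 : ev (confW (M := M) θ h Jt) (fun ω => cnt fun v => s ≤ len (GG M T j.val ω) v ∧
        (cnt fun u => blk u = blk v ∧ s ≤ len (GG M T j.val ω) u) <
          2 * δ * cnt fun u => blk u = blk v) ≤ 2 * δ * Fintype.card V *
        ev (confW (M := M) θ h Jt) (fun _ => 1) := by
    rw [← ev_const]
    exact ev_mono hW fun ω => nonrich_le blk (fun u => s ≤ len (GG M T j.val ω) u) δ h6.le
  calc _ ≤ _ := e1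
    _ ≤ _ := by
      have := key.trans (add_le_add_right e2 _)
      nlinarith [this]

end Pool.Agent.W805.LR
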