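import Pool.Agent.W805.LR.Stm2

/-!
# Poisson-Dirichlet cycle lengths for random stirring: statements of the parts
-/

set_option autoImplicit false

namespace Pool.Agent.W805.PD

open Finset Equiv Filter Topology
open Pool.Agent.W805.LR

/-! ## Traces -/

section trace

variable {V : Type} [Fintype V] [DecidableEq V]

/-- Remove the point `a` from its cycle (afterwards `a` is a fixed point). -/
def rem (h : Perm V) (a : V) : Perm V := swap a (h a) * h

/-- The trace of `h` on `A`: all points outside `A` are removed from their cycles. -/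
noncomputable def tr (h : Perm V) (A : Finset V) : Perm V := (Aᶜ).toList.foldl rem h

/-- TR: basic facts about removal and traces. -/
def S_tr : Prop := ∀ (V : Type) [Fintype V] [DecidableEq V],
  (∀ (h : Perm V) (a b : V), rem (rem h a) b = rem (rem h b) a) ∧
  (∀ (h s : Perm V) (a : V), s a = a → rem (s * h) a = s * rem h a) ∧
  (∀ (h : Perm V) (a x y : V), x ≠ a → y ≠ a → ((rem h a).SameCycle x y ↔ h.SameCycle x y)) ∧
  (∀ (h : Perm V) (A : Finset V), (∀ x, x ∉ A → h x = x) → tr h A = h) ∧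
  (∀ (h : Perm V) (A : Finset V) (x : V), x ∉ A → tr h A x = x) ∧
  (∀ (h s : Perm V) (A : Finset V), (∀ x, x ∉ A → s x = x) → tr (s * h) A = s * tr h A) ∧
  (∀ (h : Perm V) (A : Finset V) (a : V), tr h (A.erase a) = rem (tr h A) a) ∧
  (∀ (h : Perm V) (A B : Finset V), A ⊆ B → tr (tr h B) A = tr h A) ∧
  (∀ (h : Perm V) (A : Finset V) (x y : V), x ∈ A → y ∈ A →
    ((tr h A).SameCycle x y ↔ h.SameCycle x y))

end trace

/-! ## Matchings -/

section matching

variable {V : Type} [Fintype V] [DecidableEq V]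

/-- The involutions that move exactly the points of `E`. -/
def matchings (E : Finset V) : Finset (Perm V) :=
  univ.filter fun α => α * α = 1 ∧ α.support = E

/-- Average over all matchings of `E`. -/
noncomputable def avgM (E : Finset V) (F : Perm V → ℝ) : ℝ :=
  (∑ α ∈ matchings E, F α) / (matchings E).card

/-- Average over all elements of a finite type. -/
noncomputable def uavg {A : Type} [Fintype A] (F : A → ℝ) : ℝ := (∑ a, F a) / Fintype.card A

/-- Product of swaps. -/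
def prodSw {K : ℕ} (x : Fin K → V × V) : Perm V := (List.ofFn fun i => swap (x i).1 (x i).2).prod

end matching

/-- MA: averages over matchings: recursion, and uniform random pairs give a uniform matching. -/
def S_match : Prop :=
  (∀ (V : Type) [Fintype V] [DecidableEq V] (E : Finset V), Even E.card →
    (matchings E).Nonempty) ∧
  (∀ (V : Type) [Fintype V] [DecidableEq V] (F : Perm V → ℝ), avgM (∅ : Finset V) F = F 1) ∧
  (∀ (V : Type) [Fintype V] [DecidableEq V] (E : Finset V) (e : V) (F : Perm V → ℝ),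
    Even E.card → e ∈ E →
    avgM E F = (∑ s ∈ E.erase e, avgM ((E.erase e).erase s) fun α => F (swap e s * α)) /
      ((E.card : ℝ) - 1)) ∧
  (∀ (V : Type) [Fintype V] [DecidableEq V] (K : ℕ) (y : Fin K × Bool → V) (F : Perm V → ℝ),
    Function.Injective y →
    uavg (fun π : Perm (Fin K × Bool) =>
      F (prodSw fun i => (y (π (i, false)), y (π (i, true))))) = avgM (univ.image y) F)

/-! ## The core estimate -/

section core

variable {V : Type} [Fintype V] [DecidableEq V]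

/-- Probability that the trace on `S` is `σ` after composition with a uniform matching of `E`. -/
noncomputable def favg (ρ : Perm V) (E S : Finset V) (σ : Perm V) : ℝ :=
  avgM E fun α => if tr (α * ρ) S = σ then 1 else 0

/-- Number of active points in short cycles that do not meet `S`. -/
def Wc (ρ : Perm V) (E S : Finset V) : ℕ := (E.filter fun x => ρ (ρ x) = x ∧ ρ x ∉ S).card

/-- `2 ^ (- number of active points between a and the next point of S)`. -/
noncomputable def Ua (ρ : Perm V) (S : Finset V) (a : V) : ℝ :=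
  (1 / 2) ^ (sInf {k : ℕ | 1 ≤ k ∧ (ρ ^ k) a ∈ S} - 1)

/-- One step of the exploration: `e` is matched with `s`, both are removed. -/
def stepP (ρ : Perm V) (e s : V) : Perm V := rem (rem (swap e s * ρ) e) s

end core

/-- CO: the core estimate: after a uniform matching of many active points the trace on `S` is almost
uniform, if there are few short cycles outside `S`. -/
def S_core : Prop := ∀ m : ℕ, ∃ C : ℝ, 0 < C ∧ ∀ (V : Type) [Fintype V] [DecidableEq V]
  (ρ : Perm V) (E S : Finset V) (σ : Perm V), Disjoint E S → S.card = m → Even E.card →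
  E.Nonempty → (∀ x, x ∉ E → x ∉ S → ρ x = x) → (∀ x, x ∉ S → σ x = x) → (∀ x ∈ S, ρ x ∉ S) →
  |favg ρ E S σ - 1 / (m.factorial : ℝ)| ≤
    C / Real.sqrt E.card + C * (1 + Wc ρ E S) / E.card

/-- CL: local facts about one step of the exploration. Here `e = ρ a`. -/
def S_local : Prop := ∀ (V : Type) [Fintype V] [DecidableEq V] (ρ : Perm V) (E S : Finset V) (a : V),
  Disjoint E S → (∀ x, x ∉ E → x ∉ S → ρ x = x) → a ∈ S → (∀ x ∈ S, ρ x ∉ S) →
  -- the support
  (∀ s ∈ E.erase (ρ a), ∀ x, x ∉ (E.erase (ρ a)).erase s → x ∉ S → stepP ρ (ρ a) s x = x) ∧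
  -- the number of short cycles
  (∑ s ∈ E.erase (ρ a), (Wc (stepP ρ (ρ a) s) ((E.erase (ρ a)).erase s) S : ℝ) + Wc ρ E S ≤
    ((E.card : ℝ) - 1) * Wc ρ E S + 3) ∧
  (∀ s ∈ E.erase (ρ a), Wc (stepP ρ (ρ a) s) ((E.erase (ρ a)).erase s) S ≤ Wc ρ E S + 2) ∧
  (((E.erase (ρ a)).filter fun s =>
    Wc ρ E S < Wc (stepP ρ (ρ a) s) ((E.erase (ρ a)).erase s) S).card ≤ 2) ∧
  (∀ s ∈ E.erase (ρ a), ρ s ∈ S →
    Wc ρ E S ≤ Wc (stepP ρ (ρ a) s) ((E.erase (ρ a)).erase s) S) ∧
  -- the distance to the next point of `S`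
  (∑ s ∈ (E.erase (ρ a)).filter (fun s => stepP ρ (ρ a) s a ∉ S), Ua (stepP ρ (ρ a) s) S a ≤
    S.card + 2 * Ua ρ S a * Wc ρ E S + Ua ρ S a * E.card / 2) ∧
  Ua ρ S a ≤ 1 / 2 ∧
  (Ua ρ S a = 1 / 2 ↔ ρ (ρ a) ∈ S) ∧
  -- hitting `S`
  (ρ (ρ a) ∉ S → ∀ s ∈ E.erase (ρ a), (stepP ρ (ρ a) s a ∈ S ↔ ρ s ∈ S)) ∧
  (ρ (ρ a) ∉ S → ∀ s ∈ E.erase (ρ a), ρ s ∈ S → stepP ρ (ρ a) s a = ρ s) ∧
  (ρ (ρ a) ∉ S → ∀ y ∈ S, ∃ s ∈ E.erase (ρ a), ρ s = y) ∧
  (((E.erase (ρ a)).filter fun s => stepP ρ (ρ a) s a ∈ S).card ≤ S.card + Wc ρ E S) ∧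
  -- other new adjacencies
  (ρ (ρ a) ∉ S → ∀ s ∈ E.erase (ρ a), ∀ x ∈ S, x ≠ a → stepP ρ (ρ a) s x ∉ S) ∧
  (((E.erase (ρ a)).filter fun s => ∃ x ∈ S, x ≠ a ∧ stepP ρ (ρ a) s x ∈ S).card ≤ S.card)

/-- CR: recursion for `favg`. -/
def S_rec : Prop := ∀ (V : Type) [Fintype V] [DecidableEq V] (ρ : Perm V) (E S : Finset V)
  (σ : Perm V), Disjoint E S → Even E.card → (∀ x, x ∉ E → x ∉ S → ρ x = x) →
  (∀ x, x ∉ S → σ x = x) →
  (0 ≤ favg ρ E S σ ∧ favg ρ E S σ ≤ 1) ∧
  -- exploration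
  (∀ e ∈ E, favg ρ E S σ = (∑ s ∈ E.erase e, favg (stepP ρ e s) ((E.erase e).erase s) S σ) /
    ((E.card : ℝ) - 1)) ∧
  -- contraction
  (∀ a ∈ S, ρ a ∈ S → favg ρ E S σ =
    if σ a = ρ a then favg (rem ρ a) E (S.erase a) (rem σ a) else 0) ∧
  (∀ a ∈ S, ρ a ∈ S → (∀ x ∈ S, x ≠ a → ρ x ∉ S) →
    (∀ x ∈ S.erase a, rem ρ a x ∉ S.erase a) ∧ Wc (rem ρ a) E (S.erase a) ≤ Wc ρ E S) ∧
  (∀ a ∈ S, ∀ x, x ∉ S.erase a → rem σ a x = x) ∧
  (∀ a ∈ S, ρ a ∈ S → ∀ x, x ∉ E → x ∉ S.erase a → rem ρ a x = x)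

/-! ## Fixed points and random positions -/

/-- Size of the cycle through `v` relative to the number of points. -/
noncomputable def pc {V : Type} [Fintype V] [DecidableEq V] (h : Perm V) (v : V) : ℝ :=
  len h v / Fintype.card V

/-- Mass near the scale `1 / K`. -/
noncomputable def zeta {V : Type} [Fintype V] [DecidableEq V] (h : Perm V) (K : ℕ) : ℝ :=
  uavg fun v => min (1 / (K * pc h v)) (K * pc h v)

/-- DU: the points of `D` are fixed by `ρ`. Then only the pairs outside `D` matter: the trace of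
`α * ρ` on `S` is the trace for the restriction of `α` to the set `E1` of points of `E` outside `D`
whose partner is outside `D`. Given `E1` the restriction is a uniform matching of `E1`. -/
def S_dust : Prop := ∀ (V : Type) [Fintype V] [DecidableEq V] (ρ : Perm V) (E S D : Finset V)
  (F : Perm V → ℝ), Disjoint E S → D ⊆ E → (∀ x, x ∉ E → x ∉ S → ρ x = x) →
  (∀ x ∈ D, ρ x = x) → Even E.card →
  (avgM E (fun α => F (tr (α * ρ) S)) =
    avgM E (fun α => avgM ((E \ D).filter fun x => α x ∉ D)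
      fun β => F (tr (β * tr ρ (((E \ D).filter fun x => α x ∉ D) ∪ S)) S))) ∧
  (∀ α ∈ matchings E, Even ((E \ D).filter fun x => α x ∉ D).card)

/-- DT: tail estimates for `E1`. -/
def S_tail : Prop := ∀ (V : Type) [Fintype V] [DecidableEq V] (E D : Finset V),
  D ⊆ E → Even E.card →
  (∀ (r : ℕ) (Q : Finset V) (q : ℝ), Q ⊆ E \ D → Q.card = r → 0 ≤ q → q ≤ 1 →
    (D.card : ℝ) ≤ q * ((E.card : ℝ) - 1 - 2 * r) →
    avgM E (fun α => if ∀ x ∈ Q, α x ∈ D then 1 else 0) ≤ q ^ r) ∧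
  (∀ η : ℝ, 0 < η → η ≤ 1 → (D.card : ℝ) ≤ (1 - η) * E.card → 8 / η ^ 2 ≤ E.card →
    avgM E (fun α => if (((E \ D).filter fun x => α x ∉ D).card : ℝ) < η ^ 2 * E.card / 4
      then 1 else 0) ≤ 64 / (η ^ 4 * E.card))

section sample

variable {V : Type} [Fintype V] [DecidableEq V]

/-- The relation of lying in the same cycle on sampled points. -/
def rel {m : ℕ} (h : Perm V) (v : Fin m → V) : Fin m → Fin m → Prop :=
  fun i j => h.SameCycle (v i) (v j)

/-- Average over the permutations of `Fin m` that fix all points outside `A`. -/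
noncomputable def pavg {m : ℕ} (A : Finset (Fin m)) (G : (Fin m → Fin m → Prop) → ℝ) : ℝ :=
  (∑ σ ∈ (univ : Finset (Perm (Fin m))).filter (fun σ => ∀ i, i ∉ A → σ i = i),
    G fun i j => σ.SameCycle i j) / (A.card.factorial : ℝ)

/-- The sampled points in cycles with at least `n / K` points. -/
noncomputable def big {m : ℕ} (h : Perm V) (K : ℕ) (v : Fin m → V) : Finset (Fin m) :=
  univ.filter fun i => 1 ≤ K * pc h (v i)

end sample

/-- FX: for a fixed permutation `h`, after `K` uniform random transpositions. -/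
def S_fix : Prop := ∀ (m : ℕ) (δ : ℝ), 0 < δ → ∃ (K0 : ℕ) (C : ℝ), 0 < C ∧ ∀ K : ℕ, K0 ≤ K →
  ∃ n0 : ℕ, ∀ (V : Type) [Fintype V] [DecidableEq V] (h : Perm V)
    (G : (Fin m → Fin m → Prop) → ℝ), n0 ≤ Fintype.card V → (∀ r, |G r| ≤ 1) →
    |uavg (fun x : Fin K → V × V => uavg fun v : Fin m → V => G (rel (prodSw x * h) v)) -
      uavg (fun v : Fin m → V => pavg (big h K v) G)| ≤ δ + C * zeta h K

/-- IV: the law of stirring is almost invariant under uniform random transpositions. -/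
def S_inv : Prop := ∀ (V : Type) [Fintype V] [DecidableEq V] [Nonempty V] (J : V → V → ℝ) (t κ : ℝ)
  (K : ℕ)
  (F : Perm V → ℝ), (∀ x y, 0 ≤ J x y) → 0 < t → 0 < κ → (∀ g, |F g| ≤ 1) →
  |∑ g, stirMass (fun x y => J x y + if x ≠ y then κ else 0) t g * F g -
    ∑ g, stirMass (fun x y => J x y + if x ≠ y then κ else 0) t g *
      uavg (fun x : Fin K → V × V => F (prodSw x * g))| ≤
  K / Real.sqrt (t * κ * (Fintype.card V : ℝ) ^ 2 / 2) *
    ∑ g, stirMass (fun x y => J x y + if x ≠ y then κ else 0) t g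

/-- PH: the pigeonhole for the scales. -/
def S_pigeon : Prop := ∀ (I i0 : ℕ) (V : Type) [Fintype V] [DecidableEq V] (P : Perm V → ℝ),
  0 < I → (∀ g, 0 ≤ P g) → ∃ i, i0 ≤ i ∧ i < i0 + I ∧
    ∑ g, P g * zeta g (2 ^ i) ≤ 3 / I * ∑ g, P g

/-- TL: the trace law of stirring. -/
def S_trace : Prop := ∀ (d : ℕ) (σ lam t0 : ℝ) (m : ℕ) (δ : ℝ), 1 ≤ d → 0 < σ → σ < d → 0 < lam →
  0 < t0 → 0 < δ → ∃ K1 L0 : ℕ, ∀ t ≥ t0, ∀ (L : ℕ) [NeZero L], L0 ≤ L →
  ∀ J : (Fin d → ZMod L) → (Fin d → ZMod L) → ℝ, IsRate2 d L σ lam J →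
    ∃ K : ℕ, 1 / δ ≤ K ∧ K ≤ K1 ∧ ∀ G : (Fin m → Fin m → Prop) → ℝ, (∀ r, |G r| ≤ 1) →
      |∑ g, stirMass J t g * uavg (fun v : Fin m → (Fin d → ZMod L) => G (rel g v)) -
        ∑ g, stirMass J t g * uavg (fun v : Fin m → (Fin d → ZMod L) => pavg (big g K v) G)| ≤
      δ * ∑ g, stirMass J t g

/-! ## Poisson-Dirichlet -/

/-- The `i`-th longest cycle (`i = 0, 1, ...`) divided by the number of points. -/
noncomputable def pOrd {V : Type} [Fintype V] [DecidableEq V] (g : Perm V) (i : ℕ) : ℝ :=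
  sSup {x : ℝ | i + 1 ≤ Multiset.card
    (g.partition.parts.filter fun c : ℕ => x ≤ (c : ℝ) / Fintype.card V)}

/-- The `i`-th largest class of an equivalence relation on `Fin m`, divided by `m`: largest `x` such
that there are `i + 1` inequivalent points with classes of size at least `x m`. -/
noncomputable def rOrd {m : ℕ} (r : Fin m → Fin m → Prop) (i : ℕ) : ℝ :=
  sSup {x : ℝ | 0 ≤ x ∧ (x = 0 ∨ ∃ f : Fin (i + 1) → Fin m, (∀ a b, a ≠ b → ¬ r (f a) (f b)) ∧
    ∀ a, x ≤ (cnt fun j => r (f a) j) / m)}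

/-- Expectation of `f` of the `k` largest coordinates of `M` times a Poisson-Dirichlet(1) vector
(stick breaking). -/
noncomputable def pdInt (k : ℕ) (f : (Fin k → ℝ) → ℝ) (M : ℝ) : ℝ :=
  ∫ U, f (fun i : Fin k => M * sSup {x : ℝ | (((i : ℕ) + 1 : ℕ) : ℕ∞) ≤
    Set.encard {j : ℕ | x ≤ (U j : ℝ) * ∏ l ∈ Finset.range j, (1 - (U l : ℝ))}})
    ∂(MeasureTheory.Measure.infinitePi
      (fun _ : ℕ => (MeasureTheory.volume : MeasureTheory.Measure unitInterval)))

/-- P1: ordered cycle lengths can be read off from large samples. -/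
def S_samp : Prop := ∀ (k : ℕ) (f : (Fin k → ℝ) → ℝ) (δ : ℝ), Continuous f → 0 < δ →
  ∃ m0 : ℕ, ∀ m ≥ m0, ∀ (V : Type) [Fintype V] [DecidableEq V] [Nonempty V] (g : Perm V),
    |f (fun i : Fin k => pOrd g i) - uavg fun v : Fin m → V => f fun i : Fin k => rOrd (rel g v) i| ≤ δ

/-- P2: uniform permutations have Poisson-Dirichlet cycle lengths. -/
def S_unif : Prop := ∀ (k : ℕ) (f : (Fin k → ℝ) → ℝ) (δ : ℝ), Continuous f → 0 < δ →
  ∃ m0 : ℕ, ∀ m ≥ m0, ∀ A : Finset (Fin m),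
    |pavg A (fun r => f fun i : Fin k => rOrd r i) - pdInt k f (A.card / m)| ≤ δ

/-- P3: averaging over the sample. -/
def S_mass : Prop := ∀ (k : ℕ) (f : (Fin k → ℝ) → ℝ) (δ : ℝ), Continuous f → 0 < δ →
  ∃ m0 : ℕ, ∀ m ≥ m0, ∀ (V : Type) [Fintype V] [DecidableEq V] [Nonempty V] (g : Perm V) (K : ℕ),
    |uavg (fun v : Fin m → V => pdInt k f ((big g K v).card / m)) -
      pdInt k f (uavg fun v : V => if 1 ≤ K * pc g v then 1 else 0)| ≤ δ

end Pool.Agent.W805.PD
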