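import Pool.Agent.W805.LR.Types
import Pool.Agent.W805.LR.Steps
import Pool.Agent.W805.LR.Stm2

set_option autoImplicit false

namespace Pool.Agent.W805.LR

open Finset Equiv Filter Topology

section steps

variable {V : Type} [Fintype V] [DecidableEq V]

/-- Growth stage in terms of rates, second version. -/
theorem growth2 (hsl : S_slot) (hst : S_stage2) {ι : Type} [DecidableEq ι] {M T : ℕ} (θ h t : ℝ)
    (Jt : Fin T → V → V → ℝ) (j : Fin T) (blk : V → ι) (hθ : 0 < θ) (hh : 0 ≤ h)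
    (ht : M * h = t) (hJ : ∀ j x y, 0 ≤ Jt j x y) (hJd : ∀ j x, Jt j x x = 0)
    (s s' δ κ b : ℝ)
    (h1 : 0 < s) (h2 : s ≤ s') (h5 : s' ≤ 2 * s) (h6 : 0 < δ)
    (h7 : 0 ≤ κ) (h9 : ∀ x y, Jt j x y = if x ≠ y ∧ blk x = blk y then κ else 0)
    (h13 : ∀ v, b ≤ cnt fun u => blk u = blk v) (h14 : s' ≤ δ * b / 2)
    (h15 : (max θ θ⁻¹ * ∑ x, ∑ y, h * Jt j x y / 2) ≤ 1) :
    ev (confW (M := M) θ h Jt) (fun ω => cnt fun v => len (GG M T (j.val + 1) ω) v < s') ≤
      ev (confW (M := M) θ h Jt) (fun ω => cnt fun v => len (GG M T j.val ω) v < s) +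
      Fintype.card V * (2 * δ + Real.exp (-(t * κ * s * δ * b / (16 * max θ θ⁻¹))) +
        4 * max θ θ⁻¹ * (t * κ) * s' ^ 2) * ev (confW (M := M) θ h Jt) (fun _ => 1) := by
  obtain ⟨c, hc⟩ := hsl V Unit M T θ h Jt j (fun _ => ()) hθ hh hJ hJd (fun _ _ _ _ _ => rfl)
  have hW : ∀ ω : Fin M × Fin T → Option (V × V), 0 ≤ confW (M := M) θ h Jt ω := hc.W_nonneg
  have key := hst V (Fin M × Fin T) ι (max θ θ⁻¹) (confW (M := M) θ h Jt)
    (fun x y => h * Jt j x y / 2) blk M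
    (fun i => (i, j)) _ c hc (one_le_max_inv hθ) s s' δ (h * κ / 2) b h1 h2 h5 h6 (by positivity)
    (fun x y => by
      change h * Jt j x y / 2 = _
      rw [h9]; split_ifs <;> ring) h13 h14 h15
  simp only [mask_zero, mask_top] at key
  have e1 : ev (confW (M := M) θ h Jt) (fun ω => cnt fun v => len (GG M T (j.val + 1) ω) v < s') ≤
      ev (confW (M := M) θ h Jt) (fun ω => cnt fun v => len (GG M T j.val ω) v < s) +
      ev (confW (M := M) θ h Jt) (fun ω => cnt fun v => s ≤ len (GG M T j.val ω) v ∧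
        len (GG M T (j.val + 1) ω) v < s') := by
    rw [← ev_add]
    refine ev_mono hW fun ω => cnt_le_add fun v hv => ?_
    rcases lt_or_ge (len (GG M T j.val ω) v) s with h | h
    · exact Or.inl h
    · exact Or.inr ⟨h, hv⟩
  have hΘ : max θ θ⁻¹ ≠ 0 := (lt_of_lt_of_le one_pos (one_le_max_inv hθ)).ne'
  have e3 : -(↑M * (h * κ / 2) * s * δ * b / (8 * max θ θ⁻¹)) =
      -(t * κ * s * δ * b / (16 * max θ θ⁻¹)) := by
    rw [← ht]; field_simp; ring
  have e4 : 8 * max θ θ⁻¹ * M * (h * κ / 2) * s' ^ 2 = 4 * max θ θ⁻¹ * (t * κ) * s' ^ 2 := by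
    rw [← ht]; ring
  rw [e3, e4] at key
  linarith

/-- Base stage in terms of rates, second version. -/
theorem base2 (hsl : S_slot) (hsb : S_base2) {ι : Type} [DecidableEq ι] {M T : ℕ} (θ h t : ℝ)
    (Jt : Fin T → V → V → ℝ) (j : Fin T) (blk : V → ι) (hθ : 0 < θ) (hh : 0 < h) (hM : 0 < M)
    (ht : M * h = t) (hJ : ∀ j x y, 0 ≤ Jt j x y) (hJd : ∀ j x, Jt j x x = 0)
    (s κ b : ℝ) (h1 : 0 < s) (hκ : 0 < κ) (hb : 0 < b) (hsb' : 2 * s ≤ b)
    (h9 : ∀ x y, Jt j x y = if x ≠ y ∧ blk x = blk y then κ else 0)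
    (h13 : ∀ v, b ≤ cnt fun u => blk u = blk v)
    (h15 : (max θ θ⁻¹ * ∑ x, ∑ y, h * Jt j x y / 2) ≤ 1) :
    ev (confW (M := M) θ h Jt) (fun ω => cnt fun v => len (GG M T (j.val + 1) ω) v < s) ≤
      Fintype.card V * (8 * max θ θ⁻¹ / (t * κ * b) + 20 * (max θ θ⁻¹) ^ 2 * s / b +
        2 * max θ θ⁻¹ * (t * κ) * s ^ 2) * ev (confW (M := M) θ h Jt) (fun _ => 1) := by
  obtain ⟨c, hc⟩ := hsl V Unit M T θ h Jt j (fun _ => ()) hθ hh.le hJ hJd (fun _ _ _ _ _ => rfl)
  have key := hsb V (Fin M × Fin T) ι (max θ θ⁻¹) (confW (M := M) θ h Jt)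
    (fun x y => h * Jt j x y / 2) blk M
    (fun i => (i, j)) _ c hc (one_le_max_inv hθ) hM s (h * κ / 2) b h1 (by positivity) hb hsb'
    (fun x y => by
      change h * Jt j x y / 2 = _
      rw [h9]; split_ifs <;> ring) h13 h15
  simp only [mask_top] at key
  refine key.trans (le_of_eq ?_)
  have hM' : (0 : ℝ) < M := by exact_mod_cast hM
  have e3 : 4 * max θ θ⁻¹ / (M * (h * κ / 2) * b) = 8 * max θ θ⁻¹ / (t * κ * b) := by
    rw [← ht]; field_simp; ring
  have e4 : 4 * max θ θ⁻¹ * M * (h * κ / 2) * s ^ 2 = 2 * max θ θ⁻¹ * (t * κ) * s ^ 2 := by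
    rw [← ht]; ring
  rw [e3, e4]

end steps

section types2

variable {d L : ℕ} [NeZero L]

lemma bdist_pos {x y : Fin d → ZMod L} (h : x ≠ y) : 1 ≤ bdist x y := by
  obtain ⟨a, ha⟩ := Function.ne_iff.1 h
  have h1 : 1 ≤ (((x a).val : ℤ) - (y a).val).natAbs := by
    rw [Nat.one_le_iff_ne_zero, Int.natAbs_ne_zero, sub_ne_zero]
    intro h2
    exact ha (ZMod.val_injective L (by exact_mod_cast h2))
  exact h1.trans (Finset.le_sup (f := fun a => (((x a).val : ℤ) - (y a).val).natAbs)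
    (Finset.mem_univ a))

lemma bdist_le {i : ℕ} {x y : Fin d → ZMod L} (h : tblk i x = tblk i y) :
    (bdist x y : ℝ) ≤ (L : ℝ) / 2 ^ i := by
  have hL : 0 < L := Nat.pos_of_ne_zero (NeZero.ne L)
  rw [le_div_iff₀ (by positivity)]
  have key : ∀ a, (((x a).val : ℤ) - (y a).val).natAbs * 2 ^ i ≤ L := by
    intro a
    have h1 : (x a).val * 2 ^ i / L = (y a).val * 2 ^ i / L := congrFun h a
    have h2 := Nat.div_add_mod ((x a).val * 2 ^ i) L
    have h3 := Nat.div_add_mod ((y a).val * 2 ^ i) L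
    have h4 := Nat.mod_lt ((x a).val * 2 ^ i) hL
    have h5 := Nat.mod_lt ((y a).val * 2 ^ i) hL
    rw [h1] at h2
    have h6 : (((x a).val : ℤ) - (y a).val) * 2 ^ i =
        (((x a).val * 2 ^ i % L : ℕ) : ℤ) - (((y a).val * 2 ^ i % L : ℕ) : ℤ) := by
      have e2 : (((x a).val * 2 ^ i : ℕ) : ℤ) = ((L * ((y a).val * 2 ^ i / L) : ℕ) : ℤ) +
        (((x a).val * 2 ^ i % L : ℕ) : ℤ) := by exact_mod_cast h2.symm
      have e3 : (((y a).val * 2 ^ i : ℕ) : ℤ) = ((L * ((y a).val * 2 ^ i / L) : ℕ) : ℤ) +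
        (((y a).val * 2 ^ i % L : ℕ) : ℤ) := by exact_mod_cast h3.symm
      push_cast at e2 e3 ⊢
      linarith
    have h7 : (((x a).val : ℤ) - (y a).val).natAbs * 2 ^ i =
        ((((x a).val : ℤ) - (y a).val) * 2 ^ i).natAbs := by
      rw [Int.natAbs_mul]; congr 1
    rw [h7, h6]
    omega
  have h8 : bdist x y * 2 ^ i ≤ L := by
    unfold bdist
    rcases (Finset.univ : Finset (Fin d)).eq_empty_or_nonempty with he | hne
    · rw [he]; simp
    · obtain ⟨a, _, ha⟩ := Finset.exists_mem_eq_sup _ hne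
        (fun a => (((x a).val : ℤ) - (y a).val).natAbs)
      rw [ha]; exact key a
  exact_mod_cast h8

/-- The mean-field part is dominated by the kernel. -/
lemma MF_le2 (I Wn : ℕ) (lam p : ℝ) (κw : ℕ → ℝ) (hlam : 0 < lam)
    (hp : 1 ≤ p)
    (h0 : ∀ x y : Fin d → ZMod L, tblk 0 x = tblk 0 y)
    (hw : ∑ m ∈ range Wn, κw m ≤ lam / 2 * (L : ℝ) ^ (-p))
    (x y : Fin d → ZMod L) (hxy : 1 ≤ bdist x y) :
    MF I Wn (lam / 8 * ((L : ℝ) / 2 ^ I) ^ (-p)) (fun i => lam / 4 * ((L : ℝ) / 2 ^ i) ^ (-p)) κw x y ≤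
      lam * (bdist x y : ℝ) ^ (-p) := by
  have hL : (0 : ℝ) < L := by exact_mod_cast Nat.pos_of_ne_zero (NeZero.ne L)
  have hD : (0 : ℝ) < bdist x y := by exact_mod_cast hxy
  have key : ∀ n ≤ I, ∑ i ∈ range (n + 1),
      (if tblk i x = tblk i y then ((L : ℝ) / 2 ^ i) ^ (-p) else 0) ≤
        2 * (bdist x y : ℝ) ^ (-p) := by
    intro n
    induction n with
    | zero =>
      intro _
      rw [zero_add, Finset.sum_range_one, if_pos (h0 x y), pow_zero, div_one]
      have h1 := bdist_le (h0 x y)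
      rw [pow_zero, div_one] at h1
      have h2 := Real.rpow_le_rpow_of_nonpos hD h1 (by linarith : -p ≤ 0)
      have : 0 ≤ (bdist x y : ℝ) ^ (-p) := by positivity
      linarith
    | succ n ih =>
      intro hn
      by_cases h : tblk (n + 1) x = tblk (n + 1) y
      · have h1 := bdist_le h
        have h2 := Real.rpow_le_rpow_of_nonpos hD h1 (by linarith : -p ≤ 0)
        calc ∑ i ∈ range (n + 1 + 1),
              (if tblk i x = tblk i y then ((L : ℝ) / 2 ^ i) ^ (-p) else 0)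
            ≤ ∑ i ∈ range (n + 1 + 1), ((L : ℝ) / 2 ^ i) ^ (-p) := by
              refine Finset.sum_le_sum fun i _ => ?_
              split_ifs
              · exact le_rfl
              · positivity
          _ ≤ 2 * ((L : ℝ) / 2 ^ (n + 1)) ^ (-p) := geom_pow hL hp (n + 1)
          _ ≤ _ := by linarith
      · rw [Finset.sum_range_succ, if_neg h, add_zero]
        exact ih (by omega)
  have k1 := key I le_rfl
  rw [Finset.sum_range_succ] at k1
  have k2 : (L : ℝ) ^ (-p) ≤ (bdist x y : ℝ) ^ (-p) := by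
    have h1 := bdist_le (h0 x y)
    rw [pow_zero, div_one] at h1
    exact Real.rpow_le_rpow_of_nonpos hD h1 (by linarith : -p ≤ 0)
  unfold MF
  have e1 : ∑ i ∈ range I, (if tblk i x = tblk i y then lam / 4 * ((L : ℝ) / 2 ^ i) ^ (-p) else 0) =
      lam / 4 * ∑ i ∈ range I, (if tblk i x = tblk i y then ((L : ℝ) / 2 ^ i) ^ (-p) else 0) := by
    rw [Finset.mul_sum]
    exact Finset.sum_congr rfl fun i _ => by split_ifs <;> ring
  have e2 : (if tblk I x = tblk I y then 2 * (lam / 8 * ((L : ℝ) / 2 ^ I) ^ (-p)) else 0) =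
      lam / 4 * (if tblk I x = tblk I y then ((L : ℝ) / 2 ^ I) ^ (-p) else 0) := by
    split_ifs <;> ring
  rw [e1, e2]
  have k3 := mul_le_mul_of_nonneg_left k1 (by positivity : (0 : ℝ) ≤ lam / 4)
  have k4 := mul_le_mul_of_nonneg_left k2 (by positivity : (0 : ℝ) ≤ lam / 2)
  nlinarith [k3, k4, hw]

/-- All types, second version (`κ0` is half the base rate). -/
noncomputable def JT2 (J : (Fin d → ZMod L) → (Fin d → ZMod L) → ℝ) (I Wn : ℕ) (κ0 : ℝ)
    (κl κw : ℕ → ℝ) (k : ℕ) (x y : Fin d → ZMod L) : ℝ :=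
  if k = 0 then RR J I Wn κ0 κl κw x y
  else if k = 1 then (if x ≠ y ∧ tblk I x = tblk I y then 2 * κ0 else 0)
  else if k < 2 + d * I then
    (if x ≠ y ∧ tblk (I - 1 - (k - 2) / d) x = tblk (I - 1 - (k - 2) / d) y
      then κl (I - 1 - (k - 2) / d) / d else 0)
  else (if x ≠ y ∧ () = () then κw (Wn - 1 - (k - 2 - d * I)) else 0)

variable (J : (Fin d → ZMod L) → (Fin d → ZMod L) → ℝ) (I Wn : ℕ) (κ0 : ℝ) (κl κw : ℕ → ℝ)

lemma JT2_one (x y : Fin d → ZMod L) :
    JT2 J I Wn κ0 κl κw 1 x y = if x ≠ y ∧ tblk I x = tblk I y then 2 * κ0 else 0 := by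
  simp [JT2]

lemma JT2_level (k : ℕ) (hk : k < d * I) (x y : Fin d → ZMod L) :
    JT2 J I Wn κ0 κl κw (2 + k) x y = if x ≠ y ∧ tblk (I - 1 - k / d) x = tblk (I - 1 - k / d) y
      then κl (I - 1 - k / d) / d else 0 := by
  unfold JT2
  rw [if_neg (by omega), if_neg (by omega), if_pos (by omega)]
  rw [Nat.add_sub_cancel_left]

lemma JT2_win (k : ℕ) (x y : Fin d → ZMod L) :
    JT2 J I Wn κ0 κl κw (2 + d * I + k) x y =
      if x ≠ y ∧ () = () then κw (Wn - 1 - k) else 0 := by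
  unfold JT2
  rw [if_neg (by omega), if_neg (by omega), if_neg (by omega)]
  have : 2 + d * I + k - 2 - d * I = k := by omega
  rw [this]

lemma sum_div_range (f : ℕ → ℝ) (hd : 1 ≤ d) (n : ℕ) :
    ∑ k ∈ range (d * n), f (k / d) = d * ∑ j ∈ range n, f j := by
  induction n with
  | zero => simp
  | succ n ih =>
    rw [Nat.mul_succ, Finset.sum_range_add, ih, Finset.sum_range_succ, mul_add]
    congr 1
    rw [Finset.sum_congr rfl (g := fun _ => f n)]
    · simp
    · intro r hr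
      rw [Finset.mem_range] at hr
      congr 1
      rw [Nat.mul_add_div (by omega), Nat.div_eq_of_lt hr, add_zero]

/-- The types sum up to `J`. -/
lemma sum_JT2 (hd : 1 ≤ d) (hJd : ∀ x, J x x = 0) (x y : Fin d → ZMod L) :
    ∑ j : Fin (2 + d * I + Wn), JT2 J I Wn κ0 κl κw j.val x y = J x y := by
  have hd0 : (d : ℝ) ≠ 0 := by
    have : (0 : ℝ) < d := by exact_mod_cast hd
    exact this.ne'
  rw [Fin.sum_univ_eq_sum_range (fun k => JT2 J I Wn κ0 κl κw k x y) (2 + d * I + Wn),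
    Finset.sum_range_add, Finset.sum_range_add]
  by_cases hxy : x = y
  · subst hxy
    rw [hJd]
    have e1 : ∀ k, JT2 J I Wn κ0 κl κw k x x = 0 := by
      intro k
      unfold JT2
      split_ifs <;> simp_all [RR]
    simp [e1]
  · have e1 : ∑ k ∈ range 2, JT2 J I Wn κ0 κl κw k x y =
        RR J I Wn κ0 κl κw x y + if tblk I x = tblk I y then 2 * κ0 else 0 := by
      rw [Finset.sum_range_succ, Finset.sum_range_succ, Finset.sum_range_zero, JT2_one]
      simp [JT2, hxy]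
    have e2 : ∑ k ∈ range (d * I), JT2 J I Wn κ0 κl κw (2 + k) x y =
        ∑ i ∈ range I, (if tblk i x = tblk i y then κl i else 0) := by
      have h1 : ∑ k ∈ range (d * I), JT2 J I Wn κ0 κl κw (2 + k) x y =
          ∑ k ∈ range (d * I), (fun j => if tblk (I - 1 - j) x = tblk (I - 1 - j) y
            then κl (I - 1 - j) / d else 0) (k / d) := by
        refine Finset.sum_congr rfl fun k hk => ?_
        rw [JT2_level J I Wn κ0 κl κw k (Finset.mem_range.1 hk)]
        simp [hxy]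
      have h2 := sum_div_range (d := d) (fun j => if tblk (I - 1 - j) x = tblk (I - 1 - j) y
            then κl (I - 1 - j) / d else 0) hd I
      rw [h1, h2, ← Finset.sum_range_reflect
        (fun i => if tblk i x = tblk i y then κl i else 0), Finset.mul_sum]
      refine Finset.sum_congr rfl fun j _ => ?_
      split_ifs
      · field_simp
      · ring
    have e3 : ∑ k ∈ range Wn, JT2 J I Wn κ0 κl κw (2 + d * I + k) x y = ∑ m ∈ range Wn, κw m := by
      rw [← Finset.sum_range_reflect (fun m => κw m)]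
      refine Finset.sum_congr rfl fun k _ => ?_
      rw [JT2_win, if_pos ⟨hxy, rfl⟩]
    rw [e1, e2, e3]
    have e6 : RR J I Wn κ0 κl κw x y = J x y - MF I Wn κ0 κl κw x y := by
      unfold RR; rw [if_neg hxy]
    have e8 : MF I Wn κ0 κl κw x y = (if tblk I x = tblk I y then 2 * κ0 else 0) +
      ∑ i ∈ range I, (if tblk i x = tblk i y then κl i else 0) + ∑ m ∈ range Wn, κw m := rfl
    linarith [e6, e8]

lemma JT2_diag (k : ℕ) (x : Fin d → ZMod L) : JT2 J I Wn κ0 κl κw k x x = 0 := by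
  unfold JT2
  split_ifs <;> simp_all [RR]

lemma JT2_nonneg (hR : ∀ x y, 0 ≤ RR J I Wn κ0 κl κw x y) (h0 : 0 ≤ κ0) (hl : ∀ i, 0 ≤ κl i)
    (hw : ∀ m, 0 ≤ κw m) (k : ℕ) (x y : Fin d → ZMod L) : 0 ≤ JT2 J I Wn κ0 κl κw k x y := by
  unfold JT2
  split_ifs
  · exact hR x y
  · positivity
  · exact le_rfl
  · exact div_nonneg (hl _) (by positivity)
  · exact le_rfl
  · exact hw _
  · exact le_rfl

end types2

end Pool.Agent.W805.LR
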